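import Mathlib

set_option autoImplicit false

/-! Positivity of the dilation correlation. -/

namespace Pool.Agent.N551.BK

open MeasureTheory Filter Topology Set
open scoped ENNReal

variable {α : Type} [Fintype α]

/-- dilation correlation -/
noncomputable def ph (h : (α → ℝ) → ℝ) (a : ℝ) : ℝ := ∫ x, h x * h (a • x)

lemma smul_int {F : (α → ℝ) → ℝ} (hF : Integrable F) {b : ℝ} (hb : 0 < b) :
    Integrable (fun x => F (b • x)) :=
  hF.comp_smul hb.ne'

lemma smul_intg (F : (α → ℝ) → ℝ) {b : ℝ} (hb : 0 < b) :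
    ∫ x, F (b • x) = b ^ (-(Fintype.card α : ℝ)) * ∫ x, F x := by
  have h1 := Measure.integral_comp_smul_of_nonneg (volume : Measure (α → ℝ)) F b (hR := hb.le)
  simp only [Module.finrank_fintype_fun_eq_card, smul_eq_mul] at h1
  rw [h1, Real.rpow_neg hb.le, Real.rpow_natCast]

lemma sq_int {h : (α → ℝ) → ℝ} (hm : MemLp h 2) {b : ℝ} (hb : 0 < b) :
    Integrable (fun x => h (b • x) ^ 2) := smul_int (F := fun x => h x ^ 2) hm.integrable_sq hb

lemma scale_memLp {h : (α → ℝ) → ℝ} (hc : Continuous h) (hm : MemLp h 2) {b : ℝ} (hb : 0 < b) :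
    MemLp (fun x => h (b • x)) 2 := by
  rw [memLp_two_iff_integrable_sq]
  · exact sq_int hm hb
  · exact (hc.comp (by fun_prop : Continuous fun x : α → ℝ => b • x)).aestronglyMeasurable

lemma prod_bound {h : (α → ℝ) → ℝ} (hc : Continuous h) (hm : MemLp h 2) {b c : ℝ} (hb : 0 < b)
    (hc0 : 0 < c) : Integrable (fun x => h (b • x) * h (c • x)) ∧
    ∫ x, |h (b • x) * h (c • x)| ≤ (∫ x, h x ^ 2) *
      (b ^ (-(Fintype.card α : ℝ) / 2) * c ^ (-(Fintype.card α : ℝ) / 2)) := by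
  have hi : Integrable (fun x => h (b • x) * h (c • x)) :=
    (scale_memLp hc hm hb).integrable_mul (scale_memLp hc hm hc0)
  refine ⟨hi, ?_⟩
  set s := b ^ ((Fintype.card α : ℝ) / 2) with hs
  set t := c ^ ((Fintype.card α : ℝ) / 2) with ht
  have hs0 : 0 < s := Real.rpow_pos_of_pos hb _
  have ht0 : 0 < t := Real.rpow_pos_of_pos hc0 _
  have es : b ^ (-(Fintype.card α : ℝ) / 2) = s⁻¹ := by
    rw [hs, ← Real.rpow_neg hb.le]; congr 1; ring
  have et : c ^ (-(Fintype.card α : ℝ) / 2) = t⁻¹ := by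
    rw [ht, ← Real.rpow_neg hc0.le]; congr 1; ring
  have es2 : b ^ (-(Fintype.card α : ℝ)) = s⁻¹ * s⁻¹ := by
    rw [← es, ← Real.rpow_add hb]; congr 1; ring
  have et2 : c ^ (-(Fintype.card α : ℝ)) = t⁻¹ * t⁻¹ := by
    rw [← et, ← Real.rpow_add hc0]; congr 1; ring
  have hb2 := smul_intg (fun x => h x ^ 2) hb
  have hc2 := smul_intg (fun x => h x ^ 2) hc0
  calc ∫ x, |h (b • x) * h (c • x)|
      ≤ ∫ x, (s / t / 2 * h (b • x) ^ 2 + t / s / 2 * h (c • x) ^ 2) := by
        refine integral_mono hi.abs (((sq_int hm hb).const_mul _).add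
          ((sq_int hm hc0).const_mul _)) fun x => ?_
        simp only
        rw [abs_le]
        have e1 : s / t / 2 * h (b • x) ^ 2 + t / s / 2 * h (c • x) ^ 2 - h (b • x) * h (c • x) =
            (s * h (b • x) - t * h (c • x)) ^ 2 / (2 * s * t) := by
          field_simp; ring
        have e2 : s / t / 2 * h (b • x) ^ 2 + t / s / 2 * h (c • x) ^ 2 + h (b • x) * h (c • x) =
            (s * h (b • x) + t * h (c • x)) ^ 2 / (2 * s * t) := by
          field_simp; ring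
        have e3 : 0 ≤ (s * h (b • x) - t * h (c • x)) ^ 2 / (2 * s * t) := by positivity
        have e4 : 0 ≤ (s * h (b • x) + t * h (c • x)) ^ 2 / (2 * s * t) := by positivity
        constructor <;> linarith
    _ = (∫ x, h x ^ 2) * (b ^ (-(Fintype.card α : ℝ) / 2) * c ^ (-(Fintype.card α : ℝ) / 2)) := by
        rw [integral_add ((sq_int hm hb).const_mul _) ((sq_int hm hc0).const_mul _),
          integral_const_mul, integral_const_mul, hb2, hc2, es, et, es2, et2]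
        field_simp
        ring

lemma psi_eq (h : (α → ℝ) → ℝ) {b c : ℝ} (hb : 0 < b) :
    ∫ x, h (b • x) * h (c • x) = b ^ (-(Fintype.card α : ℝ)) * ph h (c / b) := by
  rw [ph, ← smul_intg (fun x => h x * h ((c / b) • x)) hb]
  refine integral_congr_ae (Eventually.of_forall fun x => ?_)
  simp only
  rw [smul_smul, div_mul_cancel₀ _ hb.ne']

lemma ph_inv (h : (α → ℝ) → ℝ) {a : ℝ} (ha : 0 < a) :
    ph h a⁻¹ = a ^ (Fintype.card α : ℝ) * ph h a := by
  have h1 := psi_eq h (c := 1) ha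
  simp only [one_smul, one_div] at h1
  have h2 : ∫ x, h (a • x) * h x = ph h a := by
    rw [ph]
    exact integral_congr_ae (Eventually.of_forall fun x => mul_comm _ _)
  rw [h2] at h1
  rw [h1, ← mul_assoc, ← Real.rpow_add ha, add_neg_cancel, Real.rpow_zero, one_mul]

lemma ph_bound {h : (α → ℝ) → ℝ} (hc : Continuous h) (hm : MemLp h 2) {a : ℝ} (ha : 0 < a) :
    |ph h a| ≤ (∫ x, h x ^ 2) * a ^ (-(Fintype.card α : ℝ) / 2) := by
  have h1 := (prod_bound hc hm one_pos ha).2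
  simp only [one_smul, Real.one_rpow, one_mul] at h1
  refine le_trans ?_ h1
  rw [ph]
  exact abs_integral_le_integral_abs

lemma ph_meas {h : (α → ℝ) → ℝ} (hc : Continuous h) : StronglyMeasurable (ph h) := by
  have : Continuous (fun p : ℝ × (α → ℝ) => h p.2 * h (p.1 • p.2)) := by fun_prop
  exact this.stronglyMeasurable.integral_prod_right

/-- substitution `x ↦ 1/x` -/
lemma inv_Ioi (F : ℝ → ℝ) : ∫ x in Ioi 1, F x = ∫ x in Ioo 0 1, (x ^ 2)⁻¹ * F x⁻¹ := by
  have h := integral_comp_rpow_Ioi ((Ioi (1 : ℝ)).indicator F) (p := -1) (by norm_num)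
  have e1 : ∫ y in Ioi (0 : ℝ), (Ioi (1 : ℝ)).indicator F y = ∫ y in Ioi 1, F y := by
    rw [setIntegral_indicator measurableSet_Ioi]
    congr 2
    ext x
    simp only [mem_inter_iff, mem_Ioi]
    constructor
    · exact fun h => h.2
    · exact fun h => ⟨by linarith, h⟩
  rw [← e1, ← h]
  have e2 : ∫ x in Ioi (0 : ℝ), (|(-1 : ℝ)| * x ^ ((-1 : ℝ) - 1)) •
      (Ioi (1 : ℝ)).indicator F (x ^ (-1 : ℝ)) =
      ∫ x in Ioi (0 : ℝ), (Ioo (0 : ℝ) 1).indicator (fun x => (x ^ 2)⁻¹ * F x⁻¹) x := by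
    refine setIntegral_congr_fun measurableSet_Ioi fun x hx => ?_
    have hx0 : 0 < x := hx
    have e3 : x ^ (-1 : ℝ) = x⁻¹ := Real.rpow_neg_one x
    have e4 : x ^ ((-1 : ℝ) - 1) = (x ^ 2)⁻¹ := by
      rw [show ((-1 : ℝ) - 1) = -((2 : ℕ) : ℝ) by norm_num, Real.rpow_neg hx0.le,
        Real.rpow_natCast]
    rw [e3, e4]
    by_cases h1 : x < 1
    · rw [indicator_of_mem, indicator_of_mem]
      · simp
      · exact ⟨hx0, h1⟩
      · exact (one_lt_inv₀ hx0).2 h1
    · rw [indicator_of_notMem, indicator_of_notMem]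
      · simp
      · intro h2; exact h1 h2.2
      · intro h2; exact h1 ((one_lt_inv₀ hx0).1 h2)
  rw [e2, setIntegral_indicator measurableSet_Ioo]
  congr 2
  ext x
  simp only [mem_inter_iff, mem_Ioi, mem_Ioo]
  constructor
  · exact fun h => h.2
  · exact fun h => ⟨h.1, h⟩

lemma inv_Ioi_int {F : ℝ → ℝ} (hF : IntegrableOn F (Ioi 1)) :
    IntegrableOn (fun x => (x ^ 2)⁻¹ * F x⁻¹) (Ioo 0 1) := by
  have h := (integrableOn_Ioi_comp_rpow_iff ((Ioi (1 : ℝ)).indicator F) (p := -1)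
    (by norm_num)).2 (by
      have : Integrable ((Ioi (1 : ℝ)).indicator F) := (integrable_indicator_iff
        measurableSet_Ioi).2 hF
      exact this.integrableOn)
  have h2 : IntegrableOn (fun x => (|(-1 : ℝ)| * x ^ ((-1 : ℝ) - 1)) •
      (Ioi (1 : ℝ)).indicator F (x ^ (-1 : ℝ))) (Ioo 0 1) :=
    h.mono_set fun x hx => hx.1
  refine h2.congr_fun (fun x hx => ?_) measurableSet_Ioo
  simp only
  have hx0 : 0 < x := hx.1
  have e3 : x ^ (-1 : ℝ) = x⁻¹ := Real.rpow_neg_one x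
  have e4 : x ^ ((-1 : ℝ) - 1) = (x ^ 2)⁻¹ := by
    rw [show ((-1 : ℝ) - 1) = -((2 : ℕ) : ℝ) by norm_num, Real.rpow_neg hx0.le,
      Real.rpow_natCast]
  rw [e3, e4, indicator_of_mem]
  · simp
  · exact (one_lt_inv₀ hx0).2 hx.2

lemma wt_int {n k : ℕ} (hk : 1 ≤ k) (h : 2 * k < n) :
    IntegrableOn (fun b : ℝ => b ^ (k - 1) * b ^ (-(n : ℝ) / 2)) (Ioi 1) := by
  have h1 : (2 * k : ℝ) < n := by exact_mod_cast h
  refine (integrableOn_Ioi_rpow_of_lt (a := (k : ℝ) - 1 + -(n : ℝ) / 2) (by linarith)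
    one_pos).congr_fun (fun b hb => ?_) measurableSet_Ioi
  have hb0 : (0 : ℝ) < b := lt_trans one_pos hb
  simp only
  rw [Real.rpow_add hb0, ← Real.rpow_natCast, Nat.cast_sub hk, Nat.cast_one]

/-- the triple product -/
noncomputable def Ph (h : (α → ℝ) → ℝ) (k : ℕ) (q : (ℝ × ℝ) × (α → ℝ)) : ℝ :=
  q.1.1 ^ (k - 1) * q.1.2 ^ (k - 1) * (h (q.1.1 • q.2) * h (q.1.2 • q.2))

lemma Ph_cont {h : (α → ℝ) → ℝ} (hc : Continuous h) (k : ℕ) : Continuous (Ph h k) := by
  unfold Ph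
  fun_prop

lemma Ph_int {h : (α → ℝ) → ℝ} (hc : Continuous h) (hm : MemLp h 2) {k : ℕ} (hk : 1 ≤ k)
    (h2 : 2 * k < Fintype.card α) :
    Integrable (Ph h k) (((volume.restrict (Ioi (1 : ℝ))).prod
      (volume.restrict (Ioi (1 : ℝ)))).prod (volume : Measure (α → ℝ))) := by
  have hae : ∀ᵐ bc : ℝ × ℝ ∂((volume.restrict (Ioi (1 : ℝ))).prod
      (volume.restrict (Ioi (1 : ℝ)))), 0 < bc.1 ∧ 0 < bc.2 := by
    rw [Measure.prod_restrict]
    filter_upwards [ae_restrict_mem (measurableSet_Ioi.prod measurableSet_Ioi)] with bc hbc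
    exact ⟨lt_trans one_pos hbc.1, lt_trans one_pos hbc.2⟩
  rw [integrable_prod_iff (Ph_cont hc k).aestronglyMeasurable]
  refine ⟨?_, ?_⟩
  · filter_upwards [hae] with bc hbc
    exact (prod_bound hc hm hbc.1 hbc.2).1.const_mul (bc.1 ^ (k - 1) * bc.2 ^ (k - 1))
  · have hw := wt_int (n := Fintype.card α) hk h2
    have hw2 := (hw.mul_prod hw).const_mul (∫ x, h x ^ 2)
    refine hw2.mono' ?_ ?_
    · exact ((Ph_cont hc k).stronglyMeasurable.norm.integral_prod_right
        (ν := (volume : Measure (α → ℝ)))).aestronglyMeasurable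
    · filter_upwards [hae] with bc hbc
      rw [Real.norm_of_nonneg (integral_nonneg fun x => norm_nonneg _)]
      have e : ∀ x, ‖Ph h k (bc, x)‖ = bc.1 ^ (k - 1) * bc.2 ^ (k - 1) *
          |h (bc.1 • x) * h (bc.2 • x)| := by
        intro x
        rw [Ph, norm_mul, Real.norm_eq_abs, Real.norm_eq_abs, abs_of_pos]
        exact mul_pos (pow_pos hbc.1 _) (pow_pos hbc.2 _)
      simp only [e]
      rw [integral_const_mul]
      have := (prod_bound hc hm hbc.1 hbc.2).2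
      have h3 : 0 ≤ bc.1 ^ (k - 1) * bc.2 ^ (k - 1) :=
        (mul_pos (pow_pos hbc.1 _) (pow_pos hbc.2 _)).le
      calc _ ≤ bc.1 ^ (k - 1) * bc.2 ^ (k - 1) * ((∫ x, h x ^ 2) *
            (bc.1 ^ (-(Fintype.card α : ℝ) / 2) * bc.2 ^ (-(Fintype.card α : ℝ) / 2))) :=
            mul_le_mul_of_nonneg_left this h3
        _ = _ := by ring

lemma Ph_nonneg {h : (α → ℝ) → ℝ} (hc : Continuous h) (hm : MemLp h 2) {k : ℕ} (hk : 1 ≤ k)
    (h2 : 2 * k < Fintype.card α) :
    0 ≤ ∫ q, Ph h k q ∂(((volume.restrict (Ioi (1 : ℝ))).prod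
      (volume.restrict (Ioi (1 : ℝ)))).prod (volume : Measure (α → ℝ))) := by
  rw [integral_prod_symm _ (Ph_int hc hm hk h2)]
  refine integral_nonneg fun x => ?_
  simp only [Pi.zero_apply]
  have e : ∀ bc : ℝ × ℝ, Ph h k (bc, x) = (bc.1 ^ (k - 1) * h (bc.1 • x)) *
      (bc.2 ^ (k - 1) * h (bc.2 • x)) := by
    intro bc; rw [Ph]; ring
  simp only [e]
  rw [integral_prod_mul (fun b : ℝ => b ^ (k - 1) * h (b • x))
    (fun b : ℝ => b ^ (k - 1) * h (b • x))]
  exact mul_self_nonneg _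

/-- the kernel in multiplicative coordinates -/
noncomputable def Mk (h : (α → ℝ) → ℝ) (k : ℕ) (b a : ℝ) : ℝ :=
  (Ioi b⁻¹).indicator (fun a => b ^ (2 * (k : ℝ) - 1 - Fintype.card α) * (a ^ (k - 1) * ph h a)) a

lemma Ph_eq {h : (α → ℝ) → ℝ} (hc : Continuous h) (hm : MemLp h 2) {k : ℕ} (hk : 1 ≤ k)
    (h2 : 2 * k < Fintype.card α) :
    ∫ q, Ph h k q ∂(((volume.restrict (Ioi (1 : ℝ))).prod
      (volume.restrict (Ioi (1 : ℝ)))).prod (volume : Measure (α → ℝ))) =
    ∫ b in Ioi (1 : ℝ), ∫ a in Ioi (0 : ℝ), Mk h k b a := by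
  rw [integral_prod _ (Ph_int hc hm hk h2), integral_prod _ (Ph_int hc hm hk h2).integral_prod_left]
  refine setIntegral_congr_fun measurableSet_Ioi fun b hb => ?_
  have hb1 : (1 : ℝ) < b := hb
  have hb0 : 0 < b := by linarith
  have e1 : ∀ c, ∫ x, Ph h k ((b, c), x) = b ^ (k - 1) * c ^ (k - 1) *
      (b ^ (-(Fintype.card α : ℝ)) * ph h (c / b)) := by
    intro c
    rw [← psi_eq h hb0, ← integral_const_mul]
    rfl
  simp only [e1]
  have e2 := integral_comp_mul_left_Ioi (fun c => b ^ (k - 1) * c ^ (k - 1) *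
      (b ^ (-(Fintype.card α : ℝ)) * ph h (c / b))) b⁻¹ hb0
  rw [mul_inv_cancel₀ hb0.ne', smul_eq_mul] at e2
  have e3 : ∫ c in Ioi (1 : ℝ), b ^ (k - 1) * c ^ (k - 1) *
      (b ^ (-(Fintype.card α : ℝ)) * ph h (c / b)) = b * ∫ x in Ioi b⁻¹, b ^ (k - 1) *
      (b * x) ^ (k - 1) * (b ^ (-(Fintype.card α : ℝ)) * ph h (b * x / b)) := by
    rw [e2, ← mul_assoc, mul_inv_cancel₀ hb0.ne', one_mul]
  rw [e3, ← integral_const_mul]
  have e4 : ∫ a in Ioi (0 : ℝ), Mk h k b a = ∫ a in Ioi b⁻¹,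
      b ^ (2 * (k : ℝ) - 1 - Fintype.card α) * (a ^ (k - 1) * ph h a) := by
    simp only [Mk]
    rw [setIntegral_indicator measurableSet_Ioi]
    congr 2
    ext x
    simp only [mem_inter_iff, mem_Ioi]
    constructor
    · exact fun h => h.2
    · exact fun h => ⟨lt_trans (inv_pos.2 hb0) h, h⟩
  rw [e4]
  refine setIntegral_congr_fun measurableSet_Ioi fun a ha => ?_
  rw [mul_div_cancel_left₀ _ hb0.ne', mul_pow]
  have e5 : b ^ (2 * (k : ℝ) - 1 - Fintype.card α) = b * b ^ (k - 1) * b ^ (k - 1) *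
      b ^ (-(Fintype.card α : ℝ)) := by
    have e6 : b ^ (k - 1) = b ^ ((k : ℝ) - 1) := by
      rw [← Real.rpow_natCast, Nat.cast_sub hk, Nat.cast_one]
    have e7 : b * b ^ ((k : ℝ) - 1) = b ^ (k : ℝ) := by
      nth_rewrite 1 [← Real.rpow_one b]
      rw [← Real.rpow_add hb0]; congr 1; ring
    rw [e6, e7, ← Real.rpow_add hb0, ← Real.rpow_add hb0]
    congr 1
    ring
  rw [e5]
  ring

lemma Mk_iff {h : (α → ℝ) → ℝ} {k : ℕ} {a b : ℝ} (ha : 0 < a) (hb : 0 < b) :
    Mk h k b a = (Ioi a⁻¹).indicator (fun b => b ^ (2 * (k : ℝ) - 1 - Fintype.card α) *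
      (a ^ (k - 1) * ph h a)) b := by
  unfold Mk
  by_cases h1 : b⁻¹ < a
  · rw [indicator_of_mem (by exact h1), indicator_of_mem]
    exact (inv_lt_comm₀ ha hb).2 h1
  · rw [indicator_of_notMem (by exact h1), indicator_of_notMem]
    intro h2
    exact h1 ((inv_lt_comm₀ ha hb).1 h2)

lemma expo {k : ℕ} {n : ℕ} (h2 : 2 * k < n) : 2 * (k : ℝ) - 1 - n < -1 := by
  have h1 : (2 * k : ℝ) < n := by exact_mod_cast h2
  linarith

lemma Mk_int_b {h : (α → ℝ) → ℝ} {k : ℕ} (h2 : 2 * k < Fintype.card α) {a : ℝ} (ha : 0 < a) :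
    IntegrableOn (fun b => Mk h k b a) (Ioi 1) ∧
    ∫ b in Ioi (1 : ℝ), Mk h k b a = (max 1 a⁻¹) ^ (2 * (k : ℝ) - Fintype.card α) /
      (Fintype.card α - 2 * k) * (a ^ (k - 1) * ph h a) ∧
    ∫ b in Ioi (1 : ℝ), ‖Mk h k b a‖ = (max 1 a⁻¹) ^ (2 * (k : ℝ) - Fintype.card α) /
      (Fintype.card α - 2 * k) * (a ^ (k - 1) * |ph h a|) := by
  have hmx : 0 < max 1 a⁻¹ := lt_of_lt_of_le one_pos (le_max_left _ _)
  have hI := integrableOn_Ioi_rpow_of_lt (expo h2) hmx
  have hv := integral_Ioi_rpow_of_lt (expo h2) hmx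
  have hset : Ioi (1 : ℝ) ∩ Ioi a⁻¹ = Ioi (max 1 a⁻¹) := by
    ext x; simp only [mem_inter_iff, mem_Ioi, max_lt_iff]
  have hval : ∫ b in Ioi (max 1 a⁻¹), b ^ (2 * (k : ℝ) - 1 - Fintype.card α) =
      (max 1 a⁻¹) ^ (2 * (k : ℝ) - Fintype.card α) / (Fintype.card α - 2 * k) := by
    rw [hv]
    have e1 : 2 * (k : ℝ) - 1 - Fintype.card α + 1 = 2 * (k : ℝ) - Fintype.card α := by ring
    rw [e1]
    have h1 : (2 * k : ℝ) < Fintype.card α := by exact_mod_cast h2
    have h3 : (Fintype.card α : ℝ) - 2 * k ≠ 0 := by linarith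
    have h4 : 2 * (k : ℝ) - Fintype.card α ≠ 0 := by linarith
    rw [← neg_sub (Fintype.card α : ℝ) (2 * (k : ℝ)), neg_div_neg_eq]
  have hcg : ∀ b ∈ Ioi (1 : ℝ), Mk h k b a = (Ioi a⁻¹).indicator
      (fun b => b ^ (2 * (k : ℝ) - 1 - Fintype.card α) * (a ^ (k - 1) * ph h a)) b :=
    fun b hb => Mk_iff ha (lt_trans one_pos hb)
  refine ⟨?_, ?_, ?_⟩
  · refine IntegrableOn.congr_fun ?_ (fun b hb => (hcg b hb).symm) measurableSet_Ioi
    unfold IntegrableOn
    rw [integrable_indicator_iff measurableSet_Ioi, IntegrableOn, Measure.restrict_restrict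
      measurableSet_Ioi, inter_comm, hset]
    exact hI.mul_const _
  · rw [setIntegral_congr_fun measurableSet_Ioi hcg, setIntegral_indicator measurableSet_Ioi,
      hset, integral_mul_const, hval]
  · have hcg2 : ∀ b ∈ Ioi (1 : ℝ), ‖Mk h k b a‖ = (Ioi a⁻¹).indicator
      (fun b => b ^ (2 * (k : ℝ) - 1 - Fintype.card α) * (a ^ (k - 1) * |ph h a|)) b := by
      intro b hb
      have hb0 : (0 : ℝ) < b := lt_trans one_pos hb
      rw [hcg b hb]
      by_cases h1 : b ∈ Ioi a⁻¹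
      · rw [indicator_of_mem h1, indicator_of_mem h1, norm_mul, norm_mul,
          Real.norm_of_nonneg (by positivity), Real.norm_of_nonneg (by positivity),
          Real.norm_eq_abs]
      · rw [indicator_of_notMem h1, indicator_of_notMem h1, norm_zero]
    rw [setIntegral_congr_fun measurableSet_Ioi hcg2, setIntegral_indicator measurableSet_Ioi,
      hset, integral_mul_const, hval]

lemma w_le {n k : ℕ} {a : ℝ} (ha : 0 < a) (h : a ≤ 1) :
    (max 1 a⁻¹) ^ (2 * (k : ℝ) - n) = a ^ ((n : ℝ) - 2 * k) := by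
  rw [max_eq_right ((one_le_inv₀ ha).2 h), Real.inv_rpow ha.le, ← Real.rpow_neg ha.le]
  congr 1; ring

lemma w_ge {n k : ℕ} {a : ℝ} (h : 1 < a) :
    (max 1 a⁻¹) ^ (2 * (k : ℝ) - n) = 1 := by
  rw [max_eq_left (inv_le_one_of_one_le₀ h.le), Real.one_rpow]

lemma Mk_int {h : (α → ℝ) → ℝ} (hc : Continuous h) (hm : MemLp h 2) {k : ℕ} (hk : 1 ≤ k)
    (h2 : 2 * k < Fintype.card α) :
    Integrable (Function.uncurry (Mk h k)) ((volume.restrict (Ioi (1 : ℝ))).prod
      (volume.restrict (Ioi (0 : ℝ)))) := by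
  have hcard : (2 * k : ℝ) < Fintype.card α := by exact_mod_cast h2
  have hd : (0 : ℝ) < Fintype.card α - 2 * k := by linarith
  have hmeas : Measurable (Function.uncurry (Mk h k)) := by
    have h1 : MeasurableSet {p : ℝ × ℝ | p.1⁻¹ < p.2} :=
      measurableSet_lt (by fun_prop) (by fun_prop)
    have h3 : Function.uncurry (Mk h k) = {p : ℝ × ℝ | p.1⁻¹ < p.2}.indicator
        (fun p => p.1 ^ (2 * (k : ℝ) - 1 - Fintype.card α) * (p.2 ^ (k - 1) * ph h p.2)) := by
      funext p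
      rfl
    rw [h3]
    have := (ph_meas hc).measurable
    exact Measurable.indicator (by fun_prop) h1
  rw [integrable_prod_iff' hmeas.aestronglyMeasurable]
  refine ⟨?_, ?_⟩
  · filter_upwards [ae_restrict_mem measurableSet_Ioi] with a ha
    exact (Mk_int_b h2 ha).1
  · have e : ∀ a ∈ Ioi (0 : ℝ), ∫ b in Ioi (1 : ℝ), ‖Function.uncurry (Mk h k) (b, a)‖ =
        (max 1 a⁻¹) ^ (2 * (k : ℝ) - Fintype.card α) /
      (Fintype.card α - 2 * k) * (a ^ (k - 1) * |ph h a|) := fun a ha => (Mk_int_b h2 ha).2.2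
    refine Integrable.congr ?_ ((ae_restrict_mem measurableSet_Ioi).mono fun a ha => (e a ha).symm)
    have hph := (ph_meas hc).measurable
    have hms : Measurable (fun a : ℝ => (max 1 a⁻¹) ^ (2 * (k : ℝ) - Fintype.card α) /
      (Fintype.card α - 2 * k) * (a ^ (k - 1) * |ph h a|)) := by fun_prop
    have hN : 0 ≤ ∫ x, h x ^ 2 := integral_nonneg fun x => sq_nonneg _
    rw [← IntegrableOn, ← Ioc_union_Ioi_eq_Ioi zero_le_one]
    refine IntegrableOn.union ?_ ?_
    · have hi : IntegrableOn (fun a : ℝ => (∫ x, h x ^ 2) / (Fintype.card α - 2 * k) *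
          a ^ ((Fintype.card α : ℝ) / 2 - k - 1)) (Ioc 0 1) := by
        have := intervalIntegral.intervalIntegrable_rpow' (a := 0) (b := 1)
          (r := (Fintype.card α : ℝ) / 2 - k - 1) (by linarith)
        rw [intervalIntegrable_iff_integrableOn_Ioc_of_le zero_le_one] at this
        exact this.const_mul _
      refine Integrable.mono' hi hms.aestronglyMeasurable ?_
      filter_upwards [ae_restrict_mem measurableSet_Ioc] with a ha
      have ha0 : 0 < a := ha.1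
      rw [Real.norm_of_nonneg (by positivity), w_le ha0 ha.2]
      have hb := ph_bound hc hm ha0
      calc a ^ ((Fintype.card α : ℝ) - 2 * k) / (Fintype.card α - 2 * k) *
            (a ^ (k - 1) * |ph h a|) ≤
          a ^ ((Fintype.card α : ℝ) - 2 * k) / (Fintype.card α - 2 * k) *
            (a ^ (k - 1) * ((∫ x, h x ^ 2) * a ^ (-(Fintype.card α : ℝ) / 2))) := by gcongr
        _ = (∫ x, h x ^ 2) / (Fintype.card α - 2 * k) * (a ^ ((Fintype.card α : ℝ) - 2 * k) *
            a ^ (k - 1) * a ^ (-(Fintype.card α : ℝ) / 2)) := by ring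
        _ = _ := by
          congr 1
          have e6 : a ^ (k - 1) = a ^ ((k : ℝ) - 1) := by
            rw [← Real.rpow_natCast, Nat.cast_sub hk, Nat.cast_one]
          rw [e6, ← Real.rpow_add ha0, ← Real.rpow_add ha0]
          congr 1
          ring
    · have hi := (wt_int hk h2).const_mul ((∫ x, h x ^ 2) / (Fintype.card α - 2 * k))
      refine Integrable.mono' hi hms.aestronglyMeasurable ?_
      filter_upwards [ae_restrict_mem measurableSet_Ioi] with a ha
      have ha0 : 0 < a := lt_trans one_pos ha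
      rw [Real.norm_of_nonneg (by positivity), w_ge ha]
      have hb := ph_bound hc hm ha0
      calc 1 / (Fintype.card α - 2 * k) * (a ^ (k - 1) * |ph h a|) ≤
          1 / (Fintype.card α - 2 * k) *
            (a ^ (k - 1) * ((∫ x, h x ^ 2) * a ^ (-(Fintype.card α : ℝ) / 2))) := by gcongr
        _ = _ := by ring

/-- **positivity** -/
theorem ph_pos {h : (α → ℝ) → ℝ} (hc : Continuous h) (hm : MemLp h 2) {k : ℕ} (hk : 1 ≤ k)
    (h2 : 2 * k < Fintype.card α) :
    0 ≤ ∫ a in Ioo (0 : ℝ) 1, a ^ (Fintype.card α - k - 1) * ph h a := by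
  have hcard : (2 * k : ℝ) < Fintype.card α := by exact_mod_cast h2
  have hd : (0 : ℝ) < Fintype.card α - 2 * k := by linarith
  have h0 := Ph_nonneg hc hm hk h2
  rw [Ph_eq hc hm hk h2, integral_integral_swap (Mk_int hc hm hk h2)] at h0
  have hI := (Mk_int hc hm hk h2).integral_prod_right
  set W : ℝ → ℝ := fun a => (max 1 a⁻¹) ^ (2 * (k : ℝ) - Fintype.card α) /
      (Fintype.card α - 2 * k) * (a ^ (k - 1) * ph h a) with hW
  have hE : ∀ a ∈ Ioi (0 : ℝ), ∫ b in Ioi (1 : ℝ), Mk h k b a = W a :=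
    fun a ha => (Mk_int_b h2 ha).2.1
  rw [setIntegral_congr_fun measurableSet_Ioi hE] at h0
  have hWi : IntegrableOn W (Ioi 0) := by
    refine Integrable.congr hI ((ae_restrict_mem measurableSet_Ioi).mono fun a ha => ?_)
    exact hE a ha
  have hsplit : Ioi (0 : ℝ) = Ioo 0 1 ∪ Ici 1 := by
    ext x; simp only [mem_Ioi, mem_union, mem_Ioo, mem_Ici]
    constructor
    · intro h; rcases lt_or_ge x 1 with h3 | h3
      · exact Or.inl ⟨h, h3⟩
      · exact Or.inr h3
    · rintro (h | h)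
      · exact h.1
      · linarith
  have hdis : Disjoint (Ioo (0 : ℝ) 1) (Ici 1) := by
    rw [Set.disjoint_left]; intro x h1 h3; exact absurd h1.2 (not_lt.2 h3)
  have hw1 : IntegrableOn W (Ioo 0 1) := hWi.mono_set fun x hx => hx.1
  have hw2 : IntegrableOn W (Ici 1) := hWi.mono_set fun x hx => by
    have h6 : (1 : ℝ) ≤ x := hx
    have h7 : (0 : ℝ) < x := by linarith
    exact h7
  rw [hsplit, setIntegral_union hdis measurableSet_Ici hw1 hw2,
    integral_Ici_eq_integral_Ioi, inv_Ioi] at h0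
  have e1 : ∀ x ∈ Ioo (0 : ℝ) 1, W x = (Fintype.card α - 2 * k : ℝ)⁻¹ *
      (x ^ (Fintype.card α - k - 1) * ph h x) := by
    intro x hx
    simp only [hW]
    rw [w_le hx.1 hx.2.le]
    have : x ^ (Fintype.card α - k - 1) = x ^ ((Fintype.card α : ℝ) - 2 * k) * x ^ (k - 1) := by
      rw [← Real.rpow_natCast x (k - 1), ← Real.rpow_add hx.1, ← Real.rpow_natCast]
      congr 1
      rw [Nat.cast_sub (by omega), Nat.cast_sub (by omega), Nat.cast_sub hk]
      push_cast; ring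
    rw [this]
    field_simp
  have e2 : ∀ x ∈ Ioo (0 : ℝ) 1, (x ^ 2)⁻¹ * W x⁻¹ = (Fintype.card α - 2 * k : ℝ)⁻¹ *
      (x ^ (Fintype.card α - k - 1) * ph h x) := by
    intro x hx
    simp only [hW]
    rw [w_ge ((one_lt_inv₀ hx.1).2 hx.2), ph_inv h hx.1]
    have : x ^ (Fintype.card α - k - 1) = (x ^ 2)⁻¹ * (x⁻¹ ^ (k - 1)) *
        x ^ (Fintype.card α : ℝ) := by
      rw [Real.rpow_natCast, inv_pow, ← mul_inv, ← pow_add, eq_comm, inv_mul_eq_iff_eq_mul₀
        (by have := hx.1; positivity), ← pow_add]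
      congr 1
      omega
    rw [this]
    field_simp
  rw [setIntegral_congr_fun measurableSet_Ioo e1, setIntegral_congr_fun measurableSet_Ioo e2,
    ← two_mul, integral_const_mul] at h0
  have h5 : (0 : ℝ) < 2 * (Fintype.card α - 2 * k : ℝ)⁻¹ := by positivity
  rw [← mul_assoc] at h0
  exact nonneg_of_mul_nonneg_right h0 h5

end Pool.Agent.N551.BK
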