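import Mathlib
import Pool.Agent.N551.BK.Pos

set_option autoImplicit false

/-! The abstract argument. -/

namespace Pool.Agent.N551.BK

open MeasureTheory Filter Topology Set
open scoped ENNReal

lemma split_int {W : ℝ → ℝ} (hWi : IntegrableOn W (Ioi 0)) :
    ∫ a in Ioi (0 : ℝ), W a = (∫ a in Ioo (0 : ℝ) 1, W a) + ∫ a in Ioi (1 : ℝ), W a := by
  have hsplit : Ioi (0 : ℝ) = Ioo 0 1 ∪ Ici 1 := by
    ext x; simp only [mem_Ioi, mem_union, mem_Ioo, mem_Ici]
    constructor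
    · intro h; rcases lt_or_ge x 1 with h3 | h3
      · exact Or.inl ⟨h, h3⟩
      · exact Or.inr h3
    · rintro (h | h)
      · exact h.1
      · linarith
  have hdis : Disjoint (Ioo (0 : ℝ) 1) (Ici 1) := by
    rw [Set.disjoint_left]; intro x h1 h3; exact absurd h1.2 (not_lt.2 h3)
  have hw1 : IntegrableOn W (Ioo 0 1) := hWi.mono_set fun x hx => hx.1
  have hw2 : IntegrableOn W (Ici 1) := hWi.mono_set fun x hx => by
    have h6 : (1 : ℝ) ≤ x := hx
    have h7 : (0 : ℝ) < x := by linarith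
    exact h7
  rw [hsplit, setIntegral_union hdis measurableSet_Ici hw1 hw2, integral_Ici_eq_integral_Ioi]

theorem abs_asm {n k : ℕ} (hk : 1 ≤ k) (h2 : 2 * k < n) (ω φ : ℝ → ℝ) (t : ℝ)
    (hωi : IntegrableOn (fun a => a ^ (n - k - 1) * ω a) (Ioi 0))
    (hω0 : ∫ a in Ioi (0 : ℝ), a ^ (n - k - 1) * ω a = 0)
    (hφ : ∀ a ∈ Ioo (0 : ℝ) 1, ω a + (a ^ n)⁻¹ * ω a⁻¹ + φ a =
      (1 + a ^ 2) ^ (-((n : ℝ) / 2)) * t)
    (hpos : 0 ≤ ∫ a in Ioo (0 : ℝ) 1, a ^ (n - k - 1) * φ a)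
    (hω1 : ∀ a ∈ Ioi (1 : ℝ), ω a ≤ (1 + a ^ 2) ^ (-((n : ℝ) / 2) - 1) * t) : 0 ≤ t := by
  have hsub : Ioi (1 : ℝ) ⊆ Ioi 0 := fun x (hx : (1 : ℝ) < x) =>
    (lt_trans one_pos hx : (0 : ℝ) < x)
  have j1 : IntegrableOn (fun a => a ^ (n - k - 1) * ω a) (Ioo 0 1) :=
    hωi.mono_set fun x hx => hx.1
  have j2 : IntegrableOn (fun a => a ^ (n - k - 1) * ω a) (Ioi 1) := hωi.mono_set hsub
  have j3 : IntegrableOn (fun a => a ^ (k - 1) * ω a) (Ioi 1) := by
    have : IntegrableOn (fun a : ℝ => (a ^ (n - 2 * k))⁻¹ * (a ^ (n - k - 1) * ω a)) (Ioi 1) := by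
      refine Integrable.bdd_mul (c := 1) j2 ?_ ?_
      · have : Measurable (fun a : ℝ => (a ^ (n - 2 * k))⁻¹) := by fun_prop
        exact this.aestronglyMeasurable
      · filter_upwards [ae_restrict_mem measurableSet_Ioi] with a ha
        have h5 : (1 : ℝ) < a := ha
        have h6 : 1 ≤ a ^ (n - 2 * k) := one_le_pow₀ h5.le
        rw [Real.norm_of_nonneg (by positivity)]
        exact inv_le_one_of_one_le₀ h6
    refine this.congr_fun (fun a ha => ?_) measurableSet_Ioi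
    have h5 : (0 : ℝ) < a := hsub ha
    have e : a ^ (n - k - 1) = a ^ (n - 2 * k) * a ^ (k - 1) := by
      rw [← pow_add]; congr 1; omega
    simp only
    rw [e, ← mul_assoc, ← mul_assoc, inv_mul_cancel₀ (by positivity), one_mul]
  have e4 : ∀ x ∈ Ioo (0 : ℝ) 1, (x ^ 2)⁻¹ * ((x⁻¹) ^ (k - 1) * ω x⁻¹) =
      x ^ (n - k - 1) * ((x ^ n)⁻¹ * ω x⁻¹) := by
    intro x hx
    have hx0 : 0 < x := hx.1
    have : (x ^ 2)⁻¹ * (x⁻¹) ^ (k - 1) = x ^ (n - k - 1) * (x ^ n)⁻¹ := by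
      rw [inv_pow, ← mul_inv, ← pow_add]
      have e5 : x ^ n = x ^ (n - k - 1) * x ^ (2 + (k - 1)) := by
        rw [← pow_add]; congr 1; omega
      rw [e5, mul_inv, ← mul_assoc, mul_inv_cancel₀ (by positivity), one_mul]
    rw [← mul_assoc, this, mul_assoc]
  have i4 := inv_Ioi (fun a => a ^ (k - 1) * ω a)
  have j4 := inv_Ioi_int j3
  rw [setIntegral_congr_fun measurableSet_Ioo e4] at i4
  replace j4 := j4.congr_fun e4 measurableSet_Ioo
  -- the weights
  have hA0 : ∀ a : ℝ, 0 < (1 + a ^ 2) ^ (-((n : ℝ) / 2)) := fun a =>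
    Real.rpow_pos_of_pos (by positivity) _
  have hcont1 : Continuous (fun a : ℝ => a ^ (n - k - 1) * (1 + a ^ 2) ^ (-((n : ℝ) / 2))) := by
    refine Continuous.mul (by fun_prop) ?_
    exact Continuous.rpow_const (by fun_prop) fun a => Or.inl (by positivity)
  have jc1 : IntegrableOn (fun a : ℝ => a ^ (n - k - 1) * (1 + a ^ 2) ^ (-((n : ℝ) / 2)))
      (Ioo 0 1) := (hcont1.integrableOn_Icc (a := 0) (b := 1)).mono_set Ioo_subset_Icc_self
  set c1 := ∫ a in Ioo (0 : ℝ) 1, a ^ (n - k - 1) * (1 + a ^ 2) ^ (-((n : ℝ) / 2)) with hc1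
  have hc1pos : 0 < c1 := by
    rw [hc1, setIntegral_pos_iff_support_of_nonneg_ae _ jc1]
    · have : Ioo (0 : ℝ) 1 ⊆ Function.support (fun a : ℝ => a ^ (n - k - 1) *
          (1 + a ^ 2) ^ (-((n : ℝ) / 2))) ∩ Ioo 0 1 := by
        intro a ha
        refine ⟨?_, ha⟩
        have := mul_pos (pow_pos ha.1 (n - k - 1)) (hA0 a)
        exact this.ne'
      refine lt_of_lt_of_le ?_ (measure_mono this)
      simp
    · filter_upwards [ae_restrict_mem measurableSet_Ioo] with a ha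
      exact (mul_pos (pow_pos ha.1 (n - k - 1)) (hA0 a)).le
  -- first relation
  have e6 : ∀ a ∈ Ioo (0 : ℝ) 1, a ^ (n - k - 1) * φ a =
      a ^ (n - k - 1) * (1 + a ^ 2) ^ (-((n : ℝ) / 2)) * t - a ^ (n - k - 1) * ω a -
        a ^ (n - k - 1) * ((a ^ n)⁻¹ * ω a⁻¹) := by
    intro a ha
    have := hφ a ha
    linear_combination (a ^ (n - k - 1)) * this
  have js : IntegrableOn (fun a => a ^ (n - k - 1) * (1 + a ^ 2) ^ (-((n : ℝ) / 2)) * t -
      a ^ (n - k - 1) * ω a) (Ioo 0 1) := (jc1.mul_const t).sub j1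
  have js1 : IntegrableOn (fun a => a ^ (n - k - 1) * (1 + a ^ 2) ^ (-((n : ℝ) / 2)) * t)
      (Ioo 0 1) := jc1.mul_const t
  rw [setIntegral_congr_fun measurableSet_Ioo e6, integral_sub js j4,
    integral_sub js1 j1, integral_mul_const, ← i4, ← hc1] at hpos
  -- second relation
  have hW : ∀ a ∈ Ioi (1 : ℝ), 0 ≤ a ^ (n - k - 1) - a ^ (k - 1) := by
    intro a ha
    have h5 : (1 : ℝ) < a := ha
    have : a ^ (k - 1) ≤ a ^ (n - k - 1) := pow_le_pow_right₀ h5.le (by omega)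
    linarith
  have hcont2 : Continuous (fun a : ℝ => (a ^ (n - k - 1) - a ^ (k - 1)) *
      (1 + a ^ 2) ^ (-((n : ℝ) / 2) - 1)) := by
    refine Continuous.mul (by fun_prop) ?_
    exact Continuous.rpow_const (by fun_prop) fun a => Or.inl (by positivity)
  have jc2 : IntegrableOn (fun a : ℝ => (a ^ (n - k - 1) - a ^ (k - 1)) *
      (1 + a ^ 2) ^ (-((n : ℝ) / 2) - 1)) (Ioi 1) := by
    have hb := integrableOn_Ioi_rpow_of_lt (a := -(2 : ℝ)) (c := 1) (by norm_num) one_pos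
    refine Integrable.mono' hb hcont2.aestronglyMeasurable ?_
    filter_upwards [ae_restrict_mem measurableSet_Ioi] with a ha
    have h5 : (1 : ℝ) < a := ha
    have h0 : (0 : ℝ) < a := by linarith
    have hp := hW a ha
    rw [Real.norm_of_nonneg (by positivity)]
    have e7 : (1 + a ^ 2) ^ (-((n : ℝ) / 2) - 1) ≤ (a ^ 2) ^ (-((n : ℝ) / 2) - 1) := by
      apply Real.rpow_le_rpow_of_nonpos (by positivity) (by linarith)
      have : (0 : ℝ) ≤ n := by positivity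
      linarith
    have e8 : (a ^ 2) ^ (-((n : ℝ) / 2) - 1) = a ^ (-(n : ℝ) - 2) := by
      rw [← Real.rpow_natCast a 2, ← Real.rpow_mul h0.le]; congr 1; push_cast; ring
    have e9 : a ^ (n - k - 1) - a ^ (k - 1) ≤ a ^ n := by
      have h6 : 0 ≤ a ^ (k - 1) := by positivity
      have h7 : a ^ (n - k - 1) ≤ a ^ n := pow_le_pow_right₀ h5.le (by omega)
      linarith
    calc (a ^ (n - k - 1) - a ^ (k - 1)) * (1 + a ^ 2) ^ (-((n : ℝ) / 2) - 1)
        ≤ a ^ n * a ^ (-(n : ℝ) - 2) := by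
          rw [← e8]
          exact mul_le_mul e9 e7 (by positivity) (by positivity)
      _ = a ^ (-(2 : ℝ)) := by
          rw [← Real.rpow_natCast a n, ← Real.rpow_add h0]; congr 1; ring
  set c2 := ∫ a in Ioi (1 : ℝ), (a ^ (n - k - 1) - a ^ (k - 1)) *
      (1 + a ^ 2) ^ (-((n : ℝ) / 2) - 1) with hc2
  have hc2pos : 0 ≤ c2 := by
    refine setIntegral_nonneg measurableSet_Ioi fun a ha => ?_
    have := hW a ha
    positivity
  have k2 : (∫ a in Ioi (1 : ℝ), a ^ (n - k - 1) * ω a) -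
      (∫ a in Ioi (1 : ℝ), a ^ (k - 1) * ω a) ≤ c2 * t := by
    rw [← integral_sub j2 j3, hc2, ← integral_mul_const]
    refine setIntegral_mono_on (j2.sub j3) (jc2.mul_const t) measurableSet_Ioi fun a ha => ?_
    have h5 := hW a ha
    have h6 := hω1 a ha
    calc a ^ (n - k - 1) * ω a - a ^ (k - 1) * ω a = (a ^ (n - k - 1) - a ^ (k - 1)) * ω a := by
          ring
      _ ≤ (a ^ (n - k - 1) - a ^ (k - 1)) * ((1 + a ^ 2) ^ (-((n : ℝ) / 2) - 1) * t) :=
          mul_le_mul_of_nonneg_left h6 h5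
      _ = _ := by ring
  rw [split_int hωi] at hω0
  have hfin : 0 ≤ (c1 + c2) * t := by nlinarith
  exact nonneg_of_mul_nonneg_right hfin (by positivity)

end Pool.Agent.N551.BK
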