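import Mathlib

set_option autoImplicit false

/-! Two-point inequalities (Bonami, Beckner) for real exponents. -/

namespace Pool.Agent.N551.BK

open Real Set

lemma rpow_pair_ge_two {σ x : ℝ} (hσ : σ ≤ 1) (hx0 : 0 < x) (hx1 : x < 1) :
    2 ≤ (1 + x) ^ (σ - 1) + (1 - x) ^ (σ - 1) := by
  have h1 : 0 < 1 + x := by linarith
  have h2 : 0 < 1 - x := by linarith
  have ha : 0 < (1 + x) ^ (σ - 1) := rpow_pos_of_pos h1 _
  have hb : 0 < (1 - x) ^ (σ - 1) := rpow_pos_of_pos h2 _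
  have hab : 1 ≤ (1 + x) ^ (σ - 1) * (1 - x) ^ (σ - 1) := by
    rw [← mul_rpow h1.le h2.le]
    apply one_le_rpow_of_pos_of_le_one_of_nonpos (mul_pos h1 h2) (by nlinarith) (by linarith)
  nlinarith [sq_nonneg ((1 + x) ^ (σ - 1) - (1 - x) ^ (σ - 1))]

lemma diff_ge {σ x : ℝ} (h0 : 0 < σ) (hσ : σ ≤ 1) (hx0 : 0 ≤ x) (hx1 : x ≤ 1) :
    2 * σ * x ≤ (1 + x) ^ σ - (1 - x) ^ σ := by
  have hmono : MonotoneOn (fun x : ℝ => (1 + x) ^ σ - (1 - x) ^ σ - 2 * σ * x) (Icc 0 1) := by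
    apply monotoneOn_of_deriv_nonneg (convex_Icc 0 1)
    · apply ContinuousOn.sub
      · apply ContinuousOn.sub
        · exact (continuousOn_const.add continuousOn_id).rpow_const (fun x _ => Or.inr h0.le)
        · exact (continuousOn_const.sub continuousOn_id).rpow_const (fun x _ => Or.inr h0.le)
      · fun_prop
    · intro y hy
      rw [interior_Icc] at hy
      have h1 : (1 + y) ≠ 0 := by linarith [hy.1]
      have h2 : (1 - y) ≠ 0 := by linarith [hy.2]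
      apply DifferentiableAt.differentiableWithinAt
      have e1 : DifferentiableAt ℝ (fun x : ℝ => (1 + x) ^ σ) y :=
        DifferentiableAt.rpow_const (by fun_prop) (Or.inl h1)
      have e2 : DifferentiableAt ℝ (fun x : ℝ => (1 - x) ^ σ) y :=
        DifferentiableAt.rpow_const (by fun_prop) (Or.inl h2)
      exact (e1.sub e2).sub (by fun_prop)
    · intro y hy
      rw [interior_Icc] at hy
      have h1 : (1 + y) ≠ 0 := by linarith [hy.1]
      have h2 : (1 - y) ≠ 0 := by linarith [hy.2]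
      have d1 : HasDerivAt (fun x : ℝ => (1 + x) ^ σ) (1 * σ * (1 + y) ^ (σ - 1)) y :=
        ((hasDerivAt_id y).const_add 1).rpow_const (Or.inl h1)
      have d2 : HasDerivAt (fun x : ℝ => (1 - x) ^ σ) ((-1) * σ * (1 - y) ^ (σ - 1)) y :=
        ((hasDerivAt_id y).const_sub 1).rpow_const (Or.inl h2)
      have d3 : HasDerivAt (fun x : ℝ => 2 * σ * x) (2 * σ * 1) y :=
        (hasDerivAt_id y).const_mul (2 * σ)
      have d4 := (d1.sub d2).sub d3
      have e : deriv (fun x : ℝ => (1 + x) ^ σ - (1 - x) ^ σ - 2 * σ * x) y =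
        1 * σ * (1 + y) ^ (σ - 1) - (-1) * σ * (1 - y) ^ (σ - 1) - 2 * σ * 1 := d4.deriv
      rw [e]
      have := rpow_pair_ge_two hσ hy.1 hy.2
      nlinarith
  have h := hmono (left_mem_Icc.2 zero_le_one) ⟨hx0, hx1⟩ hx0
  simp only [add_zero, one_rpow, sub_zero, mul_zero] at h
  linarith

lemma sum_ge {s x : ℝ} (h1 : 1 < s) (h2 : s ≤ 2) (hx0 : 0 ≤ x) (hx1 : x ≤ 1) :
    1 + s * (s - 1) / 2 * x ^ 2 ≤ ((1 + x) ^ s + (1 - x) ^ s) / 2 := by
  have hs0 : 0 < s := by linarith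
  have hmono : MonotoneOn
      (fun x : ℝ => ((1 + x) ^ s + (1 - x) ^ s) / 2 - s * (s - 1) / 2 * x ^ 2) (Icc 0 1) := by
    apply monotoneOn_of_deriv_nonneg (convex_Icc 0 1)
    · apply ContinuousOn.sub
      · apply ContinuousOn.div_const
        apply ContinuousOn.add
        · exact (continuousOn_const.add continuousOn_id).rpow_const (fun x _ => Or.inr hs0.le)
        · exact (continuousOn_const.sub continuousOn_id).rpow_const (fun x _ => Or.inr hs0.le)
      · fun_prop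
    · intro y hy
      apply DifferentiableAt.differentiableWithinAt
      have e1 : DifferentiableAt ℝ (fun x : ℝ => (1 + x) ^ s) y :=
        DifferentiableAt.rpow_const (by fun_prop) (Or.inr h1.le)
      have e2 : DifferentiableAt ℝ (fun x : ℝ => (1 - x) ^ s) y :=
        DifferentiableAt.rpow_const (by fun_prop) (Or.inr h1.le)
      exact ((e1.add e2).div_const 2).sub (by fun_prop)
    · intro y hy
      rw [interior_Icc] at hy
      have d1 : HasDerivAt (fun x : ℝ => (1 + x) ^ s) (1 * s * (1 + y) ^ (s - 1)) y :=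
        ((hasDerivAt_id y).const_add 1).rpow_const (Or.inr h1.le)
      have d2 : HasDerivAt (fun x : ℝ => (1 - x) ^ s) ((-1) * s * (1 - y) ^ (s - 1)) y :=
        ((hasDerivAt_id y).const_sub 1).rpow_const (Or.inr h1.le)
      have d3 : HasDerivAt (fun x : ℝ => s * (s - 1) / 2 * x ^ 2)
          (s * (s - 1) / 2 * ((2 : ℕ) * y ^ (2 - 1))) y :=
        (hasDerivAt_pow 2 y).const_mul _
      have d4 := ((d1.add d2).div_const 2).sub d3
      have e : deriv (fun x : ℝ => ((1 + x) ^ s + (1 - x) ^ s) / 2 - s * (s - 1) / 2 * x ^ 2) y =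
        (1 * s * (1 + y) ^ (s - 1) + (-1) * s * (1 - y) ^ (s - 1)) / 2
          - s * (s - 1) / 2 * ((2 : ℕ) * y ^ (2 - 1)) := d4.deriv
      rw [e]
      have := diff_ge (σ := s - 1) (by linarith) (by linarith) hy.1.le hy.2.le
      norm_num
      nlinarith
  have h := hmono (left_mem_Icc.2 zero_le_one) ⟨hx0, hx1⟩ hx0
  simp only [add_zero, one_rpow, sub_zero] at h
  norm_num at h
  linarith

lemma r1_small {s x : ℝ} (h1 : 1 < s) (h2 : s ≤ 2) (hx0 : 0 ≤ x) (hx1 : x ≤ 1) :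
    (1 + (s - 1) * x ^ 2) ^ (s / 2) ≤ ((1 + x) ^ s + (1 - x) ^ s) / 2 := by
  have hB := rpow_one_add_le_one_add_mul_self (s := (s - 1) * x ^ 2)
    (by nlinarith [sq_nonneg x]) (p := s / 2) (by linarith) (by linarith)
  have := sum_ge h1 h2 hx0 hx1
  nlinarith

/-- Bonami's two-point inequality. -/
theorem r1 {s : ℝ} (h1 : 1 < s) (h2 : s ≤ 2) (x : ℝ) :
    (1 + (s - 1) * x ^ 2) ^ (s / 2) ≤ (|1 + x| ^ s + |1 - x| ^ s) / 2 := by
  wlog hx : 0 ≤ x generalizing x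
  · have := this (-x) (by linarith)
    rw [neg_sq, ← sub_eq_add_neg, sub_neg_eq_add] at this
    linarith
  by_cases hx1 : x ≤ 1
  · rw [abs_of_nonneg (by linarith : (0:ℝ) ≤ 1 + x), abs_of_nonneg (by linarith : (0:ℝ) ≤ 1 - x)]
    exact r1_small h1 h2 hx hx1
  · push Not at hx1
    have hx0 : 0 < x := by linarith
    have h := r1_small (x := 1 / x) h1 h2 (by positivity) (by rw [div_le_one hx0]; exact hx1.le)
    rw [abs_of_nonneg (by linarith : (0:ℝ) ≤ 1 + x), abs_of_nonpos (by linarith : 1 - x ≤ (0:ℝ))]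
    have e1 : (1 + x) ^ s = x ^ s * (1 + 1 / x) ^ s := by
      rw [← mul_rpow hx0.le (by positivity)]
      congr 1; field_simp; ring
    have e2 : (-(1 - x)) ^ s = x ^ s * (1 - 1 / x) ^ s := by
      rw [← mul_rpow hx0.le (by rw [sub_nonneg, div_le_one hx0]; exact hx1.le)]
      congr 1; field_simp; ring
    rw [e1, e2]
    have e3 : (1 + (s - 1) * x ^ 2) ^ (s / 2) ≤ x ^ s * (1 + (s - 1) * (1 / x) ^ 2) ^ (s / 2) := by
      have e4 : x ^ s = (x ^ 2) ^ (s / 2) := by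
        rw [← rpow_natCast, ← rpow_mul hx0.le]
        congr 1; push_cast; ring
      rw [e4, ← mul_rpow (by positivity) (by nlinarith [sq_nonneg (1 / x)])]
      apply rpow_le_rpow (by nlinarith [sq_nonneg x]) _ (by linarith)
      have e5 : x ^ 2 * (1 + (s - 1) * (1 / x) ^ 2) = x ^ 2 + (s - 1) := by
        field_simp
      rw [e5]
      have : 1 ≤ x ^ 2 := by nlinarith
      nlinarith
    have hxs : 0 < x ^ s := rpow_pos_of_pos hx0 _
    calc _ ≤ _ := e3
      _ ≤ x ^ s * (((1 + 1 / x) ^ s + (1 - 1 / x) ^ s) / 2) := by gcongr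
      _ = _ := by ring

/-- homogeneous form of `r1` -/
theorem r1' {s : ℝ} (h1 : 1 < s) (h2 : s ≤ 2) (a b : ℝ) :
    (a ^ 2 + (s - 1) * b ^ 2) ^ (s / 2) ≤ (|a + b| ^ s + |a - b| ^ s) / 2 := by
  by_cases ha : a = 0
  · subst ha
    have e : ((s - 1) * b ^ 2) ^ (s / 2) ≤ (b ^ 2) ^ (s / 2) :=
      rpow_le_rpow (by nlinarith [sq_nonneg b]) (by nlinarith [sq_nonneg b]) (by linarith)
    have e4 : (b ^ 2) ^ (s / 2) = |b| ^ s := by
      rw [← sq_abs, ← rpow_natCast, ← rpow_mul (abs_nonneg b)]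
      congr 1; push_cast; ring
    simp only [zero_add, zero_sub, abs_neg]
    norm_num
    rw [e4] at e
    exact e
  · have ha' : 0 < |a| := abs_pos.2 ha
    have h := r1 h1 h2 (b / a)
    have e4 : |a| ^ s = (a ^ 2) ^ (s / 2) := by
      rw [← sq_abs, ← rpow_natCast, ← rpow_mul (abs_nonneg a)]
      congr 1; push_cast; ring
    have e1 : |a + b| ^ s = |a| ^ s * |1 + b / a| ^ s := by
      rw [← mul_rpow ha'.le (abs_nonneg _), ← abs_mul]
      congr 2; field_simp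
    have e2 : |a - b| ^ s = |a| ^ s * |1 - b / a| ^ s := by
      rw [← mul_rpow ha'.le (abs_nonneg _), ← abs_mul]
      congr 2; field_simp
    have e3 : (a ^ 2 + (s - 1) * b ^ 2) ^ (s / 2) =
        |a| ^ s * (1 + (s - 1) * (b / a) ^ 2) ^ (s / 2) := by
      rw [e4, ← mul_rpow (by positivity) (by nlinarith [sq_nonneg (b / a)])]
      congr 1; field_simp
    rw [e1, e2, e3]
    have hxs : 0 < |a| ^ s := rpow_pos_of_pos ha' _
    calc _ ≤ |a| ^ s * ((|1 + b / a| ^ s + |1 - b / a| ^ s) / 2) := by gcongr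
      _ = _ := by ring

/-- the dual two-point inequality -/
theorem r2' {s q l : ℝ} (h1 : 1 < s) (h2 : s ≤ 2) (hq : q = s / (s - 1)) (hl : l ^ 2 = s - 1)
    (a b : ℝ) :
    (|a + l * b| ^ q + |a - l * b| ^ q) / 2 ≤ (a ^ 2 + b ^ 2) ^ (q / 2) := by
  have hs1 : 0 < s - 1 := by linarith
  have hq1 : 0 < q := by rw [hq]; positivity
  have hqs : (q - 1) * s = q := by rw [hq]; field_simp; ring
  have hq1' : 0 < q - 1 := by
    have : (q - 1) = q / s := by field_simp; linarith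
    rw [this]; positivity
  set u := a + l * b with hu
  set v := a - l * b with hv
  set N := (|u| ^ q + |v| ^ q) / 2 with hN
  have hN0 : 0 ≤ N := by positivity
  obtain ⟨g, hg1, hg2⟩ : ∃ g : ℝ, u * g = |u| ^ q ∧ |g| = |u| ^ (q - 1) := by
    by_cases h : u = 0
    · exact ⟨0, by rw [h, abs_zero, zero_rpow hq1.ne']; ring,
        by rw [h, abs_zero, zero_rpow hq1'.ne']⟩
    · refine ⟨u * |u| ^ (q - 2), ?_, ?_⟩
      · have hu0 : 0 < |u| := abs_pos.2 h
        have e : |u| ^ q = |u| ^ (2 : ℝ) * |u| ^ (q - 2) := by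
          rw [← rpow_add hu0]; congr 1; ring
        rw [e, rpow_two, sq_abs]; ring
      · have hu0 : 0 < |u| := abs_pos.2 h
        rw [abs_mul, abs_of_pos (rpow_pos_of_pos hu0 _)]
        nth_rewrite 1 [← rpow_one |u|]
        rw [← rpow_add hu0]; congr 1; ring
  obtain ⟨g', hg1', hg2'⟩ : ∃ g : ℝ, v * g = |v| ^ q ∧ |g| = |v| ^ (q - 1) := by
    by_cases h : v = 0
    · exact ⟨0, by rw [h, abs_zero, zero_rpow hq1.ne']; ring,
        by rw [h, abs_zero, zero_rpow hq1'.ne']⟩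
    · refine ⟨v * |v| ^ (q - 2), ?_, ?_⟩
      · have hu0 : 0 < |v| := abs_pos.2 h
        have e : |v| ^ q = |v| ^ (2 : ℝ) * |v| ^ (q - 2) := by
          rw [← rpow_add hu0]; congr 1; ring
        rw [e, rpow_two, sq_abs]; ring
      · have hu0 : 0 < |v| := abs_pos.2 h
        rw [abs_mul, abs_of_pos (rpow_pos_of_pos hu0 _)]
        nth_rewrite 1 [← rpow_one |v|]
        rw [← rpow_add hu0]; congr 1; ring
  have hR := r1' h1 h2 ((g + g') / 2) ((g - g') / 2)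
  have e1 : (g + g') / 2 + (g - g') / 2 = g := by ring
  have e2 : (g + g') / 2 - (g - g') / 2 = g' := by ring
  rw [e1, e2, hg2, hg2', ← rpow_mul (abs_nonneg _), ← rpow_mul (abs_nonneg _), hqs] at hR
  rw [← hN] at hR
  -- N = a A + l b B
  have hNe : N = a * ((g + g') / 2) + b * (l * ((g - g') / 2)) := by
    rw [hN, ← hg1, ← hg1', hu, hv]; ring
  set A := (g + g') / 2
  set B := (g - g') / 2
  have hCS : N ^ 2 ≤ (a ^ 2 + b ^ 2) * (A ^ 2 + (s - 1) * B ^ 2) := by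
    rw [hNe, ← hl]
    nlinarith [sq_nonneg (a * (l * B) - b * A)]
  by_cases hN00 : N = 0
  · rw [hN00]; positivity
  have hNp : 0 < N := lt_of_le_of_ne hN0 (Ne.symm hN00)
  have hAB : 0 ≤ A ^ 2 + (s - 1) * B ^ 2 := by positivity
  -- A^2+(s-1)B^2 ≤ N^(2/s)
  have h3 : A ^ 2 + (s - 1) * B ^ 2 ≤ N ^ (2 / s) := by
    have := rpow_le_rpow (by positivity) hR (show 0 ≤ 2 / s by positivity)
    rw [← rpow_mul hAB] at this
    have e : s / 2 * (2 / s) = 1 := by field_simp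
    rwa [e, rpow_one] at this
  have h4 : N ^ (2 / q) ≤ a ^ 2 + b ^ 2 := by
    have h5 : N ^ 2 ≤ (a ^ 2 + b ^ 2) * N ^ (2 / s) := hCS.trans (by gcongr)
    have h6 : N ^ (2 / q) * N ^ (2 / s) = N ^ 2 := by
      rw [← rpow_add hNp, ← rpow_natCast]
      congr 1
      rw [hq]; field_simp; push_cast; ring
    rw [← h6] at h5
    exact le_of_mul_le_mul_right h5 (rpow_pos_of_pos hNp _)
  have h7 := rpow_le_rpow (by positivity) h4 (show 0 ≤ q / 2 by positivity)
  rw [← rpow_mul hN0] at h7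
  have e : 2 / q * (q / 2) = 1 := by field_simp
  rwa [e, rpow_one] at h7

/-- symmetric sums of a convex function -/
lemma conv_sum {φ : ℝ → ℝ} {S : Set ℝ} (hφ : ConvexOn ℝ S φ) {u z θ : ℝ} (h0 : 0 ≤ θ) (h1 : θ ≤ 1)
    (ha : u + z ∈ S) (hb : u - z ∈ S) :
    φ (u + θ * z) + φ (u - θ * z) ≤ φ (u + z) + φ (u - z) := by
  have e1 := hφ.2 ha hb (show 0 ≤ (1 + θ) / 2 by linarith) (show 0 ≤ (1 - θ) / 2 by linarith)
    (by ring)
  have e2 := hφ.2 ha hb (show 0 ≤ (1 - θ) / 2 by linarith) (show 0 ≤ (1 + θ) / 2 by linarith)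
    (by ring)
  have f1 : ((1 + θ) / 2) • (u + z) + ((1 - θ) / 2) • (u - z) = u + θ * z := by
    simp only [smul_eq_mul]; ring
  have f2 : ((1 - θ) / 2) • (u + z) + ((1 + θ) / 2) • (u - z) = u - θ * z := by
    simp only [smul_eq_mul]; ring
  rw [f1] at e1
  rw [f2] at e2
  simp only [smul_eq_mul] at e1 e2
  linarith

lemma conc_sum {φ : ℝ → ℝ} {S : Set ℝ} (hφ : ConcaveOn ℝ S φ) {u z θ : ℝ} (h0 : 0 ≤ θ) (h1 : θ ≤ 1)
    (ha : u + z ∈ S) (hb : u - z ∈ S) :
    φ (u + z) + φ (u - z) ≤ φ (u + θ * z) + φ (u - θ * z) := by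
  have h := conv_sum hφ.neg h0 h1 ha hb
  simp only [Pi.neg_apply] at h
  linarith

lemma abs_rpow_sq (c q : ℝ) : |c| ^ q = (c ^ 2) ^ (q / 2) := by
  rw [← sq_abs, ← rpow_natCast, ← rpow_mul (abs_nonneg c)]
  congr 1; push_cast; ring

/-- upper half of the complex two-point inequality -/
theorem c_up {s q l : ℝ} (h1 : 1 < s) (h2 : s ≤ 2) (hq : q = s / (s - 1)) (hl : l ^ 2 = s - 1)
    (x y : ℝ) :
    (((1 - l * y) ^ 2 + l ^ 2 * x ^ 2) ^ (q / 2) + ((1 + l * y) ^ 2 + l ^ 2 * x ^ 2) ^ (q / 2)) / 2 ≤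
      (1 + y ^ 2 + l ^ 2 * x ^ 2) ^ (q / 2) := by
  have hs1 : 0 < s - 1 := by linarith
  have hq2 : 2 ≤ q := by rw [hq, le_div_iff₀ hs1]; linarith
  set c := √(1 + l ^ 2 * x ^ 2) with hc
  have hc2 : c ^ 2 = 1 + l ^ 2 * x ^ 2 := sq_sqrt (by positivity)
  have hc1 : 1 ≤ c := by
    rw [hc, one_le_sqrt]; nlinarith [mul_nonneg (sq_nonneg l) (sq_nonneg x)]
  have hc0 : 0 < c := by linarith
  have hconv : ConvexOn ℝ (Ici 0) (fun z : ℝ => z ^ (q / 2)) := convexOn_rpow (by linarith)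
  set u := c ^ 2 + l ^ 2 * y ^ 2 with hu
  have k1 : u + 2 * c * (l * y) = (c + l * y) ^ 2 := by rw [hu]; ring
  have k2 : u - 2 * c * (l * y) = (c - l * y) ^ 2 := by rw [hu]; ring
  have h := conv_sum hconv (u := u) (z := 2 * c * (l * y)) (θ := 1 / c) (by positivity)
    (by rw [div_le_one hc0]; exact hc1) (by rw [k1]; exact mem_Ici.2 (sq_nonneg _))
    (by rw [k2]; exact mem_Ici.2 (sq_nonneg _))
  have k3 : 1 / c * (2 * c * (l * y)) = 2 * (l * y) := by field_simp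
  rw [k3, k1, k2] at h
  have k4 : (1 - l * y) ^ 2 + l ^ 2 * x ^ 2 = u - 2 * (l * y) := by rw [hu, hc2]; ring
  have k5 : (1 + l * y) ^ 2 + l ^ 2 * x ^ 2 = u + 2 * (l * y) := by rw [hu, hc2]; ring
  have h3 := r2' h1 h2 hq hl c y
  rw [abs_rpow_sq, abs_rpow_sq] at h3
  rw [k4, k5]
  have k6 : 1 + y ^ 2 + l ^ 2 * x ^ 2 = c ^ 2 + y ^ 2 := by rw [hc2]; ring
  rw [k6]
  linarith

/-- lower half of the complex two-point inequality -/
theorem c_low {s : ℝ} (h1 : 1 < s) (h2 : s ≤ 2) (x y : ℝ) :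
    (1 + y ^ 2 + (s - 1) * x ^ 2) ^ (s / 2) ≤
      (((1 + x) ^ 2 + y ^ 2) ^ (s / 2) + ((1 - x) ^ 2 + y ^ 2) ^ (s / 2)) / 2 := by
  set c := √(1 + y ^ 2) with hc
  have hc2 : c ^ 2 = 1 + y ^ 2 := sq_sqrt (by positivity)
  have hc1 : 1 ≤ c := by
    rw [hc, one_le_sqrt]; nlinarith [sq_nonneg y]
  have hc0 : 0 < c := by linarith
  have hconc : ConcaveOn ℝ (Ici 0) (fun z : ℝ => z ^ (s / 2)) :=
    Real.concaveOn_rpow (by linarith) (by linarith)
  set u := c ^ 2 + x ^ 2 with hu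
  have k1 : u + 2 * c * x = (c + x) ^ 2 := by rw [hu]; ring
  have k2 : u - 2 * c * x = (c - x) ^ 2 := by rw [hu]; ring
  have h := conc_sum hconc (u := u) (z := 2 * c * x) (θ := 1 / c) (by positivity)
    (by rw [div_le_one hc0]; exact hc1) (by rw [k1]; exact mem_Ici.2 (sq_nonneg _))
    (by rw [k2]; exact mem_Ici.2 (sq_nonneg _))
  have k3 : 1 / c * (2 * c * x) = 2 * x := by field_simp
  rw [k3, k1, k2] at h
  have k4 : (1 - x) ^ 2 + y ^ 2 = u - 2 * x := by rw [hu, hc2]; ring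
  have k5 : (1 + x) ^ 2 + y ^ 2 = u + 2 * x := by rw [hu, hc2]; ring
  have h3 := r1' h1 h2 c x
  rw [abs_rpow_sq, abs_rpow_sq] at h3
  rw [k4, k5]
  have k6 : 1 + y ^ 2 + (s - 1) * x ^ 2 = c ^ 2 + (s - 1) * x ^ 2 := by rw [hc2]
  rw [k6]
  linarith

lemma norm_rpow (z : ℂ) (q : ℝ) : ‖z‖ ^ q = (z.re ^ 2 + z.im ^ 2) ^ (q / 2) := by
  have h : ‖z‖ ^ 2 = z.re ^ 2 + z.im ^ 2 := by
    rw [← Complex.normSq_eq_norm_sq, Complex.normSq_apply]; ring
  rw [← h, ← rpow_natCast, ← rpow_mul (norm_nonneg z)]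
  congr 1; push_cast; ring

/-- **Beckner's two-point inequality.** -/
theorem two_point {s q l : ℝ} (h1 : 1 < s) (h2 : s ≤ 2) (hq : q = s / (s - 1))
    (hl : l ^ 2 = s - 1) (a b : ℂ) :
    (‖a + Complex.I * l * b‖ ^ q + ‖a - Complex.I * l * b‖ ^ q) / 2 ≤
      ((‖a + b‖ ^ s + ‖a - b‖ ^ s) / 2) ^ (q / s) := by
  have hs1 : 0 < s - 1 := by linarith
  have hs0 : 0 < s := by linarith
  have hq2 : 2 ≤ q := by rw [hq, le_div_iff₀ hs1]; linarith
  have hq0 : 0 < q := by linarith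
  by_cases ha : a = 0
  · subst ha
    simp only [zero_add, zero_sub, norm_neg]
    have e1 : ‖Complex.I * l * b‖ ≤ ‖b‖ := by
      rw [norm_mul, norm_mul, Complex.norm_I, one_mul, Complex.norm_real, Real.norm_eq_abs]
      have : |l| ≤ 1 := by
        rw [← sq_le_one_iff_abs_le_one, hl]; linarith
      exact mul_le_of_le_one_left (norm_nonneg _) this
    have e2 : (‖b‖ ^ s + ‖b‖ ^ s) / 2 = ‖b‖ ^ s := by ring
    have e3 : (‖Complex.I * l * b‖ ^ q + ‖Complex.I * l * b‖ ^ q) / 2 =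
      ‖Complex.I * l * b‖ ^ q := by ring
    rw [e2, e3, ← rpow_mul (norm_nonneg _)]
    have e4 : s * (q / s) = q := by field_simp
    rw [e4]
    exact rpow_le_rpow (norm_nonneg _) e1 hq0.le
  · set w := b / a with hw
    have hb : b = a * w := by rw [hw]; field_simp
    have ha' : 0 < ‖a‖ := norm_pos_iff.2 ha
    have f1 : a + Complex.I * l * b = a * (1 + Complex.I * l * w) := by rw [hb]; ring
    have f2 : a - Complex.I * l * b = a * (1 - Complex.I * l * w) := by rw [hb]; ring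
    have f3 : a + b = a * (1 + w) := by rw [hb]; ring
    have f4 : a - b = a * (1 - w) := by rw [hb]; ring
    rw [f1, f2, f3, f4, norm_mul, norm_mul, norm_mul, norm_mul,
      mul_rpow ha'.le (norm_nonneg _), mul_rpow ha'.le (norm_nonneg _),
      mul_rpow ha'.le (norm_nonneg _), mul_rpow ha'.le (norm_nonneg _)]
    have g1 : (‖a‖ ^ s * ‖1 + w‖ ^ s + ‖a‖ ^ s * ‖1 - w‖ ^ s) / 2 =
      ‖a‖ ^ s * ((‖1 + w‖ ^ s + ‖1 - w‖ ^ s) / 2) := by ring
    have g2 : (‖a‖ ^ q * ‖1 + Complex.I * l * w‖ ^ q + ‖a‖ ^ q * ‖1 - Complex.I * l * w‖ ^ q) / 2 =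
      ‖a‖ ^ q * ((‖1 + Complex.I * l * w‖ ^ q + ‖1 - Complex.I * l * w‖ ^ q) / 2) := by ring
    rw [g1, g2, mul_rpow (by positivity) (by positivity), ← rpow_mul ha'.le]
    have e4 : s * (q / s) = q := by field_simp
    rw [e4]
    refine mul_le_mul_of_nonneg_left ?_ (by positivity)
    set x := w.re
    set y := w.im
    have n1 : ‖1 + Complex.I * l * w‖ ^ q = ((1 - l * y) ^ 2 + l ^ 2 * x ^ 2) ^ (q / 2) := by
      rw [norm_rpow]
      congr 1
      simp [x, y]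
      ring
    have n2 : ‖1 - Complex.I * l * w‖ ^ q = ((1 + l * y) ^ 2 + l ^ 2 * x ^ 2) ^ (q / 2) := by
      rw [norm_rpow]
      congr 1
      simp [x, y]
      ring
    have n3 : ‖1 + w‖ ^ s = ((1 + x) ^ 2 + y ^ 2) ^ (s / 2) := by
      rw [norm_rpow]
      congr 1
      simp [x, y]
    have n4 : ‖1 - w‖ ^ s = ((1 - x) ^ 2 + y ^ 2) ^ (s / 2) := by
      rw [norm_rpow]
      congr 1
      simp [x, y]
    rw [n1, n2, n3, n4]
    have u1 := c_up h1 h2 hq hl x y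
    have u2 := c_low h1 h2 x y
    rw [hl] at u1 ⊢
    refine u1.trans ?_
    have u3 := rpow_le_rpow (by positivity) u2 (show 0 ≤ q / s by positivity)
    rw [← rpow_mul (by positivity)] at u3
    have e5 : s / 2 * (q / s) = q / 2 := by field_simp
    rwa [e5] at u3

end Pool.Agent.N551.BK
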