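import Mathlib
import Pool.Agent.N551.BK.Two

set_option autoImplicit false

/-! Beckner's inequality on the cube, by tensorisation. -/

namespace Pool.Agent.N551.BK

open Real Finset

lemma mink2 {P : ℝ} (hP : 1 ≤ P) {a b c d : ℝ} (ha : 0 ≤ a) (hb : 0 ≤ b) (hc : 0 ≤ c)
    (hd : 0 ≤ d) :
    ((a + c) ^ P + (b + d) ^ P) ^ (1 / P) ≤ (a ^ P + b ^ P) ^ (1 / P) + (c ^ P + d ^ P) ^ (1 / P) := by
  have h := Real.Lp_add_le_of_nonneg (s := (Finset.univ : Finset (Fin 2)))
    (f := ![a, b]) (g := ![c, d]) hP (by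
      intro i _
      fin_cases i <;> simp [ha, hb]) (by
      intro i _
      fin_cases i <;> simp [hc, hd])
  simpa [Fin.sum_univ_two] using h

lemma mink {P : ℝ} (hP : 1 ≤ P) {E : Type*} (S : Finset E) (u v : E → ℝ) (hu : ∀ e, 0 ≤ u e)
    (hv : ∀ e, 0 ≤ v e) :
    ((∑ e ∈ S, u e) ^ P + (∑ e ∈ S, v e) ^ P) ^ (1 / P) ≤ ∑ e ∈ S, (u e ^ P + v e ^ P) ^ (1 / P) := by
  classical
  induction S using Finset.induction_on with
  | empty =>
    have : P ≠ 0 := by linarith
    simp [Real.zero_rpow this, Real.zero_rpow (inv_ne_zero this)]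
  | insert x S hx ih =>
    rw [Finset.sum_insert hx, Finset.sum_insert hx, Finset.sum_insert hx]
    refine (mink2 hP (hu x) (hv x) (Finset.sum_nonneg fun e _ => hu e)
      (Finset.sum_nonneg fun e _ => hv e)).trans ?_
    linarith

/-- the sign of a bit -/
noncomputable def sg (b : Bool) : ℂ := if b then 1 else -1

@[simp] lemma sg_true : sg true = 1 := rfl
@[simp] lemma sg_false : sg false = -1 := rfl

lemma sum_cons {N : ℕ} (F : (Fin (N + 1) → Bool) → ℝ) :
    ∑ ε, F ε = (∑ ε : Fin N → Bool, F (Fin.cons true ε)) + ∑ ε : Fin N → Bool, F (Fin.cons false ε) := by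
  rw [← (Fin.consEquiv (fun _ : Fin (N + 1) => Bool)).sum_comp F, Fintype.sum_prod_type]
  simp only [Fin.consEquiv, Equiv.coe_fn_mk, Fintype.sum_bool]

/-- **Beckner's inequality on the cube.** -/
theorem cube {s q l : ℝ} (h1 : 1 < s) (h2 : s ≤ 2) (hq : q = s / (s - 1)) (hl : l ^ 2 = s - 1)
    {J : Type*} [Fintype J] : ∀ (N : ℕ) (c : J → ℂ) (α β : J → Fin N → ℂ),
    (∑ ε : Fin N → Bool, ‖∑ j, c j * ∏ i, (α j i + Complex.I * l * sg (ε i) * β j i)‖ ^ q) / 2 ^ N ≤
      ((∑ ε : Fin N → Bool, ‖∑ j, c j * ∏ i, (α j i + sg (ε i) * β j i)‖ ^ s) / 2 ^ N) ^ (q / s) := by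
  have hs1 : 0 < s - 1 := by linarith
  have hs0 : 0 < s := by linarith
  have hq2 : 2 ≤ q := by rw [hq, le_div_iff₀ hs1]; linarith
  have hq0 : 0 < q := by linarith
  have hP : 1 ≤ q / s := by rw [one_le_div hs0]; linarith
  have hP0 : 0 < q / s := by positivity
  intro N
  induction N with
  | zero =>
    intro c α β
    simp only [Finset.univ_eq_empty, Finset.prod_empty, mul_one, Finset.univ_unique,
      Finset.sum_singleton, pow_zero, div_one]
    rw [← Real.rpow_mul (norm_nonneg _)]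
    have : s * (q / s) = q := by field_simp
    rw [this]
  | succ N ih =>
    intro c α β
    set A : (Fin N → Bool) → ℂ := fun ε =>
      ∑ j, c j * (α j 0) * ∏ i : Fin N, (α j i.succ + sg (ε i) * β j i.succ) with hA
    set B : (Fin N → Bool) → ℂ := fun ε =>
      ∑ j, c j * (β j 0) * ∏ i : Fin N, (α j i.succ + sg (ε i) * β j i.succ) with hB
    -- first coordinate
    have e1 : ∀ (b : Bool) (ε : Fin N → Bool),
        (∑ j, c j * ∏ i, (α j i + sg ((Fin.cons b ε : Fin (N + 1) → Bool) i) * β j i)) =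
          A ε + sg b * B ε := by
      intro b ε
      rw [hA, hB]
      simp only [Fin.prod_univ_succ, Fin.cons_zero, Fin.cons_succ]
      rw [Finset.mul_sum, ← Finset.sum_add_distrib]
      refine Finset.sum_congr rfl fun j _ => ?_
      ring
    have e2 : ∀ (b : Bool) (ε : Fin N → Bool),
        (∑ j, c j * ∏ i, (α j i +
          Complex.I * l * sg ((Fin.cons b ε : Fin (N + 1) → Bool) i) * β j i)) =
          ∑ j, (c j * (α j 0 + Complex.I * l * sg b * β j 0)) *
            ∏ i : Fin N, (α j i.succ + Complex.I * l * sg (ε i) * β j i.succ) := by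
      intro b ε
      simp only [Fin.prod_univ_succ, Fin.cons_zero, Fin.cons_succ]
      refine Finset.sum_congr rfl fun j _ => ?_
      ring
    have e3 : ∀ (b : Bool) (ε : Fin N → Bool),
        (∑ j, (c j * (α j 0 + Complex.I * l * sg b * β j 0)) *
            ∏ i : Fin N, (α j i.succ + sg (ε i) * β j i.succ)) =
          A ε + Complex.I * l * sg b * B ε := by
      intro b ε
      rw [hA, hB]
      simp only
      rw [Finset.mul_sum, ← Finset.sum_add_distrib]
      refine Finset.sum_congr rfl fun j _ => ?_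
      ring
    rw [sum_cons, sum_cons]
    simp only [e1, e2]
    have i1 := ih (fun j => c j * (α j 0 + Complex.I * l * sg true * β j 0))
      (fun j i => α j i.succ) (fun j i => β j i.succ)
    have i2 := ih (fun j => c j * (α j 0 + Complex.I * l * sg false * β j 0))
      (fun j i => α j i.succ) (fun j i => β j i.succ)
    simp only [e3] at i1 i2
    set K : ℝ := 2 ^ N with hK
    have hK0 : 0 < K := by positivity
    set X1 := ∑ ε : Fin N → Bool, ‖A ε + Complex.I * l * sg true * B ε‖ ^ s with hX1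
    set X2 := ∑ ε : Fin N → Bool, ‖A ε + Complex.I * l * sg false * B ε‖ ^ s with hX2
    have hX1' : 0 ≤ X1 := Finset.sum_nonneg fun _ _ => by positivity
    have hX2' : 0 ≤ X2 := Finset.sum_nonneg fun _ _ => by positivity
    set Y := ∑ ε : Fin N → Bool, (‖A ε + B ε‖ ^ s + ‖A ε - B ε‖ ^ s) / 2 with hY
    have hY0 : 0 ≤ Y := Finset.sum_nonneg fun _ _ => by positivity
    -- Minkowski
    have m1 := mink hP (Finset.univ : Finset (Fin N → Bool))
      (fun ε => ‖A ε + Complex.I * l * sg true * B ε‖ ^ s)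
      (fun ε => ‖A ε + Complex.I * l * sg false * B ε‖ ^ s) (fun ε => by positivity)
      (fun ε => by positivity)
    rw [← hX1, ← hX2] at m1
    have m2 : ∀ ε : Fin N → Bool, ((‖A ε + Complex.I * l * sg true * B ε‖ ^ s) ^ (q / s) +
        (‖A ε + Complex.I * l * sg false * B ε‖ ^ s) ^ (q / s)) ^ (1 / (q / s)) ≤
        2 ^ (1 / (q / s)) * ((‖A ε + B ε‖ ^ s + ‖A ε - B ε‖ ^ s) / 2) := by
      intro ε
      rw [← Real.rpow_mul (norm_nonneg _), ← Real.rpow_mul (norm_nonneg _)]
      have e4 : s * (q / s) = q := by field_simp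
      rw [e4]
      have tp := two_point h1 h2 hq hl (A ε) (B ε)
      have e5 : A ε + Complex.I * l * sg true * B ε = A ε + Complex.I * l * B ε := by
        rw [sg_true]; ring
      have e6 : A ε + Complex.I * l * sg false * B ε = A ε - Complex.I * l * B ε := by
        rw [sg_false]; ring
      rw [e5, e6]
      have tp2 : ‖A ε + Complex.I * l * B ε‖ ^ q + ‖A ε - Complex.I * l * B ε‖ ^ q ≤
          2 * ((‖A ε + B ε‖ ^ s + ‖A ε - B ε‖ ^ s) / 2) ^ (q / s) := by linarith
      have tp3 := Real.rpow_le_rpow (by positivity) tp2 (show 0 ≤ 1 / (q / s) by positivity)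
      rw [Real.mul_rpow (by norm_num) (by positivity), ← Real.rpow_mul (by positivity)] at tp3
      have e7 : q / s * (1 / (q / s)) = 1 := by field_simp
      rwa [e7, Real.rpow_one] at tp3
    have m3 : (X1 ^ (q / s) + X2 ^ (q / s)) ^ (1 / (q / s)) ≤ 2 ^ (1 / (q / s)) * Y := by
      refine m1.trans ?_
      rw [hY, Finset.mul_sum]
      exact Finset.sum_le_sum fun ε _ => m2 ε
    have m4 : X1 ^ (q / s) + X2 ^ (q / s) ≤ 2 * Y ^ (q / s) := by
      have := Real.rpow_le_rpow (by positivity) m3 hP0.le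
      rw [← Real.rpow_mul (by positivity), Real.mul_rpow (by positivity) hY0,
        ← Real.rpow_mul (by norm_num)] at this
      have e7 : 1 / (q / s) * (q / s) = 1 := by field_simp
      rwa [e7, Real.rpow_one, Real.rpow_one] at this
    have e8 : (∑ ε : Fin N → Bool, ‖A ε + sg true * B ε‖ ^ s +
        ∑ ε : Fin N → Bool, ‖A ε + sg false * B ε‖ ^ s) / 2 ^ (N + 1) = Y / K := by
      rw [hY, ← Finset.sum_div, Finset.sum_add_distrib, hK, pow_succ]
      simp only [sg_true, sg_false, one_mul, neg_mul, ← sub_eq_add_neg]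
      field_simp
    rw [e8]
    have e9 : ∀ U V : ℝ, (U + V) / 2 ^ (N + 1) = (U / K + V / K) / 2 := by
      intro U V
      rw [hK, pow_succ]
      field_simp
    rw [e9]
    calc _ ≤ ((X1 / K) ^ (q / s) + (X2 / K) ^ (q / s)) / 2 := by linarith
      _ = (X1 ^ (q / s) + X2 ^ (q / s)) / 2 / K ^ (q / s) := by
          rw [Real.div_rpow hX1' hK0.le, Real.div_rpow hX2' hK0.le]
          ring
      _ ≤ Y ^ (q / s) / K ^ (q / s) := by
          gcongr
          linarith
      _ = (Y / K) ^ (q / s) := by rw [Real.div_rpow hY0 hK0.le]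

/-- the same with an arbitrary finite set of coordinates -/
theorem cube' {s q l : ℝ} (h1 : 1 < s) (h2 : s ≤ 2) (hq : q = s / (s - 1)) (hl : l ^ 2 = s - 1)
    {J : Type*} [Fintype J] {ι : Type*} [Fintype ι] [DecidableEq ι] (c : J → ℂ) (α β : J → ι → ℂ) :
    (∑ ε : ι → Bool, ‖∑ j, c j * ∏ i, (α j i + Complex.I * l * sg (ε i) * β j i)‖ ^ q) /
        2 ^ Fintype.card ι ≤
      ((∑ ε : ι → Bool, ‖∑ j, c j * ∏ i, (α j i + sg (ε i) * β j i)‖ ^ s) /
        2 ^ Fintype.card ι) ^ (q / s) := by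
  classical
  set e := Fintype.equivFin ι with he
  have h := cube h1 h2 hq hl (Fintype.card ι) c (fun j i => α j (e.symm i))
    (fun j i => β j (e.symm i))
  have r1 : ∀ F : (ι → Bool) → ℝ, ∑ ε : ι → Bool, F ε =
      ∑ ε : Fin (Fintype.card ι) → Bool, F (fun i => ε (e i)) := by
    intro F
    rw [← (Equiv.arrowCongr e (Equiv.refl Bool)).symm.sum_comp F]
    rfl
  have r2 : ∀ (w : Fin (Fintype.card ι) → ℂ), ∏ i : ι, w (e i) = ∏ i, w i := fun w =>
    e.prod_comp w
  rw [r1, r1]
  have t1 : ∀ (ε : Fin (Fintype.card ι) → Bool) (j : J),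
      ∏ i : ι, (α j i + Complex.I * l * sg (ε (e i)) * β j i) =
      ∏ i, (α j (e.symm i) + Complex.I * l * sg (ε i) * β j (e.symm i)) := by
    intro ε j
    rw [← r2]
    simp only [Equiv.symm_apply_apply]
  have t2 : ∀ (ε : Fin (Fintype.card ι) → Bool) (j : J),
      ∏ i : ι, (α j i + sg (ε (e i)) * β j i) =
      ∏ i, (α j (e.symm i) + sg (ε i) * β j (e.symm i)) := by
    intro ε j
    rw [← r2]
    simp only [Equiv.symm_apply_apply]
  simp only [t1, t2]
  exact h

end Pool.Agent.N551.BK
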