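import Mathlib
import Pool.Agent.N551.BK.Cube

set_option autoImplicit false

/-! The law of normalised sums of random signs, and its limit. -/

namespace Pool.Agent.N551.BK

open MeasureTheory Filter Topology
open scoped ENNReal RealInnerProductSpace

variable {α : Type*} [Fintype α] [DecidableEq α]

/-- the sign of a bit, real version -/
noncomputable def sgr (b : Bool) : ℝ := if b then 1 else -1

@[simp] lemma sgr_true : sgr true = 1 := rfl
@[simp] lemma sgr_false : sgr false = -1 := rfl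

lemma sg_eq (b : Bool) : sg b = (sgr b : ℂ) := by cases b <;> simp

/-- the normalised sum -/
noncomputable def SN (α : Type*) [Fintype α] (N : ℕ) (ε : Fin N × α → Bool) :
    EuclideanSpace ℝ α :=
  WithLp.toLp 2 (fun l => (√(N : ℝ))⁻¹ * ∑ i, sgr (ε (i, l)))

/-- its law -/
noncomputable def muN (α : Type*) [Fintype α] [DecidableEq α] (N : ℕ) :
    Measure (EuclideanSpace ℝ α) :=
  ((2 : ℝ≥0∞) ^ Fintype.card (Fin N × α))⁻¹ • ∑ ε : Fin N × α → Bool, Measure.dirac (SN α N ε)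

lemma card_bool (N : ℕ) : Fintype.card (Fin N × α → Bool) = 2 ^ Fintype.card (Fin N × α) := by
  rw [Fintype.card_fun, Fintype.card_bool]

instance (N : ℕ) : IsProbabilityMeasure (muN α N) := by
  constructor
  rw [muN, Measure.smul_apply, Measure.finsetSum_apply]
  simp only [measure_univ, Finset.sum_const, Finset.card_univ, card_bool, nsmul_eq_mul, mul_one,
    smul_eq_mul]
  push_cast
  exact ENNReal.inv_mul_cancel (by positivity) (by simp)

lemma int_muN {F : Type*} [NormedAddCommGroup F] [NormedSpace ℝ F] [CompleteSpace F] (N : ℕ)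
    (f : EuclideanSpace ℝ α → F) :
    ∫ x, f x ∂(muN α N) = ((2 : ℝ) ^ Fintype.card (Fin N × α))⁻¹ • ∑ ε, f (SN α N ε) := by
  rw [muN, integral_smul_measure, integral_finsetSum_measure]
  · simp only [integral_dirac]
    congr 1
    simp
  · intro ε _
    exact integrable_dirac (by simp)

lemma lint_muN (N : ℕ) (f : EuclideanSpace ℝ α → ℝ≥0∞) :
    ∫⁻ x, f x ∂(muN α N) = ((2 : ℝ≥0∞) ^ Fintype.card (Fin N × α))⁻¹ * ∑ ε, f (SN α N ε) := by
  rw [muN, lintegral_smul_measure, lintegral_finsetSum_measure]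
  simp only [lintegral_dirac, smul_eq_mul]

omit [DecidableEq α] in
lemma inner_SN (N : ℕ) (ε : Fin N × α → Bool) (t : EuclideanSpace ℝ α) :
    ⟪SN α N ε, t⟫ = ∑ k : Fin N × α, (t k.2 / √(N : ℝ)) * sgr (ε k) := by
  rw [Fintype.sum_prod_type_right]
  simp only [SN, PiLp.inner_apply, RCLike.inner_apply, conj_trivial]
  refine Finset.sum_congr rfl fun l _ => ?_
  rw [← Finset.mul_sum]
  ring

lemma sum_prod_bool {ι : Type*} [Fintype ι] [DecidableEq ι] (f : ι → Bool → ℂ) :
    ∑ ε : ι → Bool, ∏ i, f i (ε i) = ∏ i, (f i true + f i false) := by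
  have h := Finset.prod_univ_sum (fun _ : ι => (Finset.univ : Finset Bool)) f
  rw [Fintype.piFinset_univ] at h
  rw [← h]
  simp only [Fintype.sum_bool]

lemma charFun_muN (N : ℕ) (t : EuclideanSpace ℝ α) :
    charFun (muN α N) t = ∏ l, ((Real.cos (t l / √(N : ℝ)) : ℝ) : ℂ) ^ N := by
  rw [charFun_apply, int_muN]
  have e1 : ∀ ε : Fin N × α → Bool, Complex.exp (⟪SN α N ε, t⟫ * Complex.I) =
      ∏ k : Fin N × α, Complex.exp ((t k.2 / √(N : ℝ) : ℝ) * sgr (ε k) * Complex.I) := by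
    intro ε
    rw [← Complex.exp_sum, inner_SN]
    congr 1
    push_cast
    rw [Finset.sum_mul]
  simp only [e1]
  rw [sum_prod_bool (fun (k : Fin N × α) b =>
    Complex.exp ((t k.2 / √(N : ℝ) : ℝ) * sgr b * Complex.I))]
  have e2 : ∀ k : Fin N × α, Complex.exp ((t k.2 / √(N : ℝ) : ℝ) * sgr true * Complex.I) +
      Complex.exp ((t k.2 / √(N : ℝ) : ℝ) * sgr false * Complex.I) =
      2 * ((Real.cos (t k.2 / √(N : ℝ)) : ℝ) : ℂ) := by
    intro k
    rw [Complex.ofReal_cos, Complex.two_cos]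
    simp
  simp only [e2]
  rw [Finset.prod_mul_distrib, Finset.prod_const, Finset.card_univ, Complex.real_smul]
  push_cast
  rw [← mul_assoc, inv_mul_cancel₀ (pow_ne_zero _ two_ne_zero), one_mul,
    Fintype.prod_prod_type_right]
  simp

lemma tendsto_cos_pow (t : ℝ) :
    Tendsto (fun N : ℕ => Real.cos (t / √(N : ℝ)) ^ N) atTop (𝓝 (Real.exp (-(t ^ 2) / 2))) := by
  have h := Real.tendsto_one_add_pow_exp_of_tendsto (g := fun N : ℕ => Real.cos (t / √(N : ℝ)) - 1)
    (t := -(t ^ 2) / 2) ?_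
  · refine h.congr fun N => ?_
    congr 1; ring
  have h1 : Tendsto (fun N : ℕ => t ^ 4 * (5 / 96) * (N : ℝ)⁻¹) atTop (𝓝 0) := by
    have := tendsto_inv_atTop_nhds_zero_nat (𝕜 := ℝ)
    simpa using this.const_mul (t ^ 4 * (5 / 96))
  rw [tendsto_iff_norm_sub_tendsto_zero]
  refine squeeze_zero' (Eventually.of_forall fun _ => norm_nonneg _) ?_ h1
  have h2 : ∀ᶠ N : ℕ in atTop, t ^ 2 + 1 ≤ (N : ℝ) :=
    tendsto_natCast_atTop_atTop.eventually_ge_atTop _
  filter_upwards [h2] with N hN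
  have hN0 : (0 : ℝ) < N := by nlinarith [sq_nonneg t]
  have hs : √(N : ℝ) ^ 2 = N := Real.sq_sqrt hN0.le
  have hs0 : 0 < √(N : ℝ) := Real.sqrt_pos.2 hN0
  have hle : |t / √(N : ℝ)| ≤ 1 := by
    rw [← sq_le_one_iff_abs_le_one, div_pow, hs, div_le_one hN0]; linarith
  have hb := Real.cos_bound hle
  have e1 : (t / √(N : ℝ)) ^ 2 = t ^ 2 / N := by rw [div_pow, hs]
  have e2 : |t / √(N : ℝ)| ^ 4 = t ^ 4 / N ^ 2 := by
    have : |t / √(N : ℝ)| ^ 4 = ((t / √(N : ℝ)) ^ 2) ^ 2 := by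
      rw [← sq_abs (t / √(N : ℝ)), ← pow_mul]
    rw [this, e1, div_pow, ← pow_mul]
  rw [e1, e2] at hb
  rw [Real.norm_eq_abs]
  have e3 : (N : ℝ) * (Real.cos (t / √(N : ℝ)) - 1) - -(t ^ 2) / 2 =
      N * (Real.cos (t / √(N : ℝ)) - (1 - t ^ 2 / N / 2)) := by field_simp; ring
  rw [e3, abs_mul, abs_of_pos hN0]
  calc (N : ℝ) * |Real.cos (t / √(N : ℝ)) - (1 - t ^ 2 / N / 2)|
      ≤ N * (t ^ 4 / N ^ 2 * (5 / 96)) := by gcongr
    _ = t ^ 4 * (5 / 96) * (N : ℝ)⁻¹ := by field_simp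

/-- the laws as probability measures -/
noncomputable def nuN (α : Type*) [Fintype α] [DecidableEq α] (N : ℕ) :
    ProbabilityMeasure (EuclideanSpace ℝ α) := ⟨muN α N, inferInstance⟩

/-- the standard Gaussian measure -/
noncomputable def gam (α : Type*) [Fintype α] [DecidableEq α] :
    ProbabilityMeasure (EuclideanSpace ℝ α) :=
  ⟨ProbabilityTheory.stdGaussian (EuclideanSpace ℝ α), inferInstance⟩

theorem tendsto_nuN : Tendsto (nuN α) atTop (𝓝 (gam α)) := by
  rw [ProbabilityMeasure.tendsto_iff_tendsto_charFun]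
  intro t
  have e0 : charFun ((gam α : ProbabilityMeasure (EuclideanSpace ℝ α)) :
      Measure (EuclideanSpace ℝ α)) t = ∏ l, ((Real.exp (-(t l ^ 2) / 2) : ℝ) : ℂ) := by
    have : charFun ((gam α : ProbabilityMeasure (EuclideanSpace ℝ α)) :
      Measure (EuclideanSpace ℝ α)) t = Complex.exp (-‖t‖ ^ 2 / 2) :=
      ProbabilityTheory.charFun_stdGaussian t
    rw [this, EuclideanSpace.norm_eq, ← Complex.ofReal_prod, ← Real.exp_sum, ← Complex.ofReal_pow,
      Real.sq_sqrt (Finset.sum_nonneg fun _ _ => sq_nonneg _)]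
    push_cast
    congr 1
    rw [← Finset.sum_neg_distrib, Finset.sum_div]
    refine Finset.sum_congr rfl fun l _ => ?_
    rw [Real.norm_eq_abs, ← Complex.ofReal_pow, sq_abs, Complex.ofReal_pow]
  rw [e0]
  have e1 : ∀ N : ℕ, charFun ((nuN α N : ProbabilityMeasure (EuclideanSpace ℝ α)) :
      Measure (EuclideanSpace ℝ α)) t = ∏ l, ((Real.cos (t l / √(N : ℝ)) ^ N : ℝ) : ℂ) := by
    intro N
    have := charFun_muN N t
    rw [nuN]
    push_cast at this ⊢
    exact this
  simp only [e1]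
  refine tendsto_finsetProd _ fun l _ => ?_
  exact (Complex.continuous_ofReal.tendsto _).comp (tendsto_cos_pow (t l))

end Pool.Agent.N551.BK
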