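import Mathlib
import Pool.Agent.N551.BK.Clt

set_option autoImplicit false

/-! Beckner's inequality for exponential sums on Gauss space. -/

namespace Pool.Agent.N551.BK

open MeasureTheory Filter Topology
open scoped ENNReal RealInnerProductSpace

section limit

variable {E : Type*} [NormedAddCommGroup E] [InnerProductSpace ℝ E] [FiniteDimensional ℝ E]
  [MeasurableSpace E] [BorelSpace E]

/-- a cutoff function -/
noncomputable def cut (R : ℝ) (x : E) : ℝ := max 0 (min 1 (R + 1 - ‖x‖))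

omit [InnerProductSpace ℝ E] [FiniteDimensional ℝ E] [MeasurableSpace E] [BorelSpace E] in
lemma cut_cont (R : ℝ) : Continuous (cut R : E → ℝ) := by
  unfold cut; fun_prop

omit [InnerProductSpace ℝ E] [FiniteDimensional ℝ E] [MeasurableSpace E] [BorelSpace E] in
lemma cut_nonneg (R : ℝ) (x : E) : 0 ≤ cut R x := le_max_left _ _

omit [InnerProductSpace ℝ E] [FiniteDimensional ℝ E] [MeasurableSpace E] [BorelSpace E] in
lemma cut_le_one (R : ℝ) (x : E) : cut R x ≤ 1 := by
  unfold cut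
  exact max_le (by norm_num) (min_le_left _ _)

omit [InnerProductSpace ℝ E] [FiniteDimensional ℝ E] [MeasurableSpace E] [BorelSpace E] in
lemma cut_eq_one {R : ℝ} {x : E} (h : ‖x‖ ≤ R) : cut R x = 1 := by
  unfold cut
  rw [min_eq_left (by linarith)]
  norm_num

omit [InnerProductSpace ℝ E] [FiniteDimensional ℝ E] [MeasurableSpace E] [BorelSpace E] in
lemma cut_eq_zero {R : ℝ} {x : E} (h : R + 1 ≤ ‖x‖) : cut R x = 0 := by
  unfold cut
  rw [max_eq_left]
  exact (min_le_right _ _).trans (by linarith)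

/-- lower semicontinuity of integrals of functions depending on a parameter -/
theorem lim_lemma (ν : ℕ → ProbabilityMeasure E) (γ : ProbabilityMeasure E)
    (hν : Tendsto ν atTop (𝓝 γ)) {Θ : Type*} [TopologicalSpace Θ] (P : ℕ → Θ) (P0 : Θ)
    (hP : Tendsto P atTop (𝓝 P0)) (φ : Θ → E → ℝ) (hφ : Continuous (Function.uncurry φ))
    (h0 : ∀ θ x, 0 ≤ φ θ x) (hint : ∀ N, Integrable (φ (P N)) (ν N : Measure E))
    (K : ℕ → ℝ) (C : ℝ) (hK : ∀ᶠ N in atTop, ∫ x, φ (P N) x ∂(ν N : Measure E) ≤ K N)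
    (hKC : Tendsto K atTop (𝓝 C)) :
    ∫⁻ x, ENNReal.ofReal (φ P0 x) ∂(γ : Measure E) ≤ ENNReal.ofReal C := by
  -- uniform convergence on balls
  have hunif : ∀ R : ℝ, TendstoUniformlyOn (fun N x => φ (P N) x) (φ P0) atTop
      (Metric.closedBall (0 : E) R) := by
    intro R
    let F : C(Θ, C(E, ℝ)) := ContinuousMap.curry ⟨Function.uncurry φ, hφ⟩
    have hF : Tendsto (fun N => F (P N)) atTop (𝓝 (F P0)) := (F.continuous.tendsto P0).comp hP
    rw [ContinuousMap.tendsto_iff_forall_isCompact_tendstoUniformlyOn] at hF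
    exact hF _ (isCompact_closedBall 0 R)
  have hcont0 : ∀ θ, Continuous (φ θ) := fun θ => hφ.comp (Continuous.prodMk_right θ)
  -- the bound for the truncated function
  have key : ∀ R : ℝ, 0 ≤ R → ∫ x, cut R x * φ P0 x ∂(γ : Measure E) ≤ C := by
    intro R hR
    obtain ⟨M, hM⟩ := (isCompact_closedBall (0 : E) (R + 1)).exists_bound_of_continuousOn
      (hcont0 P0).continuousOn
    have hfb : ∀ x, ‖cut R x * φ P0 x‖ ≤ |M| := by
      intro x
      by_cases hx : ‖x‖ ≤ R + 1
      · rw [norm_mul, Real.norm_of_nonneg (cut_nonneg R x)]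
        calc cut R x * ‖φ P0 x‖ ≤ 1 * |M| := by
              gcongr
              · exact cut_le_one R x
              · exact (hM x (by simpa using hx)).trans (le_abs_self M)
          _ = |M| := one_mul _
      · rw [cut_eq_zero (by linarith), zero_mul, norm_zero]; exact abs_nonneg M
    let f : BoundedContinuousFunction E ℝ := BoundedContinuousFunction.ofNormedAddCommGroup
      (fun x => cut R x * φ P0 x) ((cut_cont R).mul (hcont0 P0)) |M| hfb
    have hw := (ProbabilityMeasure.tendsto_iff_forall_integral_tendsto.1 hν) f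
    have hlim2 : ∀ δ > 0, ∀ᶠ N in atTop, ∫ x, f x ∂(ν N : Measure E) ≤ K N + δ := by
      intro δ hδ
      have hu := (Metric.tendstoUniformlyOn_iff.1 (hunif (R + 1))) δ hδ
      filter_upwards [hu, hK] with N hN hKN
      have hle : ∀ x, f x ≤ φ (P N) x + δ := by
        intro x
        change cut R x * φ P0 x ≤ φ (P N) x + δ
        by_cases hx : ‖x‖ ≤ R + 1
        · have h1 := hN x (by simpa using hx)
          rw [Real.dist_eq, abs_lt] at h1
          have h2 := cut_le_one R x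
          have h3 := cut_nonneg R x
          have h4 := h0 P0 x
          nlinarith
        · rw [cut_eq_zero (by linarith), zero_mul]
          linarith [h0 (P N) x]
      calc ∫ x, f x ∂(ν N : Measure E) ≤ ∫ x, (φ (P N) x + δ) ∂(ν N : Measure E) := by
            apply integral_mono
            · exact f.integrable _
            · exact (hint N).add (integrable_const δ)
            · exact hle
        _ = ∫ x, φ (P N) x ∂(ν N : Measure E) + δ := by
            rw [integral_add (hint N) (integrable_const δ)]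
            simp
        _ ≤ K N + δ := by linarith
    refine le_of_forall_pos_le_add fun δ hδ => ?_
    exact le_of_tendsto_of_tendsto hw (hKC.add_const δ) (hlim2 δ hδ)
  have hC : 0 ≤ C := by
    refine le_trans (integral_nonneg fun x => ?_) (key 0 le_rfl)
    exact mul_nonneg (cut_nonneg _ _) (h0 _ _)
  -- Fatou
  have hfat : ∫⁻ x, ENNReal.ofReal (φ P0 x) ∂(γ : Measure E) ≤
      liminf (fun N : ℕ => ∫⁻ x, ENNReal.ofReal (cut (N : ℝ) x * φ P0 x) ∂(γ : Measure E)) atTop := by
    refine le_trans (lintegral_mono fun x => ?_) (lintegral_liminf_le fun N => ?_)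
    · refine le_liminf_of_le (by isBoundedDefault) ?_
      obtain ⟨N0, hN0⟩ := exists_nat_ge ‖x‖
      filter_upwards [eventually_ge_atTop N0] with N hN
      rw [cut_eq_one (hN0.trans (by exact_mod_cast hN)), one_mul]
    · exact (((cut_cont (N : ℝ)).mul (hcont0 P0)).measurable).ennreal_ofReal
  refine hfat.trans (liminf_le_of_le (by isBoundedDefault) fun b hb => ?_)
  obtain ⟨N, hN⟩ := hb.exists
  refine hN.trans ?_
  have hi : Integrable (fun x => cut (N : ℝ) x * φ P0 x) (γ : Measure E) := by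
    obtain ⟨M, hM⟩ := (isCompact_closedBall (0 : E) ((N : ℝ) + 1)).exists_bound_of_continuousOn
      (hcont0 P0).continuousOn
    refine Integrable.of_bound (C := |M|) ((cut_cont (N : ℝ)).mul (hcont0 P0)).aestronglyMeasurable
      (Eventually.of_forall fun x => ?_)
    by_cases hx : ‖x‖ ≤ (N : ℝ) + 1
    · rw [norm_mul, Real.norm_of_nonneg (cut_nonneg _ x)]
      calc cut (N : ℝ) x * ‖φ P0 x‖ ≤ 1 * |M| := by
            gcongr
            · exact cut_le_one _ x
            · exact (hM x (by simpa using hx)).trans (le_abs_self M)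
        _ = |M| := one_mul _
    · rw [cut_eq_zero (by linarith), zero_mul, norm_zero]; exact abs_nonneg M
  rw [← ofReal_integral_eq_lintegral_ofReal hi (Eventually.of_forall fun x =>
    mul_nonneg (cut_nonneg _ _) (h0 _ _))]
  exact ENNReal.ofReal_le_ofReal (key N (by positivity))

end limit

section asym

lemma inv_sqrt_tendsto : Tendsto (fun N : ℕ => (√(N : ℝ))⁻¹) atTop (𝓝[≠] 0) := by
  rw [tendsto_nhdsWithin_iff]
  constructor
  · have h : Tendsto (fun N : ℕ => √(N : ℝ)) atTop atTop :=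
      (Real.tendsto_sqrt_atTop).comp tendsto_natCast_atTop_atTop
    exact h.inv_tendsto_atTop
  · filter_upwards [eventually_gt_atTop 0] with N hN
    have : (0 : ℝ) < N := by exact_mod_cast hN
    simp only [Set.mem_compl_iff, Set.mem_singleton_iff]
    positivity

lemma slopeN {g : ℝ → ℝ} {g' : ℝ} (hg : HasDerivAt g g' 0) (h0 : g 0 = 0) :
    Tendsto (fun N : ℕ => √(N : ℝ) * g (√(N : ℝ))⁻¹) atTop (𝓝 g') := by
  have h := (hasDerivAt_iff_tendsto_slope.1 hg).comp inv_sqrt_tendsto
  refine h.congr fun N => ?_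
  simp only [Function.comp, slope, vsub_eq_sub, h0, sub_zero, smul_eq_mul, inv_inv]

/-- the two logarithms -/
noncomputable def Lp (l t h : ℝ) : ℝ := Real.log (Real.cos (t * h) + l * Real.sin (t * h))

lemma Lp_slope (l t : ℝ) : Tendsto (fun N : ℕ => √(N : ℝ) * Lp l t (√(N : ℝ))⁻¹) atTop
    (𝓝 (l * t)) := by
  apply slopeN
  · have h1 : HasDerivAt (fun h : ℝ => Real.cos (t * h) + l * Real.sin (t * h))
        (-Real.sin (t * 0) * t + l * (Real.cos (t * 0) * t)) 0 := by
      have e : HasDerivAt (fun h : ℝ => t * h) t 0 := by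
        simpa using (hasDerivAt_id (0 : ℝ)).const_mul t
      exact e.cos.add (e.sin.const_mul l)
    have h2 := h1.log (by simp)
    change HasDerivAt (fun h : ℝ => Real.log (Real.cos (t * h) + l * Real.sin (t * h))) _ 0
    simpa using h2
  · simp [Lp]

lemma sumN (l t : ℝ) : Tendsto (fun N : ℕ => (N : ℝ) *
    ((Lp l t (√(N : ℝ))⁻¹ + Lp (-l) t (√(N : ℝ))⁻¹) / 2)) atTop
    (𝓝 (-((1 + l ^ 2) * t ^ 2 / 2))) := by
  have hs : Tendsto (fun N : ℕ => √(N : ℝ) * Real.sin (t * (√(N : ℝ))⁻¹)) atTop (𝓝 t) := by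
    apply slopeN (g := fun h => Real.sin (t * h))
    · have e : HasDerivAt (fun h : ℝ => t * h) t 0 := by
        simpa using (hasDerivAt_id (0 : ℝ)).const_mul t
      simpa using e.sin
    · simp
  set w : ℕ → ℝ := fun N => (1 + l ^ 2) * Real.sin (t * (√(N : ℝ))⁻¹) ^ 2 with hw
  have hNw : Tendsto (fun N : ℕ => (N : ℝ) * w N) atTop (𝓝 ((1 + l ^ 2) * t ^ 2)) := by
    refine ((hs.pow 2).const_mul (1 + l ^ 2)).congr fun N => ?_
    rw [hw, mul_pow, Real.sq_sqrt (Nat.cast_nonneg N)]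
    ring
  have hw0 : Tendsto w atTop (𝓝 0) := by
    have h1 : Tendsto (fun N : ℕ => t * (√(N : ℝ))⁻¹) atTop (𝓝 (t * 0)) :=
      ((tendsto_nhdsWithin_iff.1 inv_sqrt_tendsto).1).const_mul t
    have h2 := (((Real.continuous_sin.tendsto _).comp h1).pow 2).const_mul (1 + l ^ 2)
    simpa [hw] using h2
  -- positivity of both factors, eventually
  have hpos : ∀ᶠ N : ℕ in atTop, 0 < Real.cos (t * (√(N : ℝ))⁻¹) + l * Real.sin (t * (√(N : ℝ))⁻¹) ∧
      0 < Real.cos (t * (√(N : ℝ))⁻¹) + (-l) * Real.sin (t * (√(N : ℝ))⁻¹) := by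
    have h1 : Tendsto (fun N : ℕ => t * (√(N : ℝ))⁻¹) atTop (𝓝 (t * 0)) :=
      ((tendsto_nhdsWithin_iff.1 inv_sqrt_tendsto).1).const_mul t
    have h2 : ∀ m : ℝ, ∀ᶠ N : ℕ in atTop,
        0 < Real.cos (t * (√(N : ℝ))⁻¹) + m * Real.sin (t * (√(N : ℝ))⁻¹) := by
      intro m
      have h3 : Tendsto (fun N : ℕ => Real.cos (t * (√(N : ℝ))⁻¹) +
          m * Real.sin (t * (√(N : ℝ))⁻¹)) atTop (𝓝 (Real.cos (t * 0) + m * Real.sin (t * 0))) :=
        ((Real.continuous_cos.tendsto _).comp h1).add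
          (((Real.continuous_sin.tendsto _).comp h1).const_mul m)
      exact h3.eventually_const_lt (by simp)
    exact (h2 l).and (h2 (-l))
  have hle1 : ∀ᶠ N : ℕ in atTop, w N < 1 := hw0.eventually_lt_const one_pos
  have hform : ∀ᶠ N : ℕ in atTop, (N : ℝ) * ((Lp l t (√(N : ℝ))⁻¹ + Lp (-l) t (√(N : ℝ))⁻¹) / 2) =
      (N : ℝ) * Real.log (1 - w N) / 2 := by
    filter_upwards [hpos] with N hN
    rw [Lp, Lp, ← Real.log_mul hN.1.ne' hN.2.ne']
    have : (Real.cos (t * (√(N : ℝ))⁻¹) + l * Real.sin (t * (√(N : ℝ))⁻¹)) *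
        (Real.cos (t * (√(N : ℝ))⁻¹) + (-l) * Real.sin (t * (√(N : ℝ))⁻¹)) = 1 - w N := by
      rw [hw]
      have := Real.sin_sq_add_cos_sq (t * (√(N : ℝ))⁻¹)
      simp only
      nlinarith
    rw [this]; ring
  rw [tendsto_congr' hform]
  -- squeeze
  have hlow : Tendsto (fun N : ℕ => (N : ℝ) * w N * (-(1 / (1 - w N))) / 2) atTop
      (𝓝 ((1 + l ^ 2) * t ^ 2 * (-(1 / (1 - 0))) / 2)) := by
    refine (hNw.mul ?_).div_const 2
    refine (Tendsto.div tendsto_const_nhds (tendsto_const_nhds.sub hw0) (by norm_num)).neg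
  have hup : Tendsto (fun N : ℕ => (N : ℝ) * w N * (-1) / 2) atTop
      (𝓝 ((1 + l ^ 2) * t ^ 2 * (-1) / 2)) := (hNw.mul_const (-1)).div_const 2
  have e1 : (1 + l ^ 2) * t ^ 2 * (-(1 / (1 - 0))) / 2 = -((1 + l ^ 2) * t ^ 2 / 2) := by ring
  have e2 : (1 + l ^ 2) * t ^ 2 * (-1) / 2 = -((1 + l ^ 2) * t ^ 2 / 2) := by ring
  rw [e1] at hlow
  rw [e2] at hup
  refine tendsto_of_tendsto_of_tendsto_of_le_of_le' hlow hup ?_ ?_
  · filter_upwards [hle1] with N hN
    have h1 : 0 < 1 - w N := by linarith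
    have h2 := Real.one_sub_inv_le_log_of_pos h1
    have h3 : w N * (-(1 / (1 - w N))) = 1 - (1 - w N)⁻¹ := by field_simp; ring
    have h4 : (0 : ℝ) ≤ N := Nat.cast_nonneg N
    have h5 := mul_le_mul_of_nonneg_left h2 h4
    rw [mul_assoc, h3]
    linarith
  · filter_upwards [hle1] with N hN
    have h1 : 0 < 1 - w N := by linarith
    have h2 := Real.log_le_sub_one_of_pos h1
    have h4 : (0 : ℝ) ≤ N := Nat.cast_nonneg N
    have h5 := mul_le_mul_of_nonneg_left h2 h4
    linarith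

lemma pos_ev (m t : ℝ) : ∀ᶠ N : ℕ in atTop,
    0 < Real.cos (t * (√(N : ℝ))⁻¹) + m * Real.sin (t * (√(N : ℝ))⁻¹) := by
  have h1 : Tendsto (fun N : ℕ => t * (√(N : ℝ))⁻¹) atTop (𝓝 (t * 0)) :=
    ((tendsto_nhdsWithin_iff.1 inv_sqrt_tendsto).1).const_mul t
  have h3 : Tendsto (fun N : ℕ => Real.cos (t * (√(N : ℝ))⁻¹) +
      m * Real.sin (t * (√(N : ℝ))⁻¹)) atTop (𝓝 (Real.cos (t * 0) + m * Real.sin (t * 0))) :=
    ((Real.continuous_cos.tendsto _).comp h1).add
      (((Real.continuous_sin.tendsto _).comp h1).const_mul m)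
  exact h3.eventually_const_lt (by simp)

end asym

end Pool.Agent.N551.BK
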