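import Mathlib
import Pool.Agent.N551.BK.Lim

set_option autoImplicit false

/-! Beckner's inequality for exponential sums on Gauss space. -/

namespace Pool.Agent.N551.BK

open MeasureTheory Filter Topology
open scoped ENNReal RealInnerProductSpace

variable {α : Type*} [Fintype α] [DecidableEq α]

lemma integrable_muN {F : Type*} [NormedAddCommGroup F] (N : ℕ) (f : EuclideanSpace ℝ α → F)
    (hf : AEStronglyMeasurable f (muN α N)) : Integrable f (muN α N) := by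
  refine ⟨hf, ?_⟩
  rw [HasFiniteIntegral, lint_muN]
  refine ENNReal.mul_lt_top ?_ ?_
  · exact ENNReal.inv_lt_top.2 (by positivity)
  · exact ENNReal.sum_lt_top.2 fun ε _ => by simp

/-- first parameter -/
noncomputable def PA (l : ℝ) (N : ℕ) (τ : EuclideanSpace ℝ α) : ℝ :=
  ∑ i, (N : ℝ) * ((Lp l (τ i) (√(N : ℝ))⁻¹ + Lp (-l) (τ i) (√(N : ℝ))⁻¹) / 2)

/-- second parameter -/
noncomputable def PB (l : ℝ) (N : ℕ) (τ : EuclideanSpace ℝ α) : EuclideanSpace ℝ α :=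
  WithLp.toLp 2 fun i =>
    √(N : ℝ) * ((Lp l (τ i) (√(N : ℝ))⁻¹ - Lp (-l) (τ i) (√(N : ℝ))⁻¹) / 2)

omit [DecidableEq α] in
lemma PA_tendsto (l : ℝ) (τ : EuclideanSpace ℝ α) :
    Tendsto (fun N : ℕ => PA l N τ) atTop (𝓝 (-((1 + l ^ 2) * ‖τ‖ ^ 2 / 2))) := by
  have h := tendsto_finsetSum (Finset.univ : Finset α) (fun i _ => sumN l (τ i))
  have e : ∑ i, -((1 + l ^ 2) * (τ i) ^ 2 / 2) = -((1 + l ^ 2) * ‖τ‖ ^ 2 / 2) := by
    rw [EuclideanSpace.norm_eq, Real.sq_sqrt (Finset.sum_nonneg fun _ _ => sq_nonneg _),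
      Finset.mul_sum, Finset.sum_div, ← Finset.sum_neg_distrib]
    refine Finset.sum_congr rfl fun i _ => ?_
    rw [Real.norm_eq_abs, sq_abs]
  rw [← e]
  exact h

omit [Fintype α] [DecidableEq α] in
lemma PB_tendsto (l : ℝ) (τ : EuclideanSpace ℝ α) :
    Tendsto (fun N : ℕ => PB l N τ) atTop (𝓝 (l • τ)) := by
  have h : Tendsto (fun N : ℕ => (fun i => √(N : ℝ) *
      ((Lp l (τ i) (√(N : ℝ))⁻¹ - Lp (-l) (τ i) (√(N : ℝ))⁻¹) / 2) : α → ℝ)) atTop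
      (𝓝 (fun i => l * τ i)) := by
    rw [tendsto_pi_nhds]
    intro i
    have h1 := Lp_slope l (τ i)
    have h2 := Lp_slope (-l) (τ i)
    have h3 := (h1.sub h2).div_const 2
    have e : (l * τ i - -l * τ i) / 2 = l * τ i := by ring
    rw [e] at h3
    refine h3.congr fun N => ?_
    ring
  have h2 : Tendsto (fun N : ℕ => PB l N τ) atTop (𝓝 (WithLp.toLp 2 (fun i => l * τ i))) :=
    ((PiLp.continuous_toLp 2 (fun _ : α => ℝ)).tendsto _).comp h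
  have e : (WithLp.toLp 2 (fun i => l * τ i) : EuclideanSpace ℝ α) = l • τ := by
    ext i; simp
  rwa [e] at h2

omit [DecidableEq α] in
/-- the product formula -/
lemma prod_formula (l : ℝ) (N : ℕ) (hN : 0 < N) (τ : EuclideanSpace ℝ α)
    (hp : ∀ i, 0 < Real.cos (τ i * (√(N : ℝ))⁻¹) + l * Real.sin (τ i * (√(N : ℝ))⁻¹))
    (hm : ∀ i, 0 < Real.cos (τ i * (√(N : ℝ))⁻¹) + (-l) * Real.sin (τ i * (√(N : ℝ))⁻¹))
    (ε : Fin N × α → Bool) :
    ∏ k : Fin N × α, (((Real.cos (τ k.2 * (√(N : ℝ))⁻¹) : ℝ) : ℂ) + Complex.I * l * sg (ε k) *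
      (Complex.I * ((Real.sin (τ k.2 * (√(N : ℝ))⁻¹) : ℝ) : ℂ))) =
      Complex.exp ((PA l N τ - ⟪SN α N ε, PB l N τ⟫ : ℝ) : ℂ) := by
  have hN' : (0 : ℝ) < N := by exact_mod_cast hN
  have hs : 0 < √(N : ℝ) := Real.sqrt_pos.2 hN'
  have e1 : ∀ k : Fin N × α, (((Real.cos (τ k.2 * (√(N : ℝ))⁻¹) : ℝ) : ℂ) +
      Complex.I * l * sg (ε k) * (Complex.I * ((Real.sin (τ k.2 * (√(N : ℝ))⁻¹) : ℝ) : ℂ))) =
      ((Real.exp ((Lp l (τ k.2) (√(N : ℝ))⁻¹ + Lp (-l) (τ k.2) (√(N : ℝ))⁻¹) / 2 -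
        (Lp l (τ k.2) (√(N : ℝ))⁻¹ - Lp (-l) (τ k.2) (√(N : ℝ))⁻¹) / 2 * sgr (ε k)) : ℝ) : ℂ) := by
    intro k
    have e2 : (((Real.cos (τ k.2 * (√(N : ℝ))⁻¹) : ℝ) : ℂ) +
      Complex.I * l * sg (ε k) * (Complex.I * ((Real.sin (τ k.2 * (√(N : ℝ))⁻¹) : ℝ) : ℂ))) =
      ((Real.cos (τ k.2 * (√(N : ℝ))⁻¹) - l * sgr (ε k) * Real.sin (τ k.2 * (√(N : ℝ))⁻¹) : ℝ) : ℂ)
        := by
      rw [sg_eq]
      push_cast
      linear_combination (l * (sgr (ε k) : ℂ) * Complex.sin (τ k.2 * (√(N : ℝ) : ℂ)⁻¹)) *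
        Complex.I_mul_I
    rw [e2]
    congr 1
    cases hε : ε k
    · have : (Lp l (τ k.2) (√(N : ℝ))⁻¹ + Lp (-l) (τ k.2) (√(N : ℝ))⁻¹) / 2 -
        (Lp l (τ k.2) (√(N : ℝ))⁻¹ - Lp (-l) (τ k.2) (√(N : ℝ))⁻¹) / 2 * sgr false =
        Lp l (τ k.2) (√(N : ℝ))⁻¹ := by rw [sgr_false]; ring
      rw [this, Lp, Real.exp_log (hp k.2), sgr_false]
      ring
    · have : (Lp l (τ k.2) (√(N : ℝ))⁻¹ + Lp (-l) (τ k.2) (√(N : ℝ))⁻¹) / 2 -
        (Lp l (τ k.2) (√(N : ℝ))⁻¹ - Lp (-l) (τ k.2) (√(N : ℝ))⁻¹) / 2 * sgr true =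
        Lp (-l) (τ k.2) (√(N : ℝ))⁻¹ := by rw [sgr_true]; ring
      rw [this, Lp, Real.exp_log (hm k.2), sgr_true]
      ring
  rw [Finset.prod_congr rfl fun k _ => e1 k, ← Complex.ofReal_prod, ← Real.exp_sum,
    ← Complex.ofReal_exp]
  congr 2
  rw [Finset.sum_sub_distrib, inner_SN]
  congr 1
  · rw [PA, Fintype.sum_prod_type]
    simp only [Finset.sum_const, Finset.card_univ, Fintype.card_fin, nsmul_eq_mul]
    rw [← Finset.mul_sum]
  · refine Finset.sum_congr rfl fun k _ => ?_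
    congr 1
    rw [PB]
    simp only
    field_simp

omit [DecidableEq α] in
/-- the product formula on the other side -/
lemma prod_formula' (N : ℕ) (τ : EuclideanSpace ℝ α) (ε : Fin N × α → Bool) :
    ∏ k : Fin N × α, (((Real.cos (τ k.2 * (√(N : ℝ))⁻¹) : ℝ) : ℂ) + sg (ε k) *
      (Complex.I * ((Real.sin (τ k.2 * (√(N : ℝ))⁻¹) : ℝ) : ℂ))) =
      Complex.exp (⟪SN α N ε, τ⟫ * Complex.I) := by
  have e1 : ∀ k : Fin N × α, (((Real.cos (τ k.2 * (√(N : ℝ))⁻¹) : ℝ) : ℂ) + sg (ε k) *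
      (Complex.I * ((Real.sin (τ k.2 * (√(N : ℝ))⁻¹) : ℝ) : ℂ))) =
      Complex.exp (((τ k.2 / √(N : ℝ)) * sgr (ε k) : ℝ) * Complex.I) := by
    intro k
    rw [Complex.exp_mul_I, ← Complex.ofReal_cos, ← Complex.ofReal_sin, sg_eq, div_eq_mul_inv]
    cases hε : ε k
    · simp only [sgr_false, mul_neg, mul_one, Real.cos_neg, Real.sin_neg]
      push_cast; ring
    · simp only [sgr_true, mul_one]
      push_cast; ring
  rw [Finset.prod_congr rfl fun k _ => e1 k, ← Complex.exp_sum, inner_SN]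
  congr 1
  push_cast
  rw [Finset.sum_mul]

/-- **Beckner's inequality** for exponential sums on Gauss space. -/
theorem gauss_ineq {s q l : ℝ} (h1 : 1 < s) (h2 : s ≤ 2) (hq : q = s / (s - 1))
    (hl : l ^ 2 = s - 1) {J : Type*} [Fintype J] (c : J → ℂ) (τ : J → EuclideanSpace ℝ α) :
    ∫⁻ x, ENNReal.ofReal (‖∑ j, c j * Complex.exp ((-(s * ‖τ j‖ ^ 2 / 2) - ⟪x, l • τ j⟫ : ℝ) : ℂ)‖ ^ q)
      ∂(ProbabilityTheory.stdGaussian (EuclideanSpace ℝ α)) ≤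
    ENNReal.ofReal ((∫ x, ‖∑ j, c j * Complex.exp (⟪x, τ j⟫ * Complex.I)‖ ^ s
      ∂(ProbabilityTheory.stdGaussian (EuclideanSpace ℝ α))) ^ (q / s)) := by
  have hs1 : 0 < s - 1 := by linarith
  have hs0 : 0 < s := by linarith
  have hq2 : 2 ≤ q := by rw [hq, le_div_iff₀ hs1]; linarith
  have hq0 : 0 < q := by linarith
  have hqs : 0 < q / s := by positivity
  set φ : (J → ℝ × EuclideanSpace ℝ α) → EuclideanSpace ℝ α → ℝ := fun P x =>
    ‖∑ j, c j * Complex.exp (((P j).1 - ⟪x, (P j).2⟫ : ℝ) : ℂ)‖ ^ q with hφ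
  set ψ : EuclideanSpace ℝ α → ℝ := fun x =>
    ‖∑ j, c j * Complex.exp (⟪x, τ j⟫ * Complex.I)‖ ^ s with hψ
  have hφc : Continuous (Function.uncurry φ) := by
    rw [hφ]
    refine Continuous.rpow_const ?_ (fun _ => Or.inr hq0.le)
    refine continuous_norm.comp (continuous_finsetSum _ fun j _ => ?_)
    fun_prop
  have hψc : Continuous ψ := by
    rw [hψ]
    refine Continuous.rpow_const ?_ (fun _ => Or.inr hs0.le)
    refine continuous_norm.comp (continuous_finsetSum _ fun j _ => ?_)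
    fun_prop
  have hψb : ∀ x, ‖ψ x‖ ≤ (∑ j, ‖c j‖) ^ s := by
    intro x
    rw [Real.norm_of_nonneg (by positivity)]
    refine Real.rpow_le_rpow (norm_nonneg _) ?_ hs0.le
    refine (norm_sum_le _ _).trans (Finset.sum_le_sum fun j _ => ?_)
    rw [norm_mul, Complex.norm_exp_ofReal_mul_I, mul_one]
  let f : BoundedContinuousFunction (EuclideanSpace ℝ α) ℝ :=
    BoundedContinuousFunction.ofNormedAddCommGroup ψ hψc _ hψb
  have hlimK : Tendsto (fun N : ℕ => (∫ x, ψ x ∂(nuN α N : Measure (EuclideanSpace ℝ α))) ^ (q / s))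
      atTop (𝓝 ((∫ x, ψ x ∂(gam α : Measure (EuclideanSpace ℝ α))) ^ (q / s))) := by
    have := (ProbabilityMeasure.tendsto_iff_forall_integral_tendsto.1 (tendsto_nuN (α := α))) f
    exact this.rpow_const (Or.inr hqs.le)
  have hres := lim_lemma (nuN α) (gam α) tendsto_nuN
    (fun N j => (PA l N (τ j), PB l N (τ j)))
    (fun j => (-((1 + l ^ 2) * ‖τ j‖ ^ 2 / 2), l • τ j)) ?_ φ hφc (fun P x => by positivity) ?_
    (fun N : ℕ => (∫ x, ψ x ∂(nuN α N : Measure (EuclideanSpace ℝ α))) ^ (q / s)) _ ?_ hlimK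
  · have e : (1 + l ^ 2) = s := by rw [hl]; ring
    simp only [e] at hres
    exact hres
  · rw [tendsto_pi_nhds]
    intro j
    exact (PA_tendsto l (τ j)).prodMk_nhds (PB_tendsto l (τ j))
  · intro N
    refine integrable_muN N _ ?_
    exact (hφc.comp (Continuous.prodMk_right _)).aestronglyMeasurable
  · have hev : ∀ᶠ N : ℕ in atTop, ∀ j, (∀ i, 0 < Real.cos (τ j i * (√(N : ℝ))⁻¹) +
        l * Real.sin (τ j i * (√(N : ℝ))⁻¹)) ∧ ∀ i, 0 < Real.cos (τ j i * (√(N : ℝ))⁻¹) +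
        (-l) * Real.sin (τ j i * (√(N : ℝ))⁻¹) := by
      rw [eventually_all]
      intro j
      exact (eventually_all.2 fun i => pos_ev l (τ j i)).and
        (eventually_all.2 fun i => pos_ev (-l) (τ j i))
    filter_upwards [hev, eventually_gt_atTop 0] with N hN hN0
    have hcube := cube' (ι := Fin N × α) h1 h2 hq hl c
      (fun j k => ((Real.cos (τ j k.2 * (√(N : ℝ))⁻¹) : ℝ) : ℂ))
      (fun j k => Complex.I * ((Real.sin (τ j k.2 * (√(N : ℝ))⁻¹) : ℝ) : ℂ))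
    have hnu : ((nuN α N : ProbabilityMeasure (EuclideanSpace ℝ α)) :
        Measure (EuclideanSpace ℝ α)) = muN α N := rfl
    have k1 : ∀ ε : Fin N × α → Bool,
        ∑ j, c j * Complex.exp ((PA l N (τ j) - ⟪SN α N ε, PB l N (τ j)⟫ : ℝ) : ℂ) =
        ∑ j, c j * ∏ k, (((Real.cos (τ j k.2 * (√(N : ℝ))⁻¹) : ℝ) : ℂ) +
          Complex.I * l * sg (ε k) * (Complex.I * ((Real.sin (τ j k.2 * (√(N : ℝ))⁻¹) : ℝ) : ℂ))) :=
      fun ε => Finset.sum_congr rfl fun j _ => by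
        rw [prod_formula l N hN0 (τ j) (hN j).1 (hN j).2 ε]
    have k2 : ∀ ε : Fin N × α → Bool,
        ∑ j, c j * Complex.exp (⟪SN α N ε, τ j⟫ * Complex.I) =
        ∑ j, c j * ∏ k, (((Real.cos (τ j k.2 * (√(N : ℝ))⁻¹) : ℝ) : ℂ) +
          sg (ε k) * (Complex.I * ((Real.sin (τ j k.2 * (√(N : ℝ))⁻¹) : ℝ) : ℂ))) :=
      fun ε => Finset.sum_congr rfl fun j _ => by
        rw [prod_formula' N (τ j) ε]
    have e1 : ∫ x, φ (fun j => (PA l N (τ j), PB l N (τ j))) x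
        ∂(nuN α N : Measure (EuclideanSpace ℝ α)) =
        (∑ ε : Fin N × α → Bool, ‖∑ j, c j * ∏ k, (((Real.cos (τ j k.2 * (√(N : ℝ))⁻¹) : ℝ) : ℂ) +
          Complex.I * l * sg (ε k) * (Complex.I * ((Real.sin (τ j k.2 * (√(N : ℝ))⁻¹) : ℝ) : ℂ)))‖ ^ q) /
        2 ^ Fintype.card (Fin N × α) := by
      rw [hnu, int_muN, smul_eq_mul, inv_mul_eq_div]
      refine congrArg (· / (2 : ℝ) ^ Fintype.card (Fin N × α)) ?_
      refine Finset.sum_congr rfl fun ε _ => ?_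
      rw [← k1 ε]
    have e2 : ∫ x, ψ x ∂(nuN α N : Measure (EuclideanSpace ℝ α)) =
        (∑ ε : Fin N × α → Bool, ‖∑ j, c j * ∏ k, (((Real.cos (τ j k.2 * (√(N : ℝ))⁻¹) : ℝ) : ℂ) +
          sg (ε k) * (Complex.I * ((Real.sin (τ j k.2 * (√(N : ℝ))⁻¹) : ℝ) : ℂ)))‖ ^ s) /
        2 ^ Fintype.card (Fin N × α) := by
      rw [hnu, int_muN, smul_eq_mul, inv_mul_eq_div]
      refine congrArg (· / (2 : ℝ) ^ Fintype.card (Fin N × α)) ?_
      refine Finset.sum_congr rfl fun ε _ => ?_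
      rw [← k2 ε]
    rw [e1, e2]
    exact hcube

end Pool.Agent.N551.BK
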