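import Mathlib
import Pool.Agent.N551.BK.Gauss

set_option autoImplicit false

/-! The measure `exp (-π |u|²) du`, density of exponential sums in `L²`. -/

namespace Pool.Agent.N551.BK

open MeasureTheory Filter Topology
open scoped ENNReal RealInnerProductSpace

variable {α : Type*} [Fintype α]

/-- the measure `exp (-π |u|²) du` -/
noncomputable def G0 (α : Type*) [Fintype α] : Measure (EuclideanSpace ℝ α) :=
  volume.withDensity (fun u => ENNReal.ofReal (Real.exp (-Real.pi * ‖u‖ ^ 2)))

lemma dens_meas : Measurable (fun u : EuclideanSpace ℝ α =>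
    ENNReal.ofReal (Real.exp (-Real.pi * ‖u‖ ^ 2))) := by fun_prop

lemma integrable_gauss {b : ℝ} (hb : 0 < b) :
    Integrable (fun u : EuclideanSpace ℝ α => Real.exp (-b * ‖u‖ ^ 2)) := by
  have h := GaussianFourier.integrable_cexp_neg_mul_sq_norm_add (V := EuclideanSpace ℝ α)
    (b := (b : ℂ)) (by simpa using hb) 0 0
  have h2 := h.norm
  refine h2.congr (Eventually.of_forall fun u => ?_)
  simp only [zero_mul, add_zero, Complex.norm_exp]
  congr 1
  rw [← Complex.ofReal_pow, ← Complex.ofReal_neg, ← Complex.ofReal_mul, Complex.ofReal_re]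

lemma integral_gauss {b : ℝ} (hb : 0 < b) :
    ∫ u : EuclideanSpace ℝ α, Real.exp (-b * ‖u‖ ^ 2) =
      (Real.pi / b) ^ ((Fintype.card α : ℝ) / 2) := by
  rw [GaussianFourier.integral_rexp_neg_mul_sq_norm hb]
  simp

instance : IsProbabilityMeasure (G0 α) := by
  constructor
  rw [G0, withDensity_apply _ MeasurableSet.univ, Measure.restrict_univ,
    ← ofReal_integral_eq_lintegral_ofReal (integrable_gauss Real.pi_pos)
      (Eventually.of_forall fun u => (Real.exp_pos _).le), integral_gauss Real.pi_pos,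
    div_self Real.pi_pos.ne', Real.one_rpow, ENNReal.ofReal_one]

lemma lint_G0 (f : EuclideanSpace ℝ α → ℝ≥0∞) :
    ∫⁻ u, f u ∂(G0 α) = ∫⁻ u, ENNReal.ofReal (Real.exp (-Real.pi * ‖u‖ ^ 2)) * f u := by
  rw [G0, lintegral_withDensity_eq_lintegral_mul_non_measurable _ dens_meas
    (Eventually.of_forall fun u => ENNReal.ofReal_lt_top)]
  rfl

lemma int_G0 {F : Type*} [NormedAddCommGroup F] [NormedSpace ℝ F]
    (f : EuclideanSpace ℝ α → F) :
    ∫ u, f u ∂(G0 α) = ∫ u, Real.exp (-Real.pi * ‖u‖ ^ 2) • f u := by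
  rw [G0, integral_withDensity_eq_integral_toReal_smul dens_meas
    (Eventually.of_forall fun u => ENNReal.ofReal_lt_top)]
  refine integral_congr_ae (Eventually.of_forall fun u => ?_)
  simp only [ENNReal.toReal_ofReal (Real.exp_pos _).le]

theorem gam_eq : ProbabilityTheory.stdGaussian (EuclideanSpace ℝ α) =
    (G0 α).map (fun u => √(2 * Real.pi) • u) := by
  apply Measure.ext_of_charFun
  funext t
  rw [ProbabilityTheory.charFun_stdGaussian, charFun_apply, integral_map (by fun_prop)
    (by fun_prop), int_G0]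
  have h := GaussianFourier.integral_cexp_neg_mul_sq_norm_add (V := EuclideanSpace ℝ α)
    (b := (Real.pi : ℂ)) (by simpa using Real.pi_pos) (Complex.I * √(2 * Real.pi)) t
  have e1 : ∀ u : EuclideanSpace ℝ α, Real.exp (-Real.pi * ‖u‖ ^ 2) •
      Complex.exp (⟪√(2 * Real.pi) • u, t⟫ * Complex.I) =
      Complex.exp (-Real.pi * ‖u‖ ^ 2 + Complex.I * √(2 * Real.pi) * ⟪t, u⟫) := by
    intro u
    rw [Complex.real_smul, Complex.ofReal_exp, ← Complex.exp_add, real_inner_smul_left,
      real_inner_comm]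
    congr 1
    push_cast
    ring
  simp only [e1]
  rw [h, div_self (by exact_mod_cast Real.pi_pos.ne'), Complex.one_cpow, one_mul]
  congr 1
  have e2 : (Complex.I * (√(2 * Real.pi) : ℝ)) ^ 2 = -(2 * Real.pi : ℝ) := by
    rw [mul_pow, Complex.I_sq, ← Complex.ofReal_pow, Real.sq_sqrt (by positivity)]
    ring
  rw [e2]
  have : (Real.pi : ℂ) ≠ 0 := by exact_mod_cast Real.pi_pos.ne'
  push_cast
  field_simp
  ring

/-- the characters -/
noncomputable def ch (σ : EuclideanSpace ℝ α) (u : EuclideanSpace ℝ α) : ℂ :=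
  Complex.exp (2 * Real.pi * ⟪u, σ⟫ * Complex.I)

lemma ch_cont (σ : EuclideanSpace ℝ α) : Continuous (ch σ) := by
  unfold ch; fun_prop

lemma ch_norm (σ u : EuclideanSpace ℝ α) : ‖ch σ u‖ = 1 := by
  unfold ch
  have : (2 * Real.pi * ⟪u, σ⟫ * Complex.I : ℂ) = ((2 * Real.pi * ⟪u, σ⟫ : ℝ) : ℂ) * Complex.I := by
    push_cast; ring
  rw [this, Complex.norm_exp_ofReal_mul_I]

lemma ch_memLp (σ : EuclideanSpace ℝ α) (p : ℝ≥0∞) : MemLp (ch σ) p (G0 α) :=
  MemLp.of_bound (ch_cont σ).aestronglyMeasurable 1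
    (Eventually.of_forall fun u => (ch_norm σ u).le)

lemma ch_conj (σ u : EuclideanSpace ℝ α) : (starRingEnd ℂ) (ch σ u) = ch (-σ) u := by
  unfold ch
  rw [← Complex.exp_conj]
  congr 1
  simp only [map_mul, Complex.conj_I, Complex.conj_ofReal, map_ofNat, inner_neg_right]
  push_cast
  ring

/-- a real function orthogonal to all characters vanishes -/
lemma real_zero (a : EuclideanSpace ℝ α → ℝ) (ha : Integrable a (G0 α))
    (h : ∀ σ, ∫ u, ch σ u * (a u : ℂ) ∂(G0 α) = 0) : a =ᵐ[G0 α] 0 := by
  set μ : Measure (EuclideanSpace ℝ α) := (G0 α).withDensity (fun u => ENNReal.ofReal (a u))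
  set ν : Measure (EuclideanSpace ℝ α) := (G0 α).withDensity (fun u => ENNReal.ofReal (-a u))
  haveI : IsFiniteMeasure μ := isFiniteMeasure_withDensity_ofReal ha.2
  haveI : IsFiniteMeasure ν := isFiniteMeasure_withDensity_ofReal ha.neg.2
  have hcf : μ = ν := by
    apply Measure.ext_of_charFun
    funext t
    rw [charFun_apply, charFun_apply]
    have i1 : ∫ x, Complex.exp (⟪x, t⟫ * Complex.I) ∂μ =
        ∫ x, (max (a x) 0) • Complex.exp (⟪x, t⟫ * Complex.I) ∂(G0 α) := by
      rw [integral_withDensity_eq_integral_toReal_smul₀ ha.aemeasurable.ennreal_ofReal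
        (Eventually.of_forall fun u => ENNReal.ofReal_lt_top)]
      refine integral_congr_ae (Eventually.of_forall fun u => ?_)
      simp only [ENNReal.toReal_ofReal']
    have i2 : ∫ x, Complex.exp (⟪x, t⟫ * Complex.I) ∂ν =
        ∫ x, (max (-a x) 0) • Complex.exp (⟪x, t⟫ * Complex.I) ∂(G0 α) := by
      have := integral_withDensity_eq_integral_toReal_smul₀ (μ := G0 α)
        (f := fun u => ENNReal.ofReal (-a u)) ha.neg.aemeasurable.ennreal_ofReal
        (Eventually.of_forall fun u => ENNReal.ofReal_lt_top)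
        (fun x => Complex.exp (⟪x, t⟫ * Complex.I))
      refine this.trans ?_
      refine integral_congr_ae (Eventually.of_forall fun u => ?_)
      simp only [ENNReal.toReal_ofReal']
    rw [i1, i2, ← sub_eq_zero]
    have hexp : AEStronglyMeasurable (fun x : EuclideanSpace ℝ α =>
        Complex.exp (⟪x, t⟫ * Complex.I)) (G0 α) := by
      have : Continuous (fun x : EuclideanSpace ℝ α => Complex.exp (⟪x, t⟫ * Complex.I)) := by
        fun_prop
      exact this.aestronglyMeasurable
    have hb : ∀ (f : EuclideanSpace ℝ α → ℝ), Integrable f (G0 α) →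
        Integrable (fun x => f x • Complex.exp (⟪x, t⟫ * Complex.I)) (G0 α) := by
      intro f hf
      refine Integrable.mono' hf.norm (hf.aestronglyMeasurable.smul hexp)
        (Eventually.of_forall fun u => ?_)
      rw [norm_smul, Complex.norm_exp_ofReal_mul_I, mul_one]
    rw [← integral_sub (hb _ ha.pos_part) (hb _ ha.neg_part)]
    have h2 := h ((2 * Real.pi)⁻¹ • t)
    rw [← h2]
    refine integral_congr_ae (Eventually.of_forall fun u => ?_)
    simp only
    have hmm : max (a u) 0 - max (-a u) 0 = a u := by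
      rcases le_total 0 (a u) with h4 | h4
      · rw [max_eq_left h4, max_eq_right (by linarith), sub_zero]
      · rw [max_eq_right h4, max_eq_left (by linarith)]; ring
    rw [← sub_smul, hmm, Complex.real_smul, mul_comm, ch, real_inner_smul_right]
    congr 2
    have : (Real.pi : ℂ) ≠ 0 := by exact_mod_cast Real.pi_pos.ne'
    push_cast
    field_simp
  have h3 : (fun u => ENNReal.ofReal (a u)) =ᵐ[G0 α] fun u => ENNReal.ofReal (-a u) := by
    refine (withDensity_eq_iff ha.aemeasurable.ennreal_ofReal ha.neg.aemeasurable.ennreal_ofReal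
      ?_).1 hcf
    have := ha.2
    rw [← lt_top_iff_ne_top]
    refine lt_of_le_of_lt (lintegral_mono fun u => ?_) this
    rw [← ofReal_norm_eq_enorm]
    exact ENNReal.ofReal_le_ofReal (Real.le_norm_self _)
  filter_upwards [h3] with u hu
  rcases le_total 0 (a u) with h4 | h4
  · have : ENNReal.ofReal (-a u) = 0 := ENNReal.ofReal_of_nonpos (by linarith)
    rw [this, ENNReal.ofReal_eq_zero] at hu
    exact le_antisymm hu h4
  · have : ENNReal.ofReal (a u) = 0 := ENNReal.ofReal_of_nonpos h4
    rw [this] at hu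
    have h5 := ENNReal.ofReal_eq_zero.1 hu.symm
    have : a u = 0 := by linarith
    exact this

/-- the characters as elements of `L²` -/
noncomputable def chL (σ : EuclideanSpace ℝ α) : MeasureTheory.Lp ℂ 2 (G0 α) := (ch_memLp σ 2).toLp (ch σ)

lemma ch_mul_int {h : EuclideanSpace ℝ α → ℂ} (hh : Integrable h (G0 α))
    (σ : EuclideanSpace ℝ α) : Integrable (fun u => ch σ u * h u) (G0 α) := by
  refine Integrable.mono' hh.norm ((ch_cont σ).aestronglyMeasurable.mul hh.aestronglyMeasurable)
    (Eventually.of_forall fun u => ?_)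
  rw [norm_mul, ch_norm, one_mul]

lemma cplx_zero (h : EuclideanSpace ℝ α → ℂ) (hint : Integrable h (G0 α))
    (h1 : ∀ σ, ∫ u, ch σ u * h u ∂(G0 α) = 0) : h =ᵐ[G0 α] 0 := by
  have h2 : ∀ σ, ∫ u, ch σ u * (starRingEnd ℂ) (h u) ∂(G0 α) = 0 := by
    intro σ
    have := congrArg (starRingEnd ℂ) (h1 (-σ))
    rw [← integral_conj, map_zero] at this
    rw [← this]
    refine integral_congr_ae (Eventually.of_forall fun u => ?_)
    simp only [map_mul, ch_conj, neg_neg]
  have hcint : Integrable (fun u => (starRingEnd ℂ) (h u)) (G0 α) := by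
    refine Integrable.mono' hint.norm
      (Complex.continuous_conj.comp_aestronglyMeasurable hint.aestronglyMeasurable)
      (Eventually.of_forall fun u => ?_)
    rw [RCLike.norm_conj]
  have hre : (fun u => (h u).re) =ᵐ[G0 α] 0 := by
    refine real_zero _ hint.re fun σ => ?_
    have e : ∀ u, ch σ u * (((h u).re : ℝ) : ℂ) =
        (1 / 2 : ℂ) * (ch σ u * h u + ch σ u * (starRingEnd ℂ) (h u)) := by
      intro u
      have : h u + (starRingEnd ℂ) (h u) = 2 * (((h u).re : ℝ) : ℂ) := by
        rw [Complex.add_conj]; push_cast; ring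
      rw [← mul_add, this]; ring
    simp only [e]
    rw [integral_const_mul, integral_add (ch_mul_int hint σ) (ch_mul_int hcint σ), h1, h2]
    simp
  have him : (fun u => (h u).im) =ᵐ[G0 α] 0 := by
    refine real_zero _ hint.im fun σ => ?_
    have e : ∀ u, ch σ u * (((h u).im : ℝ) : ℂ) =
        (-Complex.I / 2 : ℂ) * (ch σ u * h u - ch σ u * (starRingEnd ℂ) (h u)) := by
      intro u
      have : h u - (starRingEnd ℂ) (h u) = 2 * (((h u).im : ℝ) : ℂ) * Complex.I := by
        rw [Complex.sub_conj]; push_cast; ring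
      rw [← mul_sub, this]
      linear_combination ((ch σ u) * (((h u).im : ℝ) : ℂ)) * Complex.I_mul_I
    simp only [e]
    rw [integral_const_mul, integral_sub (ch_mul_int hint σ) (ch_mul_int hcint σ), h1, h2]
    simp
  filter_upwards [hre, him] with u h3 h4
  exact Complex.ext h3 h4

lemma span_dense : (Submodule.span ℂ (Set.range (chL (α := α)))).topologicalClosure = ⊤ := by
  rw [Submodule.topologicalClosure_eq_top_iff, Submodule.eq_bot_iff]
  intro h hh
  have hm : MemLp h 2 (G0 α) := MeasureTheory.Lp.memLp h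
  have hint : Integrable h (G0 α) := hm.integrable (by norm_num)
  have h1 : ∀ σ, ∫ u, ch σ u * h u ∂(G0 α) = 0 := by
    intro σ
    have := Submodule.inner_right_of_mem_orthogonal
      (Submodule.subset_span (Set.mem_range_self (-σ))) hh
    rw [L2.inner_def] at this
    rw [← this]
    refine integral_congr_ae ?_
    filter_upwards [(ch_memLp (-σ) 2).coeFn_toLp] with u hu
    rw [chL, hu, RCLike.inner_apply, ch_conj, neg_neg]
    ring
  exact (MeasureTheory.Lp.eq_zero_iff_ae_eq_zero).2 (cplx_zero h hint h1)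

lemma approx {α : Type} [Fintype α] (h : EuclideanSpace ℝ α → ℂ) (hh : MemLp h 2 (G0 α))
    {δ : ℝ} (hδ : 0 < δ) :
    ∃ (J : Type) (_ : Fintype J) (c : J → ℂ) (σ : J → EuclideanSpace ℝ α),
      eLpNorm (fun u => h u - ∑ j, c j * ch (σ j) u) 2 (G0 α) ≤ ENNReal.ofReal δ := by
  have hd : hh.toLp h ∈ closure (Submodule.span ℂ (Set.range (chL (α := α))) :
      Set (MeasureTheory.Lp ℂ 2 (G0 α))) := by
    rw [← Submodule.topologicalClosure_coe, span_dense]
    trivial
  obtain ⟨P, hP, hPd⟩ := Metric.mem_closure_iff.1 hd δ hδ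
  rw [SetLike.mem_coe, Finsupp.mem_span_range_iff_exists_finsupp] at hP
  obtain ⟨c, hc⟩ := hP
  refine ⟨c.support, inferInstance, fun j => c j, fun j => j, ?_⟩
  rw [dist_eq_norm, MeasureTheory.Lp.norm_def] at hPd
  have e : (fun u => h u - ∑ j : c.support, c j * ch (j : EuclideanSpace ℝ α) u) =ᵐ[G0 α]
      (hh.toLp h - P : MeasureTheory.Lp ℂ 2 (G0 α)) := by
    have hs : P = ∑ j ∈ c.support, c j • chL j := hc.symm
    have h1 : (P : EuclideanSpace ℝ α → ℂ) =ᵐ[G0 α] fun u => ∑ j ∈ c.support, c j * ch j u := by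
      rw [hs]
      have h2 : ∀ s : Finset (EuclideanSpace ℝ α),
          ((∑ j ∈ s, c j • chL j : MeasureTheory.Lp ℂ 2 (G0 α)) : EuclideanSpace ℝ α → ℂ)
            =ᵐ[G0 α] fun u => ∑ j ∈ s, c j * ch j u := by
        classical
        intro s
        induction s using Finset.induction_on with
        | empty =>
          simp only [Finset.sum_empty]
          exact MeasureTheory.Lp.coeFn_zero _ _ _
        | insert a s ha ih =>
          rw [Finset.sum_insert ha]
          filter_upwards [MeasureTheory.Lp.coeFn_add (c a • chL a) (∑ j ∈ s, c j • chL j), ih,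
            MeasureTheory.Lp.coeFn_smul (c a) (chL a), (ch_memLp a 2).coeFn_toLp] with u h3 h4 h5 h6
          rw [h3, Pi.add_apply, h4, h5, Pi.smul_apply, smul_eq_mul, Finset.sum_insert ha, chL, h6]
      exact h2 _
    filter_upwards [MeasureTheory.Lp.coeFn_sub (hh.toLp h) P, hh.coeFn_toLp, h1] with u h2 h3 h4
    rw [h2, Pi.sub_apply, h3, h4]
    congr 1
    exact Finset.sum_coe_sort c.support (fun j => c j * ch j u)
  rw [eLpNorm_congr_ae e]
  rw [ENNReal.le_ofReal_iff_toReal_le (MeasureTheory.Lp.eLpNorm_ne_top _) hδ.le]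
  exact hPd.le

end Pool.Agent.N551.BK
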