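import Mathlib
import Pool.Agent.N551.BK.Dens

set_option autoImplicit false

/-! The operator with Gaussian kernel on `L²` of the Gaussian measure. -/

namespace Pool.Agent.N551.BK

open MeasureTheory Filter Topology
open scoped ENNReal RealInnerProductSpace

variable {α : Type} [Fintype α]

/-- Beckner's inequality for exponential sums with respect to `G0` -/
lemma beck {s q l : ℝ} (h1 : 1 < s) (h2 : s ≤ 2) (hq : q = s / (s - 1))
    (hl : l ^ 2 = s - 1) {J : Type} [Fintype J] (c : J → ℂ) (σ : J → EuclideanSpace ℝ α) :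
    ∫⁻ v, ‖∑ j, c j * Complex.exp
        ((-(Real.pi * s * ‖σ j‖ ^ 2) - 2 * Real.pi * l * ⟪v, σ j⟫ : ℝ) : ℂ)‖ₑ ^ q ∂(G0 α) ≤
    (eLpNorm (fun u => ∑ j, c j * ch (σ j) u) (ENNReal.ofReal s) (G0 α)) ^ q := by
  classical
  have hs0 : 0 < s := by linarith
  have hq0 : 0 < q := by rw [hq]; have : 0 < s - 1 := by linarith
                         positivity
  have h := gauss_ineq h1 h2 hq hl c (fun j => √(2 * Real.pi) • σ j)
  rw [gam_eq, lintegral_map (by fun_prop) (by fun_prop), integral_map (by fun_prop)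
    (by
      have : Continuous (fun x : EuclideanSpace ℝ α => ‖∑ j, c j * Complex.exp
          (⟪x, √(2 * Real.pi) • σ j⟫ * Complex.I)‖ ^ s) := by
        refine Continuous.rpow_const (by fun_prop) fun x => Or.inr hs0.le
      exact this.aestronglyMeasurable)] at h
  have hpi : √(2 * Real.pi) ^ 2 = 2 * Real.pi := Real.sq_sqrt (by positivity)
  have e1 : ∀ v : EuclideanSpace ℝ α, ENNReal.ofReal (‖∑ j, c j *
      Complex.exp ((-(s * ‖√(2 * Real.pi) • σ j‖ ^ 2 / 2) -
        ⟪√(2 * Real.pi) • v, l • √(2 * Real.pi) • σ j⟫ : ℝ) : ℂ)‖ ^ q) =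
      ‖∑ j, c j * Complex.exp
        ((-(Real.pi * s * ‖σ j‖ ^ 2) - 2 * Real.pi * l * ⟪v, σ j⟫ : ℝ) : ℂ)‖ₑ ^ q := by
    intro v
    rw [← ENNReal.ofReal_rpow_of_nonneg (norm_nonneg _) hq0.le, ofReal_norm]
    congr 2
    refine Finset.sum_congr rfl fun j _ => ?_
    congr 3
    rw [norm_smul, Real.norm_of_nonneg (Real.sqrt_nonneg _), mul_pow, hpi, real_inner_smul_left,
      real_inner_smul_right, real_inner_smul_right]
    linear_combination (-(l * ⟪v, σ j⟫)) * hpi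
  have e2 : ∀ u : EuclideanSpace ℝ α, (∑ j, c j *
      Complex.exp (⟪√(2 * Real.pi) • u, √(2 * Real.pi) • σ j⟫ * Complex.I)) =
      ∑ j, c j * ch (σ j) u := by
    intro u
    refine Finset.sum_congr rfl fun j _ => ?_
    rw [ch]
    congr 3
    rw [real_inner_smul_left, real_inner_smul_right, ← mul_assoc, ← sq, hpi]
    push_cast
    ring
  simp only [e1, e2] at h
  refine h.trans (le_of_eq ?_)
  have hcont : Continuous (fun u => ∑ j, c j * ch (σ j) u) := by
    refine continuous_finsetSum _ fun j _ => continuous_const.mul (ch_cont _)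
  have hm : MemLp (fun u => ∑ j, c j * ch (σ j) u) (ENNReal.ofReal s) (G0 α) := by
    refine memLp_finsetSum _ fun j _ => (ch_memLp (σ j) _).const_mul _
  rw [hm.eLpNorm_eq_integral_rpow_norm (by simpa using hs0) ENNReal.ofReal_ne_top,
    ENNReal.toReal_ofReal hs0.le, ENNReal.ofReal_rpow_of_nonneg (by positivity) hq0.le,
    ← Real.rpow_mul (by positivity)]
  congr 2
  field_simp

/-- the kernel -/
noncomputable def kv (s l : ℝ) (v u : EuclideanSpace ℝ α) : ℂ :=
  ((s ^ (-((Fintype.card α : ℝ) / 2)) *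
    Real.exp (Real.pi * ((s - 1) / s) * (‖u‖ ^ 2 + ‖v‖ ^ 2)) : ℝ) : ℂ) *
    Complex.exp (2 * Real.pi * (l / s) * ⟪u, v⟫ * Complex.I)

lemma kv_cont (s l : ℝ) (v : EuclideanSpace ℝ α) : Continuous (kv s l v) := by
  unfold kv
  fun_prop

lemma kv_memLp {s : ℝ} (l : ℝ) (h0 : 0 < s) (h2 : s < 2) (v : EuclideanSpace ℝ α) :
    MemLp (kv s l v) 2 (G0 α) := by
  rw [memLp_two_iff_integrable_sq_norm (kv_cont s l v).aestronglyMeasurable]
  have hn : ∀ u, ‖kv s l v u‖ ^ 2 = (s ^ (-((Fintype.card α : ℝ) / 2)) *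
    Real.exp (Real.pi * ((s - 1) / s) * (‖u‖ ^ 2 + ‖v‖ ^ 2))) ^ 2 := by
    intro u
    rw [kv, norm_mul]
    have : (2 * Real.pi * (l / s) * ⟪u, v⟫ * Complex.I : ℂ) =
      ((2 * Real.pi * (l / s) * ⟪u, v⟫ : ℝ) : ℂ) * Complex.I := by push_cast; ring
    rw [this, Complex.norm_exp_ofReal_mul_I, mul_one, Complex.norm_real, Real.norm_eq_abs,
      sq_abs]
  simp only [hn]
  rw [G0, integrable_withDensity_iff_integrable_smul' dens_meas
    (Eventually.of_forall fun u => ENNReal.ofReal_lt_top)]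
  have hb : 0 < Real.pi * ((2 - s) / s) := by
    have : 0 < 2 - s := by linarith
    have := Real.pi_pos
    positivity
  refine ((integrable_gauss hb).const_mul ((s ^ (-((Fintype.card α : ℝ) / 2))) ^ 2 *
    Real.exp (2 * (Real.pi * ((s - 1) / s) * ‖v‖ ^ 2)))).congr
    (Eventually.of_forall fun u => ?_)
  simp only [smul_eq_mul, ENNReal.toReal_ofReal (Real.exp_pos _).le]
  rw [mul_pow, ← Real.exp_nat_mul, mul_assoc, ← Real.exp_add,
    mul_left_comm (Real.exp (-Real.pi * ‖u‖ ^ 2)), ← Real.exp_add]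
  congr 2
  push_cast
  field_simp
  ring

lemma kv_ch {s l : ℝ} (h0 : 0 < s) (hl : l ^ 2 = s - 1) (v σ : EuclideanSpace ℝ α) :
    ∫ u, ch σ u * kv s l v u ∂(G0 α) =
      Complex.exp ((-(Real.pi * s * ‖σ‖ ^ 2) - 2 * Real.pi * l * ⟪v, σ⟫ : ℝ) : ℂ) := by
  rw [int_G0]
  have hs : (s : ℂ) ≠ 0 := by exact_mod_cast h0.ne'
  have hpi : (Real.pi : ℂ) ≠ 0 := by exact_mod_cast Real.pi_pos.ne'
  have e1 : ∀ u : EuclideanSpace ℝ α, Real.exp (-Real.pi * ‖u‖ ^ 2) • (ch σ u * kv s l v u) =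
      (((s ^ (-((Fintype.card α : ℝ) / 2)) * Real.exp (Real.pi * ((s - 1) / s) * ‖v‖ ^ 2) : ℝ) : ℂ))
      * Complex.exp (-((Real.pi / s : ℝ) : ℂ) * ‖u‖ ^ 2 + (2 * Real.pi * Complex.I) *
        ⟪σ + (l / s) • v, u⟫) := by
    intro u
    rw [Complex.real_smul, ch, kv, Complex.ofReal_mul, Complex.ofReal_mul, Complex.ofReal_exp,
      Complex.ofReal_exp, Complex.ofReal_exp]
    have : ∀ a b c d : ℂ, a * (b * (c * d)) = c * (a * (b * d)) := by intros; ring
    rw [show ∀ a b c d e : ℂ, a * (b * (c * d * e)) = c * (a * b * d * e) by intros; ring,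
      ← Complex.exp_add, ← Complex.exp_add, ← Complex.exp_add,
      mul_assoc ((s ^ (-((Fintype.card α : ℝ) / 2)) : ℝ) : ℂ), ← Complex.exp_add]
    congr 2
    rw [inner_add_left, real_inner_smul_left, real_inner_comm σ u, real_inner_comm v u]
    push_cast
    field_simp
    ring
  simp only [e1]
  rw [integral_const_mul]
  have h := GaussianFourier.integral_cexp_neg_mul_sq_norm_add (V := EuclideanSpace ℝ α)
    (b := ((Real.pi / s : ℝ) : ℂ)) (by
      rw [Complex.ofReal_re]; have := Real.pi_pos; positivity) (2 * Real.pi * Complex.I)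
      (σ + (l / s) • v)
  rw [h]
  have e2 : (Real.pi : ℂ) / ((Real.pi / s : ℝ) : ℂ) = (s : ℂ) := by
    push_cast
    field_simp
  have e3 : ((s : ℂ)) ^ ((Module.finrank ℝ (EuclideanSpace ℝ α) : ℂ) / 2) =
      ((s ^ ((Fintype.card α : ℝ) / 2) : ℝ) : ℂ) := by
    rw [Complex.ofReal_cpow h0.le]
    simp
  rw [e2, e3]
  have e4 : ((s ^ (-((Fintype.card α : ℝ) / 2)) : ℝ) : ℂ) *
      ((s ^ ((Fintype.card α : ℝ) / 2) : ℝ) : ℂ) = 1 := by
    rw [← Complex.ofReal_mul, ← Real.rpow_add h0]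
    simp
  rw [Complex.ofReal_mul, show ∀ a b c d : ℂ, a * b * (c * d) = (a * c) * (b * d) by
    intros; ring, e4, one_mul, Complex.ofReal_exp, ← Complex.exp_add]
  congr 1
  have hn : ‖σ + (l / s) • v‖ ^ 2 = ‖σ‖ ^ 2 + 2 * ((l / s) * ⟪v, σ⟫) + (l / s) ^ 2 * ‖v‖ ^ 2 := by
    rw [norm_add_sq_real, real_inner_smul_right, norm_smul, mul_pow, Real.norm_eq_abs, sq_abs,
      real_inner_comm]
  rw [← Complex.ofReal_pow, hn]
  have hl' : (l : ℂ) ^ 2 = s - 1 := by exact_mod_cast hl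
  push_cast
  field_simp
  simp only [Complex.I_sq]
  linear_combination (‖v‖ : ℂ) ^ 2 * (-4 : ℂ) * hl'

lemma prod_int {f g : EuclideanSpace ℝ α → ℂ} (hf : MemLp f 2 (G0 α)) (hg : MemLp g 2 (G0 α)) :
    Integrable (fun u => f u * g u) (G0 α) := hf.integrable_mul hg

lemma cs_bound {f g : EuclideanSpace ℝ α → ℂ} (hf : MemLp f 2 (G0 α)) (hg : MemLp g 2 (G0 α)) :
    ‖∫ u, f u * g u ∂(G0 α)‖ₑ ≤ eLpNorm f 2 (G0 α) * eLpNorm g 2 (G0 α) := by
  refine (enorm_integral_le_lintegral_enorm _).trans ?_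
  rw [← eLpNorm_one_eq_lintegral_enorm]
  have : ENNReal.HolderTriple (2 : ℝ≥0∞) 2 1 := ⟨by
    rw [inv_one]; exact ENNReal.inv_two_add_inv_two⟩
  have h := eLpNorm_smul_le_mul_eLpNorm (p := 2) (q := 2) (r := 1) hg.1 hf.1
  exact h

/-- **Beckner's inequality** on Gauss space, for `L²` functions. -/
theorem opT {s q l : ℝ} (h1 : 1 < s) (h2 : s < 2) (hq : q = s / (s - 1))
    (hl : l ^ 2 = s - 1) (h : EuclideanSpace ℝ α → ℂ) (hh : MemLp h 2 (G0 α)) :
    ∫⁻ v, ‖∫ u, h u * kv s l v u ∂(G0 α)‖ₑ ^ q ∂(G0 α) ≤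
      (eLpNorm h (ENNReal.ofReal s) (G0 α)) ^ q := by
  have hs0 : 0 < s := by linarith
  have hq0 : 0 < q := by rw [hq]; have : 0 < s - 1 := by linarith
                         positivity
  choose J hJ c σ hap using fun k : ℕ => approx h hh (δ := 1 / ((k : ℝ) + 1)) (by positivity)
  set P : ℕ → EuclideanSpace ℝ α → ℂ := fun k u => ∑ j, c k j * ch (σ k j) u with hP
  have hPm : ∀ k, MemLp (P k) 2 (G0 α) := fun k =>
    memLp_finsetSum _ fun j _ => (ch_memLp (σ k j) _).const_mul _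
  have hPs : ∀ k, MemLp (P k) (ENNReal.ofReal s) (G0 α) := fun k =>
    memLp_finsetSum _ fun j _ => (ch_memLp (σ k j) _).const_mul _
  have hδ : Tendsto (fun k : ℕ => ENNReal.ofReal (1 / ((k : ℝ) + 1))) atTop (𝓝 0) := by
    rw [← ENNReal.ofReal_zero]
    exact ENNReal.tendsto_ofReal tendsto_one_div_add_atTop_nhds_zero_nat
  set T : (EuclideanSpace ℝ α → ℂ) → EuclideanSpace ℝ α → ℂ :=
    fun f v => ∫ u, f u * kv s l v u ∂(G0 α) with hT
  have hTP : ∀ k v, T (P k) v = ∑ j, c k j * Complex.exp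
        ((-(Real.pi * s * ‖σ k j‖ ^ 2) - 2 * Real.pi * l * ⟪v, σ k j⟫ : ℝ) : ℂ) := by
    intro k v
    simp only [hT, hP]
    have : ∀ u, (∑ j, c k j * ch (σ k j) u) * kv s l v u =
        ∑ j, c k j * (ch (σ k j) u * kv s l v u) := by
      intro u
      rw [Finset.sum_mul]
      exact Finset.sum_congr rfl fun j _ => by ring
    simp only [this]
    rw [integral_finsetSum _ fun j _ => (prod_int (ch_memLp (σ k j) 2)
      (kv_memLp l hs0 h2 v)).const_mul _]
    refine Finset.sum_congr rfl fun j _ => ?_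
    rw [integral_const_mul, kv_ch hs0 hl]
  have hlim : ∀ v, Tendsto (fun k => T (P k) v) atTop (𝓝 (T h v)) := by
    intro v
    rw [tendsto_iff_edist_tendsto_0]
    have hb : ∀ k, edist (T (P k) v) (T h v) ≤
        ENNReal.ofReal (1 / ((k : ℝ) + 1)) * eLpNorm (kv s l v) 2 (G0 α) := by
      intro k
      rw [edist_comm, edist_eq_enorm_sub]
      have e : T h v - T (P k) v = ∫ u, (h u - P k u) * kv s l v u ∂(G0 α) := by
        simp only [hT]
        rw [← integral_sub (prod_int hh (kv_memLp l hs0 h2 v))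
          (prod_int (hPm k) (kv_memLp l hs0 h2 v))]
        refine integral_congr_ae (Eventually.of_forall fun u => ?_)
        simp only
        ring
      rw [e]
      refine (cs_bound (hh.sub (hPm k)) (kv_memLp l hs0 h2 v)).trans ?_
      exact mul_le_mul_left (hap k) _
    refine tendsto_of_tendsto_of_tendsto_of_le_of_le tendsto_const_nhds ?_
      (fun k => zero_le) hb
    have := ENNReal.Tendsto.mul_const (b := eLpNorm (kv s l v) 2 (G0 α)) hδ
      (Or.inr (kv_memLp l hs0 h2 v).2.ne)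
    rwa [zero_mul] at this
  have hmeas : ∀ k, Measurable (fun v => ‖T (P k) v‖ₑ ^ q) := by
    intro k
    simp only [hTP]
    fun_prop
  have hfat : ∫⁻ v, ‖T h v‖ₑ ^ q ∂(G0 α) ≤
      liminf (fun k => ∫⁻ v, ‖T (P k) v‖ₑ ^ q ∂(G0 α)) atTop := by
    refine le_trans (le_of_eq ?_) (lintegral_liminf_le hmeas)
    refine lintegral_congr fun v => ?_
    refine (Tendsto.liminf_eq ?_).symm
    exact (ENNReal.continuous_rpow_const.tendsto _).comp ((hlim v).enorm)
  refine hfat.trans ?_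
  have hle : ∀ k, ∫⁻ v, ‖T (P k) v‖ₑ ^ q ∂(G0 α) ≤
      (eLpNorm h (ENNReal.ofReal s) (G0 α) + ENNReal.ofReal (1 / ((k : ℝ) + 1))) ^ q := by
    intro k
    simp only [hTP]
    refine (beck h1 h2.le hq hl (c k) (σ k)).trans ?_
    refine ENNReal.rpow_le_rpow ?_ hq0.le
    have hs1 : (1 : ℝ≥0∞) ≤ ENNReal.ofReal s := by
      rw [← ENNReal.ofReal_one]; exact ENNReal.ofReal_le_ofReal h1.le
    have e : P k = h - (fun u => h u - P k u) := by
      funext u; simp
    have hsub : AEStronglyMeasurable (fun u => h u - P k u) (G0 α) := hh.1.sub (hPm k).1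
    calc eLpNorm (P k) (ENNReal.ofReal s) (G0 α)
        = eLpNorm (h - (fun u => h u - P k u)) (ENNReal.ofReal s) (G0 α) := by rw [← e]
      _ ≤ eLpNorm h (ENNReal.ofReal s) (G0 α) +
          eLpNorm (fun u => h u - P k u) (ENNReal.ofReal s) (G0 α) :=
        eLpNorm_sub_le hh.1 hsub hs1
      _ ≤ _ := by
        refine add_le_add le_rfl ((eLpNorm_le_eLpNorm_of_exponent_le ?_ hsub).trans (hap k))
        rw [← ENNReal.ofReal_ofNat]
        exact ENNReal.ofReal_le_ofReal h2.le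
  have hlim2 : Tendsto (fun k : ℕ => (eLpNorm h (ENNReal.ofReal s) (G0 α) +
      ENNReal.ofReal (1 / ((k : ℝ) + 1))) ^ q) atTop
      (𝓝 ((eLpNorm h (ENNReal.ofReal s) (G0 α)) ^ q)) := by
    refine (ENNReal.continuous_rpow_const.tendsto _).comp ?_
    have := (tendsto_const_nhds (x := eLpNorm h (ENNReal.ofReal s) (G0 α))).add hδ
    rwa [add_zero] at this
  rw [← hlim2.liminf_eq]
  exact liminf_le_liminf (Eventually.of_forall hle)

end Pool.Agent.N551.BK
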