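import Mathlib
import Pool.Agent.N551.BK.Op

set_option autoImplicit false

/-! The sharp Hausdorff-Young inequality (Babenko, Beckner). -/

namespace Pool.Agent.N551.BK

open MeasureTheory Filter Topology
open scoped ENNReal RealInnerProductSpace

variable {α : Type} [Fintype α]

/-- the Fourier integral -/
noncomputable def ft (f : EuclideanSpace ℝ α → ℂ) (y : EuclideanSpace ℝ α) : ℂ :=
  ∫ u, f u * Complex.exp (2 * Real.pi * ⟪u, y⟫ * Complex.I)

lemma exp_norm_one (u y : EuclideanSpace ℝ α) :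
    ‖Complex.exp (2 * Real.pi * ⟪u, y⟫ * Complex.I)‖ = 1 := by
  have : (2 * Real.pi * ⟪u, y⟫ * Complex.I : ℂ) = ((2 * Real.pi * ⟪u, y⟫ : ℝ) : ℂ) * Complex.I := by
    push_cast; ring
  rw [this, Complex.norm_exp_ofReal_mul_I]

lemma ft_integrable {f : EuclideanSpace ℝ α → ℂ} (hf : Integrable f) (y : EuclideanSpace ℝ α) :
    Integrable (fun u => f u * Complex.exp (2 * Real.pi * ⟪u, y⟫ * Complex.I)) := by
  have hc : Continuous (fun u : EuclideanSpace ℝ α =>
    Complex.exp (2 * Real.pi * ⟪u, y⟫ * Complex.I)) := by fun_prop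
  refine Integrable.mono' hf.norm (hf.1.mul hc.aestronglyMeasurable)
    (Eventually.of_forall fun u => ?_)
  rw [norm_mul, exp_norm_one, mul_one]

lemma ft_meas {f : EuclideanSpace ℝ α → ℂ} (hf : Integrable f) : Continuous (ft f) := by
  unfold ft
  refine continuous_of_dominated (bound := fun u => ‖f u‖) (fun y => (ft_integrable hf y).1)
    (fun y => Eventually.of_forall fun u => ?_) hf.norm (Eventually.of_forall fun u => by fun_prop)
  rw [norm_mul, exp_norm_one, mul_one]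

lemma lint_smul (g : EuclideanSpace ℝ α → ℝ≥0∞) {a : ℝ} (ha : 0 < a) :
    ∫⁻ v, g (a • v) = ENNReal.ofReal ((a ^ (Fintype.card α))⁻¹) * ∫⁻ y, g y := by
  have h := lintegral_map_equiv (μ := (volume : Measure (EuclideanSpace ℝ α))) g
    (Homeomorph.smul (isUnit_iff_ne_zero.2 ha.ne').unit :
    EuclideanSpace ℝ α ≃ₜ EuclideanSpace ℝ α).toMeasurableEquiv
  have h2 := Measure.map_addHaar_smul (volume : Measure (EuclideanSpace ℝ α)) ha.ne'
  have e : ⇑((Homeomorph.smul (isUnit_iff_ne_zero.2 ha.ne').unit :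
    EuclideanSpace ℝ α ≃ₜ EuclideanSpace ℝ α).toMeasurableEquiv) = (a • ·) := rfl
  rw [e, h2, lintegral_smul_measure] at h
  rw [abs_of_pos (by positivity), finrank_euclideanSpace] at h
  exact h.symm

/-- the constant -/
lemma const_id {s q l : ℝ} (h1 : 1 < s) (h2 : s < 2) (hq : q = s / (s - 1))
    (hl : l ^ 2 = s - 1) (hl0 : 0 < l) :
    s ^ (q / 2) * (l / s) = s ^ (q / (2 * s)) * q ^ (-(1 / 2) : ℝ) := by
  have hs0 : 0 < s := by linarith
  have hs1 : 0 < s - 1 := by linarith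
  have e1 : q / 2 = q / (2 * s) + 1 / 2 := by
    rw [hq]; field_simp; ring
  rw [e1, Real.rpow_add hs0, mul_assoc]
  congr 1
  rw [hq, Real.rpow_neg (by positivity), ← Real.inv_rpow (by positivity), inv_div,
    Real.div_rpow hs1.le hs0.le, ← hl, ← Real.sqrt_eq_rpow, ← Real.sqrt_eq_rpow,
    Real.sqrt_sq hl0.le]
  have h3 := Real.sq_sqrt hs0.le
  have h4 : 0 < √s := Real.sqrt_pos.2 hs0
  field_simp
  nlinarith [h3]

lemma hy_bdd {s q : ℝ} (h1 : 1 < s) (h2 : s < 2) (hq : q = s / (s - 1))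
    (f : EuclideanSpace ℝ α → ℂ) (hf : Integrable f) (C R : ℝ) (hb : ∀ u, ‖f u‖ ≤ C)
    (hR : ∀ u, R < ‖u‖ → f u = 0) :
    ∫⁻ y, ‖ft f y‖ₑ ^ q ≤
      ENNReal.ofReal ((s ^ (q / (2 * s)) * q ^ (-(1 / 2) : ℝ)) ^ (Fintype.card α)) *
        (∫⁻ u, ‖f u‖ₑ ^ s) ^ (q / s) := by
  have hs0 : 0 < s := by linarith
  have hs1 : 0 < s - 1 := by linarith
  have hq0 : 0 < q := by rw [hq]; positivity
  set l : ℝ := √(s - 1) with hldef
  have hl0 : 0 < l := Real.sqrt_pos.2 hs1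
  have hl : l ^ 2 = s - 1 := Real.sq_sqrt hs1.le
  set n := Fintype.card α with hn
  set h : EuclideanSpace ℝ α → ℂ := fun u => f u * ((Real.exp (Real.pi * ‖u‖ ^ 2 / s) : ℝ) : ℂ)
    with hh
  have hC : 0 ≤ C := (norm_nonneg _).trans (hb 0)
  have hac : (G0 α) ≪ volume := withDensity_absolutelyContinuous _ _
  have hm : MemLp h 2 (G0 α) := by
    have hc : Continuous (fun u : EuclideanSpace ℝ α =>
      ((Real.exp (Real.pi * ‖u‖ ^ 2 / s) : ℝ) : ℂ)) := by fun_prop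
    refine MemLp.of_bound ((hf.1.mono_ac hac).mul hc.aestronglyMeasurable)
      (C * Real.exp (Real.pi * R ^ 2 / s)) (Eventually.of_forall fun u => ?_)
    simp only [hh]
    rw [norm_mul, Complex.norm_real, Real.norm_of_nonneg (Real.exp_pos _).le]
    by_cases hu : R < ‖u‖
    · rw [hR u hu, norm_zero, zero_mul]; positivity
    · push Not at hu
      refine mul_le_mul (hb u) ?_ (Real.exp_pos _).le hC
      apply Real.exp_le_exp.2
      have := Real.pi_pos
      have h5 : ‖u‖ ^ 2 ≤ R ^ 2 := by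
        have := norm_nonneg u
        nlinarith
      gcongr
  have key := opT h1 h2 hq hl h hm
  have eT : ∀ v, ∫ u, h u * kv s l v u ∂(G0 α) =
      ((s ^ (-((n : ℝ) / 2)) * Real.exp (Real.pi * ((s - 1) / s) * ‖v‖ ^ 2) : ℝ) : ℂ) *
        ft f ((l / s) • v) := by
    intro v
    rw [int_G0, ft, ← integral_const_mul]
    refine integral_congr_ae (Eventually.of_forall fun u => ?_)
    simp only [hh, kv]
    rw [Complex.real_smul, Complex.ofReal_mul, Complex.ofReal_mul, real_inner_smul_right]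
    have e3 : Real.exp (Real.pi * ((s - 1) / s) * (‖u‖ ^ 2 + ‖v‖ ^ 2)) =
        Real.exp (Real.pi * ‖u‖ ^ 2) * Real.exp (-(Real.pi * ‖u‖ ^ 2 / s)) *
        Real.exp (Real.pi * ((s - 1) / s) * ‖v‖ ^ 2) := by
      rw [← Real.exp_add, ← Real.exp_add]
      congr 1
      field_simp
      ring
    have e4 : Real.exp (-Real.pi * ‖u‖ ^ 2) * Real.exp (Real.pi * ‖u‖ ^ 2) = 1 := by
      rw [← Real.exp_add]; simp
    have e5 : Real.exp (Real.pi * ‖u‖ ^ 2 / s) * Real.exp (-(Real.pi * ‖u‖ ^ 2 / s)) = 1 := by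
      rw [← Real.exp_add]; simp
    rw [e3]
    have e4' : ((Real.exp (-Real.pi * ‖u‖ ^ 2) : ℝ) : ℂ) *
      ((Real.exp (Real.pi * ‖u‖ ^ 2) : ℝ) : ℂ) = 1 := by exact_mod_cast e4
    have e5' : ((Real.exp (Real.pi * ‖u‖ ^ 2 / s) : ℝ) : ℂ) *
      ((Real.exp (-(Real.pi * ‖u‖ ^ 2 / s)) : ℝ) : ℂ) = 1 := by exact_mod_cast e5
    have e6 : Complex.exp (2 * Real.pi * (l / s) * ⟪u, v⟫ * Complex.I) =
        Complex.exp (2 * Real.pi * (((l / s) * ⟪u, v⟫ : ℝ) : ℂ) * Complex.I) := by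
      congr 1; push_cast; ring
    rw [e6]
    generalize Complex.exp (2 * Real.pi * (((l / s) * ⟪u, v⟫ : ℝ) : ℂ) * Complex.I) = z
    rw [Complex.ofReal_mul, Complex.ofReal_mul]
    generalize ((Real.exp (-Real.pi * ‖u‖ ^ 2) : ℝ) : ℂ) = a at *
    generalize ((Real.exp (Real.pi * ‖u‖ ^ 2) : ℝ) : ℂ) = b at *
    generalize ((Real.exp (Real.pi * ‖u‖ ^ 2 / s) : ℝ) : ℂ) = c at *
    generalize ((Real.exp (-(Real.pi * ‖u‖ ^ 2 / s)) : ℝ) : ℂ) = d at *
    generalize ((s ^ (-((n : ℝ) / 2)) : ℝ) : ℂ) = w at *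
    generalize ((Real.exp (Real.pi * ((s - 1) / s) * ‖v‖ ^ 2) : ℝ) : ℂ) = x at *
    linear_combination (f u * w * x * z * c * d) * e4' + (f u * w * x * z) * e5'
  have eL : ∫⁻ v, ‖∫ u, h u * kv s l v u ∂(G0 α)‖ₑ ^ q ∂(G0 α) =
      ENNReal.ofReal (s ^ (-((n : ℝ) * q / 2)) * ((l / s) ^ n)⁻¹) * ∫⁻ y, ‖ft f y‖ₑ ^ q := by
    simp only [eT]
    rw [lint_G0, ENNReal.ofReal_mul (by positivity), mul_assoc,
      ← lint_smul (fun y => ‖ft f y‖ₑ ^ q) (a := l / s) (by positivity),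
      ← lintegral_const_mul' _ _ ENNReal.ofReal_ne_top]
    refine lintegral_congr fun v => ?_
    rw [enorm_mul, ENNReal.mul_rpow_of_nonneg _ _ hq0.le, ← mul_assoc]
    congr 1
    rw [← ofReal_norm, Complex.norm_real, Real.norm_of_nonneg (by positivity),
      ENNReal.ofReal_rpow_of_nonneg (by positivity) hq0.le, ← ENNReal.ofReal_mul (by positivity)]
    congr 1
    rw [Real.mul_rpow (by positivity) (by positivity), ← Real.rpow_mul hs0.le, ← Real.exp_mul]
    have e7 : Real.pi * ((s - 1) / s) * ‖v‖ ^ 2 * q = Real.pi * ‖v‖ ^ 2 := by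
      rw [hq]; field_simp
    rw [e7, mul_left_comm, ← Real.exp_add]
    simp
    congr 1
    ring
  have eR : (eLpNorm h (ENNReal.ofReal s) (G0 α)) ^ q = (∫⁻ u, ‖f u‖ₑ ^ s) ^ (q / s) := by
    rw [eLpNorm_eq_lintegral_rpow_enorm_toReal (by simpa using hs0) ENNReal.ofReal_ne_top,
      ENNReal.toReal_ofReal hs0.le, lint_G0, ← ENNReal.rpow_mul]
    have e8 : ∀ u, ENNReal.ofReal (Real.exp (-Real.pi * ‖u‖ ^ 2)) * ‖h u‖ₑ ^ s = ‖f u‖ₑ ^ s := by
      intro u
      simp only [hh]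
      rw [enorm_mul, ENNReal.mul_rpow_of_nonneg _ _ hs0.le, mul_left_comm]
      rw [← ofReal_norm (((Real.exp (Real.pi * ‖u‖ ^ 2 / s) : ℝ) : ℂ)), Complex.norm_real,
        Real.norm_of_nonneg (by positivity),
        ENNReal.ofReal_rpow_of_nonneg (by positivity) hs0.le, ← ENNReal.ofReal_mul (by positivity),
        ← Real.exp_mul, ← Real.exp_add]
      have e9 : -Real.pi * ‖u‖ ^ 2 + Real.pi * ‖u‖ ^ 2 / s * s = 0 := by field_simp; ring
      rw [e9, Real.exp_zero, ENNReal.ofReal_one, mul_one]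
    simp only [e8]
    congr 1
    ring
  rw [eL, eR] at key
  have hcon : (s ^ (q / (2 * s)) * q ^ (-(1 / 2) : ℝ)) ^ n *
      (s ^ (-((n : ℝ) * q / 2)) * ((l / s) ^ n)⁻¹) = 1 := by
    rw [← const_id h1 h2 hq hl hl0, mul_pow, ← Real.rpow_natCast (s ^ (q / 2)) n,
      ← Real.rpow_mul hs0.le]
    have e10 : s ^ (q / 2 * (n : ℝ)) * s ^ (-((n : ℝ) * q / 2)) = 1 := by
      rw [← Real.rpow_add hs0]
      have : q / 2 * (n : ℝ) + -((n : ℝ) * q / 2) = 0 := by ring
      rw [this, Real.rpow_zero]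
    have e11 : (l / s) ^ n * ((l / s) ^ n)⁻¹ = 1 := mul_inv_cancel₀ (by positivity)
    calc _ = (s ^ (q / 2 * (n : ℝ)) * s ^ (-((n : ℝ) * q / 2))) *
          ((l / s) ^ n * ((l / s) ^ n)⁻¹) := by ring
      _ = 1 := by rw [e10, e11, one_mul]
  calc ∫⁻ y, ‖ft f y‖ₑ ^ q
      = ENNReal.ofReal ((s ^ (q / (2 * s)) * q ^ (-(1 / 2) : ℝ)) ^ n) *
        (ENNReal.ofReal (s ^ (-((n : ℝ) * q / 2)) * ((l / s) ^ n)⁻¹) *
          ∫⁻ y, ‖ft f y‖ₑ ^ q) := by
        rw [← mul_assoc, ← ENNReal.ofReal_mul (by positivity), hcon, ENNReal.ofReal_one, one_mul]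
    _ ≤ _ := mul_le_mul_right key _

/-- **Sharp Hausdorff-Young inequality** (Babenko, Beckner) for bounded integrable functions. -/
theorem hy {s q : ℝ} (h1 : 1 < s) (h2 : s < 2) (hq : q = s / (s - 1))
    (f : EuclideanSpace ℝ α → ℂ) (hf : Integrable f) (C : ℝ) (hb : ∀ u, ‖f u‖ ≤ C) :
    ∫⁻ y, ‖ft f y‖ₑ ^ q ≤
      ENNReal.ofReal ((s ^ (q / (2 * s)) * q ^ (-(1 / 2) : ℝ)) ^ (Fintype.card α)) *
        (∫⁻ u, ‖f u‖ₑ ^ s) ^ (q / s) := by
  have hs0 : 0 < s := by linarith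
  have hs1 : 0 < s - 1 := by linarith
  have hq0 : 0 < q := by rw [hq]; positivity
  set F : ℕ → EuclideanSpace ℝ α → ℂ := fun k => (Metric.closedBall 0 (k : ℝ)).indicator f with hF
  have hFi : ∀ k, Integrable (F k) := fun k => hf.indicator Metric.isClosed_closedBall.measurableSet
  have hFle : ∀ k u, ‖F k u‖ ≤ ‖f u‖ := fun k u => norm_indicator_le_norm_self _ _
  have hFlim : ∀ u, Tendsto (fun k => F k u) atTop (𝓝 (f u)) := by
    intro u
    refine tendsto_const_nhds.congr' ?_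
    obtain ⟨k0, hk0⟩ := exists_nat_ge ‖u‖
    filter_upwards [eventually_ge_atTop k0] with k hk
    simp only [hF]
    rw [Set.indicator_of_mem]
    rw [mem_closedBall_zero_iff]
    exact hk0.trans (by exact_mod_cast hk)
  have hlim : ∀ y, Tendsto (fun k => ft (F k) y) atTop (𝓝 (ft f y)) := by
    intro y
    unfold ft
    refine tendsto_integral_of_dominated_convergence (fun u => ‖f u‖)
      (fun k => (ft_integrable (hFi k) y).1) hf.norm
      (fun k => Eventually.of_forall fun u => ?_) (Eventually.of_forall fun u => ?_)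
    · rw [norm_mul, exp_norm_one, mul_one]; exact hFle k u
    · exact (hFlim u).mul_const _
  have hfat : ∫⁻ y, ‖ft f y‖ₑ ^ q ≤ liminf (fun k => ∫⁻ y, ‖ft (F k) y‖ₑ ^ q) atTop := by
    refine le_trans (le_of_eq ?_) (lintegral_liminf_le fun k => ?_)
    · refine lintegral_congr fun v => ?_
      refine (Tendsto.liminf_eq ?_).symm
      exact (ENNReal.continuous_rpow_const.tendsto _).comp ((hlim v).enorm)
    · exact (ft_meas (hFi k)).measurable.enorm.pow_const _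
  refine hfat.trans ?_
  refine (liminf_le_liminf (Eventually.of_forall fun k => ?_)).trans
    (le_of_eq (liminf_const _))
  refine (hy_bdd h1 h2 hq (F k) (hFi k) C k (fun u => (hFle k u).trans (hb u))
    (fun u hu => ?_)).trans ?_
  · simp only [hF]
    rw [Set.indicator_of_notMem]
    rw [mem_closedBall_zero_iff]
    linarith
  · refine mul_le_mul_right (ENNReal.rpow_le_rpow (lintegral_mono fun u => ?_) (by positivity)) _
    refine ENNReal.rpow_le_rpow ?_ hs0.le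
    exact enorm_indicator_le_enorm_self _ _

end Pool.Agent.N551.BK
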