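import Mathlib
import Pool.Agent.N551.BK.HY
import Pool.Agent.Helper390.CovarioA
import Pool.Agent.Helper142.Kib.NF
import Pool.Agent.Helper142.Kib.B_gauss

set_option autoImplicit false

/-! The cosine transform on `α → ℝ`: Plancherel and sharp Hausdorff-Young for `exp (-π p²)`. -/

namespace Pool.Agent.N551.BK

open MeasureTheory Filter Topology Matrix
open scoped ENNReal RealInnerProductSpace FourierTransform
open Pool.Agent.Helper142.Kib

variable {α : Type} [Fintype α]

/-- the cosine transform -/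
noncomputable def ct (h : (α → ℝ) → ℝ) (x : α → ℝ) : ℝ :=
  ∫ y, h y * Real.cos (2 * Real.pi * (x ⬝ᵥ y))

lemma ct_int {h : (α → ℝ) → ℝ} (hh : Integrable h) (x : α → ℝ) :
    Integrable (fun y => h y * Real.cos (2 * Real.pi * (x ⬝ᵥ y))) := by
  have hc : Continuous (fun y : α → ℝ => x ⬝ᵥ y) := by
    unfold dotProduct; fun_prop
  exact hh.mul_bdd (c := 1)
    (by fun_prop : Continuous (fun y => Real.cos (2 * Real.pi * (x ⬝ᵥ y)))).aestronglyMeasurable
    (Filter.Eventually.of_forall (fun y => by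
      rw [Real.norm_eq_abs]; exact Real.abs_cos_le_one _))

lemma ct_le {h : (α → ℝ) → ℝ} (hh : Integrable h) (x : α → ℝ) : |ct h x| ≤ ∫ y, |h y| := by
  unfold ct
  rw [← Real.norm_eq_abs]
  refine norm_integral_le_of_norm_le hh.norm (Eventually.of_forall fun y => ?_)
  rw [norm_mul, Real.norm_eq_abs, Real.norm_eq_abs]
  exact mul_le_of_le_one_right (abs_nonneg _) (Real.abs_cos_le_one _)

lemma ct_cont {h : (α → ℝ) → ℝ} (hh : Integrable h) : Continuous (ct h) := by
  unfold ct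
  have hc : Continuous (fun p : (α → ℝ) × (α → ℝ) => p.1 ⬝ᵥ p.2) := NF.NF_cont_dot
  refine continuous_of_dominated (bound := fun u => ‖h u‖) (fun x => (ct_int hh x).1)
    (fun y => Eventually.of_forall fun u => ?_) hh.norm (Eventually.of_forall fun u => ?_)
  · rw [norm_mul, Real.norm_eq_abs, Real.norm_eq_abs]
    exact mul_le_of_le_one_right (abs_nonneg _) (Real.abs_cos_le_one _)
  · have : Continuous (fun x : α → ℝ => x ⬝ᵥ u) := hc.comp (by fun_prop : Continuous fun x => (x, u))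
    fun_prop

lemma inner_dot (u y : EuclideanSpace ℝ α) : ⟪u, y⟫ = WithLp.ofLp y ⬝ᵥ WithLp.ofLp u := by
  rw [PiLp.inner_apply, dotProduct]
  refine Finset.sum_congr rfl fun i _ => ?_
  simp [mul_comm]

lemma ft_ct (h : (α → ℝ) → ℝ) (hh : Integrable h) (heven : ∀ x, h (-x) = h x)
    (y : EuclideanSpace ℝ α) :
    ft (fun u => ((h (WithLp.ofLp u) : ℝ) : ℂ)) y = ((ct h (WithLp.ofLp y) : ℝ) : ℂ) := by
  rw [ct, ← NF.NF_base h hh heven, ft]
  have hmp := PiLp.volume_preserving_ofLp α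
  rw [← hmp.integral_comp (MeasurableEquiv.toLp 2 (α → ℝ)).symm.measurableEmbedding
    (fun u => ((h u : ℝ) : ℂ) * Complex.exp (2 * Real.pi * Complex.I *
      ((WithLp.ofLp y ⬝ᵥ u : ℝ) : ℂ)))]
  refine integral_congr_ae (Eventually.of_forall fun u => ?_)
  simp only
  rw [inner_dot]
  congr 2
  ring

lemma fourier_ct (h : (α → ℝ) → ℝ) (hh : Integrable h) (heven : ∀ x, h (-x) = h x)
    (y : EuclideanSpace ℝ α) :
    𝓕 (fun u : EuclideanSpace ℝ α => ((h (WithLp.ofLp u) : ℝ) : ℂ)) y =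
      ((ct h (WithLp.ofLp y) : ℝ) : ℂ) := by
  have e : ct h (WithLp.ofLp y) = ct h (WithLp.ofLp (-y)) := by
    unfold ct
    refine integral_congr_ae (Eventually.of_forall fun u => ?_)
    simp only [WithLp.ofLp_neg, neg_dotProduct, mul_neg, Real.cos_neg]
  rw [e, ← ft_ct h hh heven, ft, Real.fourier_eq']
  refine integral_congr_ae (Eventually.of_forall fun u => ?_)
  simp only
  rw [smul_eq_mul, mul_comm, inner_neg_right]
  congr 2
  push_cast
  ring

lemma ct_planch {h : (α → ℝ) → ℝ} (hh : Integrable h) (h2 : MemLp h 2)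
    (heven : ∀ x, h (-x) = h x) : MemLp (ct h) 2 ∧ ∫ x, ct h x ^ 2 = ∫ x, h x ^ 2 := by
  have hmp := PiLp.volume_preserving_ofLp α
  have hemb := (MeasurableEquiv.toLp 2 (α → ℝ)).symm.measurableEmbedding
  have i1 : Integrable (fun u : EuclideanSpace ℝ α => ((h (WithLp.ofLp u) : ℝ) : ℂ)) := by
    have : Integrable (fun u : EuclideanSpace ℝ α => h (WithLp.ofLp u)) :=
      hmp.integrable_comp_of_integrable hh
    exact this.ofReal
  have i2 : MemLp (fun u : EuclideanSpace ℝ α => ((h (WithLp.ofLp u) : ℝ) : ℂ)) 2 := by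
    have : MemLp (fun u : EuclideanSpace ℝ α => h (WithLp.ofLp u)) 2 :=
      h2.comp_measurePreserving hmp
    exact this.ofReal
  obtain ⟨k1, k2⟩ := Pool.Agent.Helper390.Covario.plancherel i1 i2
  have e : 𝓕 (fun u : EuclideanSpace ℝ α => ((h (WithLp.ofLp u) : ℝ) : ℂ)) =
      fun y => ((ct h (WithLp.ofLp y) : ℝ) : ℂ) := funext fun y => fourier_ct h hh heven y
  rw [e] at k1 k2
  have k3 : MemLp (fun y : EuclideanSpace ℝ α => ct h (WithLp.ofLp y)) 2 := by
    have := k1.re
    exact this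
  refine ⟨?_, ?_⟩
  · have k4 := (hemb.memLp_map_measure_iff (g := ct h) (p := 2)
      (μ := (volume : Measure (EuclideanSpace ℝ α)))).2 k3
    have k5 : Measure.map (⇑(MeasurableEquiv.toLp 2 (α → ℝ)).symm)
      (volume : Measure (EuclideanSpace ℝ α)) = volume := hmp.map_eq
    rwa [k5] at k4
  · simp only [Complex.norm_real, Real.norm_eq_abs, sq_abs] at k2
    have a1 := hmp.integral_comp hemb (fun x => ct h x ^ 2)
    have a2 := hmp.integral_comp hemb (fun x => h x ^ 2)
    rw [← a1, ← a2]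
    exact k2

lemma ct_add {h1 h2 : (α → ℝ) → ℝ} (i1 : Integrable h1) (i2 : Integrable h2) (x : α → ℝ) :
    ct (fun y => h1 y + h2 y) x = ct h1 x + ct h2 x := by
  unfold ct
  rw [← integral_add (ct_int i1 x) (ct_int i2 x)]
  refine integral_congr_ae (Eventually.of_forall fun u => ?_)
  simp only
  ring

lemma ct_sub {h1 h2 : (α → ℝ) → ℝ} (i1 : Integrable h1) (i2 : Integrable h2) (x : α → ℝ) :
    ct (fun y => h1 y - h2 y) x = ct h1 x - ct h2 x := by
  unfold ct
  rw [← integral_sub (ct_int i1 x) (ct_int i2 x)]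
  refine integral_congr_ae (Eventually.of_forall fun u => ?_)
  simp only
  ring

/-- Parseval -/
lemma ct_pars {h1 h2 : (α → ℝ) → ℝ} (i1 : Integrable h1) (i2 : Integrable h2)
    (m1 : MemLp h1 2) (m2 : MemLp h2 2) (e1 : ∀ x, h1 (-x) = h1 x) (e2 : ∀ x, h2 (-x) = h2 x) :
    ∫ x, ct h1 x * ct h2 x = ∫ x, h1 x * h2 x := by
  have p1 := ct_planch (i1.add i2) (m1.add m2) (fun x => by simp [e1, e2])
  have p2 := ct_planch (i1.sub i2) (m1.sub m2) (fun x => by simp [e1, e2])
  have q1 := ct_planch i1 m1 e1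
  have q2 := ct_planch i2 m2 e2
  have a1 : ct (h1 + h2) = fun x => ct h1 x + ct h2 x := funext fun x => ct_add i1 i2 x
  have a2 : ct (h1 - h2) = fun x => ct h1 x - ct h2 x := funext fun x => ct_sub i1 i2 x
  rw [a1] at p1
  rw [a2] at p2
  have key : ∀ u v : (α → ℝ) → ℝ, MemLp u 2 → MemLp v 2 →
      ∫ x, u x * v x = ((∫ x, (u x + v x) ^ 2) - ∫ x, (u x - v x) ^ 2) / 4 := by
    intro u v hu hv
    have j1 : Integrable (fun x => (u x + v x) ^ 2) := (hu.add hv).integrable_sq
    have j2 : Integrable (fun x => (u x - v x) ^ 2) := (hu.sub hv).integrable_sq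
    rw [← integral_sub j1 j2, ← integral_div]
    refine integral_congr_ae (Eventually.of_forall fun x => ?_)
    simp only
    ring
  rw [key _ _ q1.1 q2.1, key _ _ m1 m2]
  have b1 : ∫ x, (ct h1 x + ct h2 x) ^ 2 = ∫ x, (h1 x + h2 x) ^ 2 := p1.2
  have b2 : ∫ x, (ct h1 x - ct h2 x) ^ 2 = ∫ x, (h1 x - h2 x) ^ 2 := p2.2
  rw [b1, b2]

end Pool.Agent.N551.BK
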