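import Mathlib
import Pool.Agent.N551.BK.Ct

set_option autoImplicit false

/-! The cosine transform of `exp (-π p²)`, normalised. -/

namespace Pool.Agent.N551.BK

open MeasureTheory Filter Topology Matrix
open scoped ENNReal RealInnerProductSpace FourierTransform
open Pool.Agent.Helper142.Kib

variable {α : Type} [Fintype α]

/-- the Gaussian of a gauge -/
noncomputable def ff (p : (α → ℝ) → ℝ) (y : α → ℝ) : ℝ := Real.exp (-Real.pi * p y ^ 2)

/-- its cosine transform -/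
noncomputable def gp (p : (α → ℝ) → ℝ) (x : α → ℝ) : ℝ := ct (ff p) x

lemma g_even {p : (α → ℝ) → ℝ} (hp : IsG p) (x : α → ℝ) : p (-x) = p x := by
  have := hp.hom (-1) x
  simpa using this

lemma g_nonneg {p : (α → ℝ) → ℝ} (hp : IsG p) (x : α → ℝ) : 0 ≤ p x := by
  by_cases hx : x = 0
  · have := hp.hom 0 x
    rw [hx] at *
    simp at this
    rw [this]
  · exact (hp.pos x hx).le

lemma exp_int {p : (α → ℝ) → ℝ} (hp : IsG p) (hv : vg p = vg (nn : (α → ℝ) → ℝ)) {b : ℝ}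
    (hb : 0 < b) : Integrable (fun x : α → ℝ => Real.exp (-(Real.pi * b) * p x ^ 2)) ∧
    ∫ x : α → ℝ, Real.exp (-(Real.pi * b) * p x ^ 2) = b ^ (-((Fintype.card α : ℝ) / 2)) := by
  have h := B_gauss.b_gauss p hp hv (Real.pi * b) (by positivity)
  refine ⟨h.1, ?_⟩
  rw [h.2, ← div_div, div_self Real.pi_pos.ne', one_div, Real.inv_rpow hb.le,
    Real.rpow_neg hb.le]

lemma ff_int {p : (α → ℝ) → ℝ} (hp : IsG p) (hv : vg p = vg (nn : (α → ℝ) → ℝ)) :
    Integrable (ff p) ∧ ∫ x, ff p x = 1 := by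
  have h := exp_int hp hv one_pos
  simp only [mul_one, Real.one_rpow] at h
  exact h

lemma ff_pos (p : (α → ℝ) → ℝ) (x : α → ℝ) : 0 < ff p x := Real.exp_pos _

lemma ff_le (p : (α → ℝ) → ℝ) (x : α → ℝ) : ff p x ≤ 1 := by
  unfold ff
  rw [Real.exp_le_one_iff]
  have := Real.pi_pos
  nlinarith [sq_nonneg (p x)]

lemma ff_even {p : (α → ℝ) → ℝ} (hp : IsG p) (x : α → ℝ) : ff p (-x) = ff p x := by
  unfold ff
  rw [g_even hp]

lemma gp_le {p : (α → ℝ) → ℝ} (hp : IsG p) (hv : vg p = vg (nn : (α → ℝ) → ℝ)) (x : α → ℝ) :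
    |gp p x| ≤ 1 := by
  refine (ct_le (ff_int hp hv).1 x).trans (le_of_eq ?_)
  rw [← (ff_int hp hv).2]
  refine integral_congr_ae (Eventually.of_forall fun u => ?_)
  simp only
  rw [abs_of_pos (ff_pos p u)]

lemma gp_cont {p : (α → ℝ) → ℝ} (hp : IsG p) (hv : vg p = vg (nn : (α → ℝ) → ℝ)) :
    Continuous (gp p) := ct_cont (ff_int hp hv).1

lemma ff_memLp {p : (α → ℝ) → ℝ} (hp : IsG p) (hv : vg p = vg (nn : (α → ℝ) → ℝ)) :
    MemLp (ff p) 2 := by
  rw [memLp_two_iff_integrable_sq (ff_int hp hv).1.1]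
  refine (exp_int hp hv (b := 2) (by norm_num)).1.congr (Eventually.of_forall fun x => ?_)
  simp only [ff]
  rw [← Real.exp_nat_mul]
  congr 1
  push_cast
  ring

lemma gp_memLp {p : (α → ℝ) → ℝ} (hp : IsG p) (hv : vg p = vg (nn : (α → ℝ) → ℝ)) :
    MemLp (gp p) 2 := (ct_planch (ff_int hp hv).1 (ff_memLp hp hv) (ff_even hp)).1

/-- scaling -/
lemma ct_scale (h : (α → ℝ) → ℝ) {a : ℝ} (ha : 0 < a) (x : α → ℝ) :
    ct (fun y => (a ^ Fintype.card α)⁻¹ * h (a⁻¹ • y)) x = ct h (a • x) := by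
  unfold ct
  have h1 := Measure.integral_comp_inv_smul_of_nonneg (volume : Measure (α → ℝ))
    (fun y => h y * Real.cos (2 * Real.pi * ((a • x) ⬝ᵥ y))) ha.le
  simp only [Module.finrank_fintype_fun_eq_card, smul_eq_mul] at h1
  have h2 : ∀ y, (a ^ Fintype.card α)⁻¹ * h (a⁻¹ • y) * Real.cos (2 * Real.pi * (x ⬝ᵥ y)) =
      (a ^ Fintype.card α)⁻¹ * (h (a⁻¹ • y) * Real.cos (2 * Real.pi * ((a • x) ⬝ᵥ (a⁻¹ • y)))) := by
    intro y
    rw [smul_dotProduct, dotProduct_smul, smul_smul, mul_inv_cancel₀ ha.ne', one_smul]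
    ring
  simp only [h2]
  rw [integral_const_mul, h1, ← mul_assoc, inv_mul_cancel₀ (by positivity), one_mul]

lemma gp_B {p : (α → ℝ) → ℝ} (hp : IsG p) (hv : vg p = vg (nn : (α → ℝ) → ℝ)) {a : ℝ}
    (ha : 0 < a) :
    ∫ x, gp p x * gp p (a • x) = (1 + a ^ 2) ^ (-((Fintype.card α : ℝ) / 2)) := by
  set h2 : (α → ℝ) → ℝ := fun y => (a ^ Fintype.card α)⁻¹ * ff p (a⁻¹ • y) with hh2
  have e1 : ∀ y, h2 y = (a ^ Fintype.card α)⁻¹ * Real.exp (-(Real.pi * (a⁻¹ ^ 2)) * p y ^ 2) := by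
    intro y
    simp only [hh2, ff]
    rw [hp.hom, mul_pow, sq_abs]
    congr 2
    ring
  have i2 : Integrable h2 := by
    refine ((exp_int hp hv (b := a⁻¹ ^ 2) (by positivity)).1.const_mul
      (a ^ Fintype.card α)⁻¹).congr (Eventually.of_forall fun y => (e1 y).symm)
  have m2 : MemLp h2 2 := by
    rw [memLp_two_iff_integrable_sq i2.1]
    refine ((exp_int hp hv (b := 2 * a⁻¹ ^ 2) (by positivity)).1.const_mul
      ((a ^ Fintype.card α)⁻¹ ^ 2)).congr (Eventually.of_forall fun y => ?_)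
    simp only [e1]
    rw [mul_pow, ← Real.exp_nat_mul]
    congr 2
    push_cast
    ring
  have ev2 : ∀ x, h2 (-x) = h2 x := by
    intro x; simp only [hh2, smul_neg, ff_even hp]
  have key := ct_pars (ff_int hp hv).1 i2 (ff_memLp hp hv) m2 (ff_even hp) ev2
  simp only [hh2, ct_scale (ff p) ha] at key
  have e3 : ∀ x, gp p x * gp p (a • x) = ct (ff p) x * ct (ff p) (a • x) := fun x => rfl
  simp only [e3]
  rw [key]
  have e4 : ∀ x, ff p x * ((a ^ Fintype.card α)⁻¹ * ff p (a⁻¹ • x)) =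
      (a ^ Fintype.card α)⁻¹ * Real.exp (-(Real.pi * (1 + a⁻¹ ^ 2)) * p x ^ 2) := by
    intro x
    have := e1 x
    simp only [hh2] at this
    rw [this, ff, mul_left_comm, ← Real.exp_add]
    congr 2
    ring
  simp only [e4]
  rw [integral_const_mul, (exp_int hp hv (b := 1 + a⁻¹ ^ 2) (by positivity)).2]
  have e5 : 1 + a⁻¹ ^ 2 = (1 + a ^ 2) * (a ^ 2)⁻¹ := by field_simp; ring
  have e6 : (a ^ 2) ^ ((Fintype.card α : ℝ) / 2) = a ^ Fintype.card α := by
    rw [← Real.rpow_natCast a 2, ← Real.rpow_mul ha.le, ← Real.rpow_natCast a (Fintype.card α)]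
    congr 1
    push_cast
    ring
  have e7 : ((a ^ 2)⁻¹) ^ (-((Fintype.card α : ℝ) / 2)) = a ^ Fintype.card α := by
    rw [Real.rpow_neg (by positivity), Real.inv_rpow (by positivity), inv_inv, e6]
  rw [e5, Real.mul_rpow (by positivity) (by positivity), e7, mul_left_comm,
    inv_mul_cancel₀ (by positivity), mul_one]

/-- sharp Hausdorff-Young for `gp` -/
lemma gp_A {p : (α → ℝ) → ℝ} (hp : IsG p) (hv : vg p = vg (nn : (α → ℝ) → ℝ)) {Q : ℝ}
    (hQ : 2 < Q) : Integrable (fun x => |gp p x| ^ Q) ∧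
    ∫ x, |gp p x| ^ Q ≤ Q ^ (-((Fintype.card α : ℝ) / 2)) := by
  set s : ℝ := Q / (Q - 1) with hs
  have hQ1 : 0 < Q - 1 := by linarith
  have hs1 : 1 < s := by rw [hs, lt_div_iff₀ hQ1]; linarith
  have hs2 : s < 2 := by rw [hs, div_lt_iff₀ hQ1]; linarith
  have hs0 : 0 < s := by linarith
  have hq : Q = s / (s - 1) := by
    have : s - 1 = 1 / (Q - 1) := by rw [hs]; field_simp; ring
    rw [this, hs]; field_simp
  have hint := (ff_int hp hv).1
  have hmp := PiLp.volume_preserving_ofLp α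
  have hemb : MeasurableEmbedding (WithLp.ofLp : EuclideanSpace ℝ α → α → ℝ) :=
    (MeasurableEquiv.toLp 2 (α → ℝ)).symm.measurableEmbedding
  have i1 : Integrable (fun u : EuclideanSpace ℝ α => ((ff p (WithLp.ofLp u) : ℝ) : ℂ)) := by
    have : Integrable (fun u : EuclideanSpace ℝ α => ff p (WithLp.ofLp u)) :=
      hmp.integrable_comp_of_integrable hint
    exact this.ofReal
  have h := hy hs1 hs2 hq _ i1 1 (fun u => by
    rw [Complex.norm_real, Real.norm_of_nonneg (ff_pos p _).le]; exact ff_le p _)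
  simp only [ft_ct (ff p) hint (ff_even hp)] at h
  have e1 : ∫⁻ y : EuclideanSpace ℝ α, ‖((ct (ff p) (WithLp.ofLp y) : ℝ) : ℂ)‖ₑ ^ Q =
      ∫⁻ x : α → ℝ, ENNReal.ofReal (|gp p x| ^ Q) := by
    have := hmp.lintegral_comp_emb hemb (fun x => ENNReal.ofReal (|gp p x| ^ Q))
    rw [← this]
    refine lintegral_congr fun y => ?_
    rw [← ofReal_norm, Complex.norm_real, Real.norm_eq_abs,
      ENNReal.ofReal_rpow_of_nonneg (abs_nonneg _) (by linarith)]
    rfl
  have e2 : ∫⁻ u : EuclideanSpace ℝ α, ‖((ff p (WithLp.ofLp u) : ℝ) : ℂ)‖ₑ ^ s =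
      ENNReal.ofReal (s ^ (-((Fintype.card α : ℝ) / 2))) := by
    have := hmp.lintegral_comp_emb hemb
      (fun x => ENNReal.ofReal (Real.exp (-(Real.pi * s) * p x ^ 2)))
    have h5 := exp_int hp hv hs0
    rw [← h5.2, ofReal_integral_eq_lintegral_ofReal h5.1
      (Eventually.of_forall fun x => (Real.exp_pos _).le), ← this]
    refine lintegral_congr fun y => ?_
    rw [← ofReal_norm, Complex.norm_real, Real.norm_of_nonneg (ff_pos p _).le,
      ENNReal.ofReal_rpow_of_nonneg (ff_pos p _).le hs0.le, ff, ← Real.exp_mul]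
    congr 2
    ring
  rw [e1, e2] at h
  have hcard : (0 : ℝ) ≤ (Fintype.card α : ℝ) := by positivity
  have e3 : ENNReal.ofReal ((s ^ (Q / (2 * s)) * Q ^ (-(1 / 2) : ℝ)) ^ (Fintype.card α)) *
      ENNReal.ofReal (s ^ (-((Fintype.card α : ℝ) / 2))) ^ (Q / s) =
      ENNReal.ofReal (Q ^ (-((Fintype.card α : ℝ) / 2))) := by
    have hQ0 : 0 < Q := by linarith
    rw [ENNReal.ofReal_rpow_of_nonneg (by positivity) (by positivity),
      ← ENNReal.ofReal_mul (by positivity)]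
    congr 1
    rw [mul_pow, ← Real.rpow_natCast (s ^ (Q / (2 * s))), ← Real.rpow_natCast (Q ^ (-(1 / 2) : ℝ)),
      ← Real.rpow_mul hs0.le, ← Real.rpow_mul hQ0.le, ← Real.rpow_mul hs0.le, mul_right_comm,
      ← Real.rpow_add hs0]
    have e7 : Q / (2 * s) * (Fintype.card α : ℝ) + -((Fintype.card α : ℝ) / 2) * (Q / s) = 0 := by
      field_simp; ring
    rw [e7, Real.rpow_zero, one_mul]
    congr 1
    ring
  rw [e3] at h
  have hmeas : AEStronglyMeasurable (fun x => |gp p x| ^ Q) volume := by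
    have : Continuous (fun x => |gp p x| ^ Q) :=
      Continuous.rpow_const (gp_cont hp hv).abs fun x => Or.inr (by linarith)
    exact this.aestronglyMeasurable
  have hI : Integrable (fun x => |gp p x| ^ Q) := by
    refine ⟨hmeas, ?_⟩
    rw [hasFiniteIntegral_iff_ofReal (Eventually.of_forall fun x => by positivity)]
    exact lt_of_le_of_lt h ENNReal.ofReal_lt_top
  refine ⟨hI, ?_⟩
  rw [← ofReal_integral_eq_lintegral_ofReal hI (Eventually.of_forall fun x => by positivity)] at h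
  exact (ENNReal.ofReal_le_ofReal_iff (by positivity)).1 h

end Pool.Agent.N551.BK
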