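import Mathlib
import Pool.Agent.N551.BK.Ga
import Pool.Agent.N551.BK.Abs
import Pool.Agent.Helper142.Kib.B_int
import Pool.Agent.Helper142.Kib.Nn_isG

set_option autoImplicit false

/-! The inequality, given the normalisation. -/

namespace Pool.Agent.N551.BK

open MeasureTheory Filter Topology Set Matrix
open scoped ENNReal
open Pool.Agent.Helper142.Kib

variable {α : Type} [Fintype α]

lemma nn_sq (x : α → ℝ) : nn x ^ 2 = x ⬝ᵥ x := by
  unfold nn
  refine Real.sq_sqrt ?_
  unfold dotProduct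
  exact Finset.sum_nonneg fun i _ => mul_self_nonneg _

lemma wexp_int {r : (α → ℝ) → ℝ} (hr : IsG r) (hα : 0 < Fintype.card α) {b : ℝ} (hb : 0 < b) :
    Integrable (fun x => Real.exp (-b * r x ^ 2)) := by
  obtain ⟨b0, B0, h0, _, hB⟩ := B_bounds.b_bounds r hr
  have h1 := B_int.b_int r hr 0 hα (b * b0 ^ 2) (by positivity)
  simp only [pow_zero, inv_one, one_mul] at h1
  refine Integrable.mono' h1 ?_ (Eventually.of_forall fun x => ?_)
  · have := hr.cont
    have : Continuous (fun x => Real.exp (-b * r x ^ 2)) := by fun_prop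
    exact this.aestronglyMeasurable
  · rw [Real.norm_of_nonneg (Real.exp_pos _).le]
    apply Real.exp_le_exp.2
    have h2 := (hB x).1
    have h3 : 0 ≤ b0 * nn x := mul_nonneg h0.le (Real.sqrt_nonneg _)
    have h4 : (b0 * nn x) ^ 2 ≤ r x ^ 2 := pow_le_pow_left₀ h3 h2 2
    rw [mul_pow, nn_sq] at h4
    nlinarith

lemma wexp_scale {r : (α → ℝ) → ℝ} (hr : IsG r) {b c : ℝ} (hc : 0 < c) :
    ∫ x, Real.exp (-(b * c) * r x ^ 2) =
      c ^ (-((Fintype.card α : ℝ) / 2)) * ∫ x, Real.exp (-b * r x ^ 2) := by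
  have h := smul_intg (fun x => Real.exp (-b * r x ^ 2)) (b := √c) (Real.sqrt_pos.2 hc)
  have e : (√c) ^ (-(Fintype.card α : ℝ)) = c ^ (-((Fintype.card α : ℝ) / 2)) := by
    rw [Real.sqrt_eq_rpow, ← Real.rpow_mul hc.le]; congr 1; ring
  rw [← e, ← h]
  refine integral_congr_ae (Eventually.of_forall fun x => ?_)
  simp only
  rw [hr.hom, abs_of_nonneg (Real.sqrt_nonneg _), mul_pow, Real.sq_sqrt hc.le]
  congr 1
  ring

/-- the Mellin constant -/
noncomputable def K0 (c : ℝ) (m : ℕ) : ℝ := c ^ (-(m : ℝ) / 2) * (1 / 2) * Real.Gamma ((m : ℝ) / 2)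

lemma K0_pos {c : ℝ} (hc : 0 < c) {m : ℕ} (hm : 1 ≤ m) : 0 < K0 c m := by
  unfold K0
  have : (0 : ℝ) < m := by exact_mod_cast hm
  have : 0 < Real.Gamma ((m : ℝ) / 2) := Real.Gamma_pos_of_pos (by positivity)
  positivity

lemma mell {c ρ : ℝ} (hc : 0 < c) (hρ : 0 < ρ) {m : ℕ} (hm : 1 ≤ m) :
    IntegrableOn (fun a : ℝ => a ^ (m - 1) * Real.exp (-(c * a ^ 2) * ρ ^ 2)) (Ioi 0) ∧
    ∫ a in Ioi (0 : ℝ), a ^ (m - 1) * Real.exp (-(c * a ^ 2) * ρ ^ 2) =
      K0 c m * (ρ ^ m)⁻¹ := by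
  have hb : 0 < c * ρ ^ 2 := by positivity
  have hm1 : (1 : ℝ) ≤ m := by exact_mod_cast hm
  have e : ∀ a ∈ Ioi (0 : ℝ), a ^ (m - 1) * Real.exp (-(c * a ^ 2) * ρ ^ 2) =
      a ^ ((m : ℝ) - 1) * Real.exp (-(c * ρ ^ 2) * a ^ (2 : ℝ)) := by
    intro a ha
    rw [Real.rpow_two, ← Real.rpow_natCast a (m - 1), Nat.cast_sub hm, Nat.cast_one]
    congr 2
    ring
  refine ⟨(integrableOn_rpow_mul_exp_neg_mul_rpow (s := (m : ℝ) - 1) (by linarith) two_pos
    hb).congr_fun (fun a ha => (e a ha).symm) measurableSet_Ioi, ?_⟩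
  rw [setIntegral_congr_fun measurableSet_Ioi e, integral_rpow_mul_exp_neg_mul_rpow two_pos
    (by linarith) hb, K0, Real.mul_rpow hc.le (by positivity)]
  have e2 : (ρ ^ 2) ^ (-((m : ℝ) - 1 + 1) / 2) = (ρ ^ m)⁻¹ := by
    rw [← Real.rpow_natCast ρ 2, ← Real.rpow_mul hρ.le, ← Real.rpow_natCast ρ m,
      ← Real.rpow_neg hρ.le]
    congr 1
    push_cast
    ring
  rw [e2]
  have e3 : (m : ℝ) - 1 + 1 = m := by ring
  rw [e3]
  ring

/-- the dilates of `w` tested against `h` -/
noncomputable def om (h r : (α → ℝ) → ℝ) (c a : ℝ) : ℝ :=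
  ∫ x, h x * Real.exp (-(c * a ^ 2) * r x ^ 2)

lemma ae_ne_zero (hα : 0 < Fintype.card α) : ∀ᵐ x : α → ℝ, x ≠ 0 := by
  have : Nonempty α := Fintype.card_pos_iff.1 hα
  have h : (volume : Measure (α → ℝ)) {0} = 0 := measure_singleton 0
  exact compl_mem_ae_iff.2 h

lemma om_mell {h r : (α → ℝ) → ℝ} (hc : Continuous h) (hr : IsG r) (hα : 0 < Fintype.card α)
    {m : ℕ} (hm : 1 ≤ m) {c : ℝ} (hc0 : 0 < c) (hi : Integrable (fun x => h x * (r x ^ m)⁻¹)) :
    IntegrableOn (fun a => a ^ (m - 1) * om h r c a) (Ioi 0) ∧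
    ∫ a in Ioi (0 : ℝ), a ^ (m - 1) * om h r c a = K0 c m * ∫ x, h x * (r x ^ m)⁻¹ := by
  set F : (α → ℝ) → ℝ → ℝ := fun x a =>
    h x * (a ^ (m - 1) * Real.exp (-(c * a ^ 2) * r x ^ 2)) with hF
  have hrc := hr.cont
  have hcont : Continuous (Function.uncurry F) := by
    have : Function.uncurry F = fun p : (α → ℝ) × ℝ =>
      h p.1 * (p.2 ^ (m - 1) * Real.exp (-(c * p.2 ^ 2) * r p.1 ^ 2)) := rfl
    rw [this]
    fun_prop
  have hval : ∀ᵐ x : α → ℝ, Integrable (F x) (volume.restrict (Ioi 0)) ∧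
      ∫ a in Ioi (0 : ℝ), F x a = K0 c m * (h x * (r x ^ m)⁻¹) ∧
      ∫ a in Ioi (0 : ℝ), ‖F x a‖ = K0 c m * ‖h x * (r x ^ m)⁻¹‖ := by
    filter_upwards [ae_ne_zero hα] with x hx
    have hrx := hr.pos x hx
    obtain ⟨m1, m2⟩ := mell hc0 hrx hm
    refine ⟨m1.const_mul _, ?_, ?_⟩
    · simp only [hF]
      rw [integral_const_mul, m2]; ring
    · have : ∀ a ∈ Ioi (0 : ℝ), ‖F x a‖ =
          ‖h x‖ * (a ^ (m - 1) * Real.exp (-(c * a ^ 2) * r x ^ 2)) := by
        intro a ha
        have ha0 : 0 < a := ha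
        simp only [hF]
        rw [norm_mul, Real.norm_of_nonneg (r := a ^ (m - 1) * _) (by positivity)]
      rw [setIntegral_congr_fun measurableSet_Ioi this, integral_const_mul, m2, norm_mul,
        Real.norm_of_nonneg (r := (r x ^ m)⁻¹) (by positivity)]
      ring
  have hFi : Integrable (Function.uncurry F) ((volume : Measure (α → ℝ)).prod
      (volume.restrict (Ioi (0 : ℝ)))) := by
    rw [integrable_prod_iff hcont.aestronglyMeasurable]
    refine ⟨hval.mono fun x hx => hx.1, ?_⟩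
    refine (hi.norm.const_mul (K0 c m)).congr ?_
    exact hval.mono fun x hx => hx.2.2.symm
  have e : ∀ a, ∫ x, F x a = a ^ (m - 1) * om h r c a := by
    intro a
    rw [om, ← integral_const_mul]
    refine integral_congr_ae (Eventually.of_forall fun x => ?_)
    simp only [hF]
    ring
  refine ⟨?_, ?_⟩
  · have := hFi.integral_prod_right
    refine this.congr (Eventually.of_forall fun a => ?_)
    exact e a
  · have := integral_integral_swap hFi
    simp only [e] at this
    rw [← this, ← integral_const_mul]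
    exact integral_congr_ae (hval.mono fun x hx => hx.2.1)

/-- convexity -/
lemma conv_ineq {g w Q : ℝ} (hw : 0 < w) (hQ : 1 ≤ Q) :
    w ^ Q + Q * w ^ (Q - 1) * (g - w) ≤ |g| ^ Q := by
  have h1 : 1 + Q * (|g| / w - 1) ≤ (1 + (|g| / w - 1)) ^ Q := by
    apply one_add_mul_self_le_rpow_one_add _ hQ
    have : 0 ≤ |g| / w := by positivity
    linarith
  have e1 : (1 + (|g| / w - 1)) ^ Q = |g| ^ Q / w ^ Q := by
    rw [add_sub_cancel, Real.div_rpow (abs_nonneg _) hw.le]
  rw [e1, le_div_iff₀ (Real.rpow_pos_of_pos hw Q)] at h1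
  have e2 : w ^ Q = w ^ (Q - 1) * w := by
    rw [← Real.rpow_add_one hw.ne']; congr 1; ring
  have h3 : 0 < w ^ (Q - 1) := Real.rpow_pos_of_pos hw _
  have h4 : g ≤ |g| := le_abs_self g
  calc w ^ Q + Q * w ^ (Q - 1) * (g - w) ≤ w ^ Q + Q * w ^ (Q - 1) * (|g| - w) := by
        have : 0 ≤ Q * w ^ (Q - 1) := by positivity
        nlinarith
    _ = (1 + Q * (|g| / w - 1)) * w ^ Q := by
        rw [e2]; field_simp
    _ ≤ |g| ^ Q := h1

theorem main_ineq {p r : (α → ℝ) → ℝ} (hp : IsG p) (hr : IsG r)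
    (hv : vg p = vg (nn : (α → ℝ) → ℝ)) {k : ℕ} (hk : 1 ≤ k) (h2 : 2 * k < Fintype.card α)
    {c : ℝ} (hc : 0 < c)
    (i1 : Integrable (fun x => gp p x * (r x ^ (Fintype.card α - k))⁻¹))
    (i2 : Integrable (fun x => Real.exp (-c * r x ^ 2) * (r x ^ (Fintype.card α - k))⁻¹))
    (hcon : ∫ x, gp p x * (r x ^ (Fintype.card α - k))⁻¹ =
      ∫ x, Real.exp (-c * r x ^ 2) * (r x ^ (Fintype.card α - k))⁻¹) :
    ∫ x, Real.exp (-c * r x ^ 2) ≤ 1 := by
  have hα : 0 < Fintype.card α := by omega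
  set n := Fintype.card α with hn
  set w : (α → ℝ) → ℝ := fun x => Real.exp (-c * r x ^ 2) with hw
  set h : (α → ℝ) → ℝ := fun x => gp p x - w x with hh
  have hrc := hr.cont
  have hwc : Continuous w := by simp only [hw]; fun_prop
  have hgc : Continuous (gp p) := gp_cont hp hv
  have hhc : Continuous h := hgc.sub hwc
  have hwi : Integrable w := wexp_int hr hα hc
  have hwm : MemLp w 2 := by
    rw [memLp_two_iff_integrable_sq hwc.aestronglyMeasurable]
    refine (wexp_int hr hα (b := 2 * c) (by positivity)).congr (Eventually.of_forall fun x => ?_)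
    simp only [hw]
    rw [← Real.exp_nat_mul]; congr 1; push_cast; ring
  have hhm : MemLp h 2 := (gp_memLp hp hv).sub hwm
  have hwpos : ∀ x, 0 < w x := fun x => Real.exp_pos _
  have hwpow : ∀ x (b : ℝ), w x ^ b = Real.exp (-(c * b) * r x ^ 2) := by
    intro x b
    simp only [hw]
    rw [← Real.exp_mul]; congr 1; ring
  have hw2 : ∀ b : ℝ, 0 < b → Integrable (fun x => w x ^ b) := by
    intro b hb
    simp only [hwpow]
    exact wexp_int hr hα (by positivity)
  have hw2i : ∀ b : ℝ, 0 < b → ∫ x, w x ^ b = b ^ (-((n : ℝ) / 2)) * ∫ x, w x := by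
    intro b hb
    simp only [hwpow]
    exact wexp_scale hr hb
  have hwscale : ∀ (a : ℝ) x, w (a • x) = Real.exp (-(c * a ^ 2) * r x ^ 2) := by
    intro a x
    simp only [hw]
    rw [hr.hom, mul_pow, sq_abs]; congr 1; ring
  have hwsm : ∀ a : ℝ, 0 < a → MemLp (fun x => w (a • x)) 2 := fun a ha =>
    scale_memLp hwc hwm ha
  have hia : ∀ a : ℝ, 0 < a → Integrable (fun x => h x * Real.exp (-(c * a ^ 2) * r x ^ 2)) := by
    intro a ha
    have := hhm.integrable_mul (hwsm a ha)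
    refine this.congr (Eventually.of_forall fun x => ?_)
    simp only [Pi.mul_apply, hwscale]
  have hhi : Integrable (fun x => h x * (r x ^ (n - k))⁻¹) := by
    refine (i1.sub i2).congr (Eventually.of_forall fun x => ?_)
    simp only [hh, hw, Pi.sub_apply]
    ring
  obtain ⟨o1, o2⟩ := om_mell hhc hr hα (m := n - k) (by omega) hc hhi
  have hzero : ∫ x, h x * (r x ^ (n - k))⁻¹ = 0 := by
    have : ∫ x, h x * (r x ^ (n - k))⁻¹ = (∫ x, gp p x * (r x ^ (n - k))⁻¹) -
        ∫ x, Real.exp (-c * r x ^ 2) * (r x ^ (n - k))⁻¹ := by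
      rw [← integral_sub i1 i2]
      refine integral_congr_ae (Eventually.of_forall fun x => ?_)
      simp only [hh, hw]
      ring
    rw [this, hcon, sub_self]
  rw [hzero, mul_zero] at o2
  have key := abs_asm (n := n) (k := k) hk h2 (om h r c) (ph h) (1 - ∫ x, w x) o1 o2 ?_
    (ph_pos hhc hhm hk h2) ?_
  · linarith
  · -- quadratic relation
    intro a ha
    have ha0 : 0 < a := ha.1
    have q1 := gp_B hp hv ha0
    have hgm := gp_memLp hp hv
    have hhsm := scale_memLp hhc hhm ha0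
    have t1 : Integrable (fun x => w x * w (a • x)) := hwm.integrable_mul (hwsm a ha0)
    have t2 : Integrable (fun x => h x * w (a • x)) := hhm.integrable_mul (hwsm a ha0)
    have t3 : Integrable (fun x => w x * h (a • x)) := hwm.integrable_mul hhsm
    have t4 : Integrable (fun x => h x * h (a • x)) := hhm.integrable_mul hhsm
    have e1 : ∫ x, gp p x * gp p (a • x) = (∫ x, w x * w (a • x)) + (∫ x, h x * w (a • x)) +
        (∫ x, w x * h (a • x)) + ∫ x, h x * h (a • x) := by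
      have t12 : Integrable (fun x => w x * w (a • x) + h x * w (a • x)) := t1.add t2
      have t123 : Integrable (fun x => w x * w (a • x) + h x * w (a • x) + w x * h (a • x)) :=
        t12.add t3
      rw [← integral_add t1 t2, ← integral_add t12 t3, ← integral_add t123 t4]
      refine integral_congr_ae (Eventually.of_forall fun x => ?_)
      simp only [Pi.add_apply, hh]
      ring
    have e2 : ∫ x, w x * w (a • x) = (1 + a ^ 2) ^ (-((n : ℝ) / 2)) * ∫ x, w x := by
      rw [← hw2i (1 + a ^ 2) (by positivity)]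
      refine integral_congr_ae (Eventually.of_forall fun x => ?_)
      simp only
      rw [hwscale, hwpow]
      simp only [hw]
      rw [← Real.exp_add]; congr 1; ring
    have e3 : ∫ x, h x * w (a • x) = om h r c a := by
      rw [om]
      refine integral_congr_ae (Eventually.of_forall fun x => ?_)
      simp only [hwscale]
    have e4 : ∫ x, w x * h (a • x) = (a ^ n)⁻¹ * om h r c a⁻¹ := by
      have := smul_intg (fun x => h x * w (a⁻¹ • x)) ha0
      have e5 : ∀ x, h (a • x) * w (a⁻¹ • a • x) = w x * h (a • x) := by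
        intro x
        rw [smul_smul, inv_mul_cancel₀ ha0.ne', one_smul, mul_comm]
      simp only [e5] at this
      rw [this, Real.rpow_neg ha0.le, Real.rpow_natCast, om]
      congr 1
      refine integral_congr_ae (Eventually.of_forall fun x => ?_)
      simp only [hwscale]
    rw [e1, e2, e3, e4] at q1
    have e6 : ph h a = ∫ x, h x * h (a • x) := rfl
    rw [e6]
    linear_combination q1
  · -- convexity
    intro a ha
    have ha1 : (1 : ℝ) < a := ha
    have ha0 : 0 < a := by linarith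
    have ha2 : 1 < a ^ 2 := by nlinarith
    have hQ : 2 < 1 + a ^ 2 := by linarith
    have hQ0 : 0 < 1 + a ^ 2 := by linarith
    obtain ⟨s1, s2⟩ := gp_A hp hv hQ
    have s3 : ∫ x, (w x ^ (1 + a ^ 2) + (1 + a ^ 2) * (h x * Real.exp (-(c * a ^ 2) * r x ^ 2))) ≤
        ∫ x, |gp p x| ^ (1 + a ^ 2) := by
      refine integral_mono ((hw2 _ hQ0).add ((hia a ha0).const_mul _)) s1 fun x => ?_
      have := conv_ineq (g := gp p x) (hwpos x) (Q := 1 + a ^ 2) (by linarith)
      refine le_trans (le_of_eq ?_) this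
      have e7 : (1 + a ^ 2 - 1) = a ^ 2 := by ring
      simp only [Pi.add_apply]
      rw [e7, hwpow x (a ^ 2)]
      simp only [hh]
      ring
    rw [integral_add (hw2 _ hQ0) ((hia a ha0).const_mul _), integral_const_mul,
      hw2i _ hQ0] at s3
    have e8 : ∫ x, h x * Real.exp (-(c * a ^ 2) * r x ^ 2) = om h r c a := rfl
    rw [e8] at s3
    have e9 : (1 + a ^ 2) ^ (-((n : ℝ) / 2) - 1) = (1 + a ^ 2) ^ (-((n : ℝ) / 2)) / (1 + a ^ 2) := by
      rw [Real.rpow_sub hQ0, Real.rpow_one]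
    rw [e9, div_mul_eq_mul_div, le_div_iff₀ hQ0]
    linarith

end Pool.Agent.N551.BK
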