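import Mathlib
import Pool.Agent.N551.BK.Asm

set_option autoImplicit false

/-! The pairing identity. -/

namespace Pool.Agent.N551.BK

open MeasureTheory Filter Topology Set Matrix
open scoped ENNReal
open Pool.Agent.Helper142.Kib

variable {α : Type} [Fintype α]

lemma norm_le_nn (x : α → ℝ) : ‖x‖ ≤ nn x := by
  rw [pi_norm_le_iff_of_nonneg (show 0 ≤ nn x from Real.sqrt_nonneg _)]
  intro i
  rw [Real.norm_eq_abs, nn]
  apply Real.abs_le_sqrt
  unfold dotProduct
  rw [sq]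
  exact Finset.single_le_sum (f := fun i => x i * x i) (fun i _ => mul_self_nonneg _)
    (Finset.mem_univ i)

lemma dot_nonneg (x : α → ℝ) : 0 ≤ x ⬝ᵥ x := by
  unfold dotProduct
  exact Finset.sum_nonneg fun i _ => mul_self_nonneg _

lemma dot_cont : Continuous (fun x : α → ℝ => x ⬝ᵥ x) := by
  unfold dotProduct; fun_prop

lemma pair_int {u q : (α → ℝ) → ℝ} (hu : Continuous u) {C : ℝ} (hb : ∀ x, |u x| ≤ C)
    (hm2 : MemLp u 2) (hq : IsG q) {m : ℕ} (hm : m < Fintype.card α)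
    (h2m : Fintype.card α < 2 * m) : Integrable (fun x => u x * (q x ^ m)⁻¹) := by
  obtain ⟨b0, B0, h0, _, hB⟩ := B_bounds.b_bounds q hq
  have hC : 0 ≤ C := (abs_nonneg _).trans (hb 0)
  have hqc := hq.cont
  have d1 := (B_int.b_int q hq m hm 1 one_pos).const_mul (C * Real.exp 1)
  have d2 := hm2.integrable_sq
  have d3 : Integrable (fun x : α → ℝ => (2 / b0) ^ (2 * m) * (1 + ‖x‖) ^ (-((2 * m : ℕ) : ℝ))) :=
    (integrable_one_add_norm (by
      rw [Module.finrank_fintype_fun_eq_card]; exact_mod_cast h2m)).const_mul _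
  refine Integrable.mono' ((d1.add d2).add d3) ?_ (Eventually.of_forall fun x => ?_)
  · have hmeas : Measurable (fun x => u x * (q x ^ m)⁻¹) :=
      hu.measurable.mul ((hqc.measurable.pow_const m).inv)
    exact hmeas.aestronglyMeasurable
  · simp only [Pi.add_apply]
    have hq0 : 0 ≤ q x := g_nonneg hq x
    have hqm : 0 ≤ (q x ^ m)⁻¹ := by positivity
    rw [norm_mul, Real.norm_eq_abs, Real.norm_of_nonneg hqm]
    have t1 : 0 ≤ C * Real.exp 1 * ((q x ^ m)⁻¹ * Real.exp (-1 * (x ⬝ᵥ x))) := by positivity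
    have t2 : 0 ≤ u x ^ 2 := sq_nonneg _
    have t3 : 0 ≤ (2 / b0) ^ (2 * m) * (1 + ‖x‖) ^ (-((2 * m : ℕ) : ℝ)) := by positivity
    by_cases hx : x ⬝ᵥ x ≤ 1
    · have e1 : 1 ≤ Real.exp 1 * Real.exp (-1 * (x ⬝ᵥ x)) := by
        rw [← Real.exp_add]
        apply Real.one_le_exp
        linarith
      have : |u x| * (q x ^ m)⁻¹ ≤ C * Real.exp 1 * ((q x ^ m)⁻¹ * Real.exp (-1 * (x ⬝ᵥ x))) := by
        calc |u x| * (q x ^ m)⁻¹ ≤ C * (q x ^ m)⁻¹ := by gcongr; exact hb x
          _ = C * (q x ^ m)⁻¹ * 1 := (mul_one _).symm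
          _ ≤ C * (q x ^ m)⁻¹ * (Real.exp 1 * Real.exp (-1 * (x ⬝ᵥ x))) := by gcongr
          _ = _ := by ring
      linarith
    · push Not at hx
      have hnn1 : 1 < nn x := by
        unfold nn
        rw [Real.lt_sqrt zero_le_one]; simpa using hx
      have hnn : (1 + ‖x‖) / 2 ≤ nn x := by
        have := norm_le_nn x
        linarith
      have hq1 : b0 * ((1 + ‖x‖) / 2) ≤ q x := (mul_le_mul_of_nonneg_left hnn h0.le).trans (hB x).1
      have hpos : 0 < b0 * ((1 + ‖x‖) / 2) := by positivity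
      have hsq : ((q x ^ m)⁻¹) ^ 2 ≤ (2 / b0) ^ (2 * m) * (1 + ‖x‖) ^ (-((2 * m : ℕ) : ℝ)) := by
        rw [Real.rpow_neg (by positivity), Real.rpow_natCast, ← inv_pow, ← pow_mul, mul_comm m 2,
          ← inv_pow, ← mul_pow]
        refine pow_le_pow_left₀ (by positivity) ?_ _
        have e2 : 2 / b0 * (1 + ‖x‖)⁻¹ = (b0 * ((1 + ‖x‖) / 2))⁻¹ := by
          have : (1 + ‖x‖) ≠ 0 := by positivity
          field_simp
        rw [e2]
        exact inv_anti₀ hpos hq1
      have h5 : |u x| * (q x ^ m)⁻¹ ≤ u x ^ 2 + ((q x ^ m)⁻¹) ^ 2 := by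
        have := sq_nonneg (|u x| - (q x ^ m)⁻¹)
        have h6 : |u x| ^ 2 = u x ^ 2 := sq_abs _
        nlinarith [mul_nonneg (abs_nonneg (u x)) hqm]
      linarith

/-- multiplication formula -/
lemma ct_mult {h1 h2 : (α → ℝ) → ℝ} (i1 : Integrable h1) (i2 : Integrable h2) :
    ∫ x, h1 x * ct h2 x = ∫ y, ct h1 y * h2 y := by
  have hcc : Continuous (fun p : (α → ℝ) × (α → ℝ) => Real.cos (2 * Real.pi * (p.1 ⬝ᵥ p.2))) := by
    have := NF.NF_cont_dot (α := α)
    fun_prop
  have hi : Integrable (Function.uncurry (fun x y => h1 x * h2 y *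
      Real.cos (2 * Real.pi * (x ⬝ᵥ y)))) (volume.prod volume) := by
    have := i1.mul_prod i2
    exact this.mul_bdd (c := 1) hcc.aestronglyMeasurable (Eventually.of_forall fun p => by
      rw [Real.norm_eq_abs]; exact Real.abs_cos_le_one _)
  have h := integral_integral_swap hi
  have e1 : ∫ x, h1 x * ct h2 x = ∫ x, ∫ y, h1 x * h2 y * Real.cos (2 * Real.pi * (x ⬝ᵥ y)) := by
    refine integral_congr_ae (Eventually.of_forall fun x => ?_)
    simp only
    rw [ct, ← integral_const_mul]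
    refine integral_congr_ae (Eventually.of_forall fun y => ?_)
    simp only; ring
  have e2 : ∫ y, ct h1 y * h2 y = ∫ y, ∫ x, h1 x * h2 y * Real.cos (2 * Real.pi * (x ⬝ᵥ y)) := by
    refine integral_congr_ae (Eventually.of_forall fun y => ?_)
    simp only
    rw [ct, ← integral_mul_const]
    refine integral_congr_ae (Eventually.of_forall fun x => ?_)
    simp only
    rw [dotProduct_comm y x]; ring
  rw [e1, e2, h]

lemma ff_int' {p : (α → ℝ) → ℝ} (hp : IsG p) (hα : 0 < Fintype.card α) : Integrable (ff p) := by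
  have := wexp_int hp hα Real.pi_pos
  exact this

lemma ff_memLp' {p : (α → ℝ) → ℝ} (hp : IsG p) (hα : 0 < Fintype.card α) : MemLp (ff p) 2 := by
  rw [memLp_two_iff_integrable_sq (ff_int' hp hα).1]
  refine (wexp_int hp hα (b := 2 * Real.pi) (by positivity)).congr
    (Eventually.of_forall fun x => ?_)
  simp only [ff]
  rw [← Real.exp_nat_mul]
  congr 1
  push_cast
  ring

lemma gp_facts {p : (α → ℝ) → ℝ} (hp : IsG p) (hα : 0 < Fintype.card α) :
    Continuous (gp p) ∧ (∀ x, |gp p x| ≤ ∫ y, |ff p y|) ∧ MemLp (gp p) 2 :=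
  ⟨ct_cont (ff_int' hp hα), fun x => ct_le (ff_int' hp hα) x,
    (ct_planch (ff_int' hp hα) (ff_memLp' hp hα) (ff_even hp)).1⟩

lemma om_symm {p r : (α → ℝ) → ℝ} (hp : IsG p) (hr : IsG r) (hα : 0 < Fintype.card α) {a : ℝ}
    (ha : 0 < a) : om (gp r) p Real.pi a = om (gp p) r Real.pi a := by
  have hsc : ∀ (q : (α → ℝ) → ℝ), IsG q → ∀ x, Real.exp (-(Real.pi * a ^ 2) * q x ^ 2) =
      ff q (a • x) := by
    intro q hq x
    rw [ff, hq.hom, mul_pow, sq_abs]; congr 1; ring
  have i2 : Integrable (fun x => ff p (a • x)) := smul_int (ff_int' hp hα) ha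
  have h1 := ct_mult (ff_int' hr hα) i2
  have e1 : om (gp r) p Real.pi a = ∫ y, ct (ff r) y * ff p (a • y) := by
    rw [om]
    refine integral_congr_ae (Eventually.of_forall fun x => ?_)
    simp only [hsc p hp]
    rfl
  rw [e1, ← h1]
  have e2 : ∀ x, ct (fun x => ff p (a • x)) x = (a ^ Fintype.card α)⁻¹ * gp p (a⁻¹ • x) := by
    intro x
    have h3 := ct_scale (ff p) (a := a⁻¹) (by positivity) x
    simp only [inv_inv] at h3
    have h4 : ct (fun y => ((a⁻¹) ^ Fintype.card α)⁻¹ * ff p (a • y)) x =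
        a ^ Fintype.card α * ct (fun x => ff p (a • x)) x := by
      unfold ct
      rw [← integral_const_mul]
      refine integral_congr_ae (Eventually.of_forall fun y => ?_)
      simp only
      rw [inv_pow, inv_inv]; ring
    rw [h4] at h3
    rw [gp, ← h3, ← mul_assoc, inv_mul_cancel₀ (by positivity), one_mul]
  simp only [e2]
  have h5 := smul_intg (fun x => ff r x * gp p (a⁻¹ • x)) ha
  rw [Real.rpow_neg ha.le, Real.rpow_natCast, ← integral_const_mul] at h5
  rw [om]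
  have e3 : ∫ x, ff r x * ((a ^ Fintype.card α)⁻¹ * gp p (a⁻¹ • x)) =
      ∫ x, (a ^ Fintype.card α)⁻¹ * (ff r x * gp p (a⁻¹ • x)) := by
    refine integral_congr_ae (Eventually.of_forall fun x => ?_)
    simp only; ring
  rw [e3, ← h5]
  refine integral_congr_ae (Eventually.of_forall fun x => ?_)
  simp only [hsc r hr]
  rw [smul_smul, inv_mul_cancel₀ ha.ne', one_smul, mul_comm]

lemma pair_symm {p r : (α → ℝ) → ℝ} (hp : IsG p) (hr : IsG r) {m : ℕ}
    (hm : m < Fintype.card α) (h2m : Fintype.card α < 2 * m) :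
    ∫ x, gp r x * (p x ^ m)⁻¹ = ∫ x, gp p x * (r x ^ m)⁻¹ := by
  have hα : 0 < Fintype.card α := by omega
  have hm1 : 1 ≤ m := by omega
  obtain ⟨a1, a2, a3⟩ := gp_facts hp hα
  obtain ⟨b1, b2, b3⟩ := gp_facts hr hα
  have h1 := (om_mell b1 hp hα hm1 Real.pi_pos (pair_int b1 b2 b3 hp hm h2m)).2
  have h2 := (om_mell a1 hr hα hm1 Real.pi_pos (pair_int a1 a2 a3 hr hm h2m)).2
  have h3 : ∫ a in Ioi (0 : ℝ), a ^ (m - 1) * om (gp r) p Real.pi a =
      ∫ a in Ioi (0 : ℝ), a ^ (m - 1) * om (gp p) r Real.pi a := by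
    refine setIntegral_congr_fun measurableSet_Ioi fun a ha => ?_
    have := om_symm hp hr hα (show (0 : ℝ) < a from ha)
    rw [this]
  rw [h1, h2] at h3
  exact mul_left_cancel₀ (K0_pos Real.pi_pos hm1).ne' h3

end Pool.Agent.N551.BK
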