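import Mathlib
import Pool.Agent.N551.BK.Pair

set_option autoImplicit false

/-! The limit `ε → 0` in the section formula. -/

namespace Pool.Agent.N551.BK

open MeasureTheory Filter Topology Set Matrix
open scoped ENNReal
open Pool.Agent.Helper142.Kib

variable {α : Type} [Fintype α]

lemma gauss_one : Integrable (fun z : α → ℝ => Real.exp (-Real.pi * (z ⬝ᵥ z))) ∧
    ∫ z : α → ℝ, Real.exp (-Real.pi * (z ⬝ᵥ z)) = 1 := by
  have h := exp_int (α := α) (p := nn) Nn_isG.nn_isG rfl one_pos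
  simp only [nn_sq, mul_one, Real.one_rpow] at h
  exact h

lemma gauss_intb {b : ℝ} (hb : 0 < b) : Integrable (fun z : α → ℝ => Real.exp (-b * (z ⬝ᵥ z))) := by
  have h := NF.NF_gauss_int (α := α) (b / Real.pi) (by positivity)
  refine h.congr (Eventually.of_forall fun z => ?_)
  simp only
  congr 1
  field_simp

/-- a small constant below `r` -/
lemma low {r : (α → ℝ) → ℝ} (hr : IsG r) : ∃ b : ℝ, 0 < b ∧ b ^ 2 ≤ 1 / 4 ∧
    ∀ x, ff r x ≤ Real.exp (-(Real.pi * b ^ 2) * (x ⬝ᵥ x)) := by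
  obtain ⟨b0, B0, h0, _, hB⟩ := B_bounds.b_bounds r hr
  refine ⟨min b0 (1 / 2), by positivity, ?_, fun x => ?_⟩
  · have h1 : min b0 (1 / 2) ≤ 1 / 2 := min_le_right _ _
    have h2 : 0 < min b0 (1 / 2) := by positivity
    nlinarith
  · unfold ff
    apply Real.exp_le_exp.2
    have h1 : min b0 (1 / 2) * nn x ≤ r x :=
      (mul_le_mul_of_nonneg_right (min_le_left _ _) (Real.sqrt_nonneg _)).trans (hB x).1
    have h3 : 0 ≤ min b0 (1 / 2) * nn x := mul_nonneg (by positivity) (Real.sqrt_nonneg _)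
    have h4 := pow_le_pow_left₀ h3 h1 2
    rw [mul_pow, nn_sq] at h4
    have := Real.pi_pos
    nlinarith

lemma Heps {r : (α → ℝ) → ℝ} {ε : ℝ} (hε : 0 < ε) (y : α → ℝ) :
    ε ^ (-((Fintype.card α : ℝ) / 2)) * ∫ x, ff r x *
      Real.exp (-Real.pi * ((x - y) ⬝ᵥ (x - y)) / ε) =
    ∫ z : α → ℝ, ff r (y + √ε • z) * Real.exp (-Real.pi * (z ⬝ᵥ z)) := by
  have h1 := smul_intg (fun x => ff r (y + x) *
    Real.exp (-Real.pi * ((y + x - y) ⬝ᵥ (y + x - y)) / ε)) (b := √ε) (Real.sqrt_pos.2 hε)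
  have h2 := integral_add_left_eq_self (μ := (volume : Measure (α → ℝ)))
    (fun x => ff r x * Real.exp (-Real.pi * ((x - y) ⬝ᵥ (x - y)) / ε)) y
  have e : (√ε) ^ (-(Fintype.card α : ℝ)) = ε ^ (-((Fintype.card α : ℝ) / 2)) := by
    rw [Real.sqrt_eq_rpow, ← Real.rpow_mul hε.le]; congr 1; ring
  rw [h2, e] at h1
  rw [← h1]
  refine integral_congr_ae (Eventually.of_forall fun z => ?_)
  simp only [add_sub_cancel_left, smul_dotProduct, dotProduct_smul, smul_eq_mul]
  have h7 := Real.mul_self_sqrt hε.le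
  have e5 : -Real.pi * (√ε * (√ε * (z ⬝ᵥ z))) / ε = -Real.pi * (z ⬝ᵥ z) := by
    rw [← mul_assoc √ε, h7]
    field_simp
  rw [e5]

lemma quad1 (x y : α → ℝ) {s : ℝ} (hs : 0 < s) :
    (y ⬝ᵥ y) / (1 + s) - (x ⬝ᵥ x) / s ≤ (x - y) ⬝ᵥ (x - y) := by
  have h : 0 ≤ (((1 + s) • x - s • y) ⬝ᵥ ((1 + s) • x - s • y)) := dot_nonneg _
  simp only [sub_dotProduct, dotProduct_sub, smul_dotProduct, dotProduct_smul, smul_eq_mul] at h ⊢
  rw [dotProduct_comm y x] at h ⊢
  rw [div_sub_div _ _ (by positivity) (by positivity), div_le_iff₀ (by positivity)]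
  nlinarith

lemma FF_swap {r : (α → ℝ) → ℝ} (hr : IsG r) {k : ℕ} (hk : k < Fintype.card α) {ε : ℝ}
    (hε : 0 < ε) :
    ∫ x, ff r x * FF r k ε x =
      ∫ y, (r y ^ k)⁻¹ * ∫ z : α → ℝ, ff r (y + √ε • z) * Real.exp (-Real.pi * (z ⬝ᵥ z)) := by
  obtain ⟨b, hb, _, hlow⟩ := low hr
  have hrc := hr.cont
  set G : (α → ℝ) → (α → ℝ) → ℝ := fun x y => ff r x * ((r y ^ k)⁻¹ *
    Real.exp (-Real.pi * ((x - y) ⬝ᵥ (x - y)) / ε)) with hG
  have hGi : Integrable (Function.uncurry G) (volume.prod volume) := by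
    have d1 : Integrable (fun x : α → ℝ => Real.exp (-(Real.pi * b ^ 2 / 2) * (x ⬝ᵥ x))) :=
      gauss_intb (by positivity)
    have d2 := B_int.b_int r hr k hk (Real.pi / (ε + 2 / b ^ 2)) (by positivity)
    refine Integrable.mono' (d1.mul_prod d2) ?_ (Eventually.of_forall fun q => ?_)
    · have m1 : Measurable (fun q : (α → ℝ) × (α → ℝ) => ff r q.1) := by
        unfold ff
        exact (((hrc.comp continuous_fst).measurable.pow_const 2).const_mul _).exp
      have m2 : Measurable (fun q : (α → ℝ) × (α → ℝ) => (r q.2 ^ k)⁻¹) :=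
        ((hrc.comp continuous_snd).measurable.pow_const k).inv
      have m3 : Measurable (fun q : (α → ℝ) × (α → ℝ) =>
          Real.exp (-Real.pi * ((q.1 - q.2) ⬝ᵥ (q.1 - q.2)) / ε)) := by
        have : Continuous (fun q : (α → ℝ) × (α → ℝ) => (q.1 - q.2) ⬝ᵥ (q.1 - q.2)) :=
          dot_cont.comp (by fun_prop : Continuous fun q : (α → ℝ) × (α → ℝ) => q.1 - q.2)
        exact (by fun_prop : Continuous (fun q : (α → ℝ) × (α → ℝ) =>
          Real.exp (-Real.pi * ((q.1 - q.2) ⬝ᵥ (q.1 - q.2)) / ε))).measurable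
      exact (m1.mul (m2.mul m3)).aestronglyMeasurable
    · obtain ⟨x, y⟩ := q
      simp only [Function.uncurry, hG]
      have hq0 : 0 ≤ r y := g_nonneg hr y
      have hf0 := (ff_pos r x).le
      rw [Real.norm_of_nonneg (by positivity)]
      have h1 := hlow x
      have h2 := quad1 x y (s := 2 / (b ^ 2 * ε)) (by positivity)
      have h3 : Real.exp (-Real.pi * ((x - y) ⬝ᵥ (x - y)) / ε) ≤
          Real.exp (Real.pi * b ^ 2 / 2 * (x ⬝ᵥ x)) *
          Real.exp (-(Real.pi / (ε + 2 / b ^ 2)) * (y ⬝ᵥ y)) := by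
        rw [← Real.exp_add]
        apply Real.exp_le_exp.2
        have e1 : (y ⬝ᵥ y) / (1 + 2 / (b ^ 2 * ε)) = ε * ((y ⬝ᵥ y) / (ε + 2 / b ^ 2)) := by
          field_simp
        have e2 : (x ⬝ᵥ x) / (2 / (b ^ 2 * ε)) = ε * (b ^ 2 / 2 * (x ⬝ᵥ x)) := by
          field_simp
        rw [e1, e2, ← mul_sub] at h2
        have h4 : (y ⬝ᵥ y) / (ε + 2 / b ^ 2) - b ^ 2 / 2 * (x ⬝ᵥ x) ≤
            ((x - y) ⬝ᵥ (x - y)) / ε := by
          rw [le_div_iff₀ hε]; linarith
        have h5 := mul_le_mul_of_nonneg_left h4 Real.pi_pos.le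
        calc -Real.pi * ((x - y) ⬝ᵥ (x - y)) / ε = -(Real.pi * (((x - y) ⬝ᵥ (x - y)) / ε)) := by
              ring
          _ ≤ -(Real.pi * ((y ⬝ᵥ y) / (ε + 2 / b ^ 2) - b ^ 2 / 2 * (x ⬝ᵥ x))) := by linarith
          _ = _ := by ring
      calc ff r x * ((r y ^ k)⁻¹ * Real.exp (-Real.pi * ((x - y) ⬝ᵥ (x - y)) / ε))
          ≤ Real.exp (-(Real.pi * b ^ 2) * (x ⬝ᵥ x)) * ((r y ^ k)⁻¹ *
            (Real.exp (Real.pi * b ^ 2 / 2 * (x ⬝ᵥ x)) *
          Real.exp (-(Real.pi / (ε + 2 / b ^ 2)) * (y ⬝ᵥ y)))) := by gcongr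
        _ = (Real.exp (-(Real.pi * b ^ 2) * (x ⬝ᵥ x)) *
            Real.exp (Real.pi * b ^ 2 / 2 * (x ⬝ᵥ x))) * ((r y ^ k)⁻¹ *
          Real.exp (-(Real.pi / (ε + 2 / b ^ 2)) * (y ⬝ᵥ y))) := by ring
        _ = _ := by
          rw [← Real.exp_add]
          congr 2
          ring
  have h := integral_integral_swap hGi
  have e1 : ∫ x, ff r x * FF r k ε x = ε ^ (-((Fintype.card α : ℝ) / 2)) *
      ∫ x, ∫ y, G x y := by
    rw [← integral_const_mul]
    refine integral_congr_ae (Eventually.of_forall fun x => ?_)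
    simp only [hG, FF]
    rw [integral_const_mul]; ring
  rw [e1, h, ← integral_const_mul]
  refine integral_congr_ae (Eventually.of_forall fun y => ?_)
  simp only
  rw [← Heps hε y]
  have e2 : ∫ x, G x y = (r y ^ k)⁻¹ * ∫ x, ff r x *
      Real.exp (-Real.pi * ((x - y) ⬝ᵥ (x - y)) / ε) := by
    rw [← integral_const_mul]
    refine integral_congr_ae (Eventually.of_forall fun x => ?_)
    simp only [hG]
    ring
  rw [e2]
  ring

lemma quad2 (y z : α → ℝ) {ε : ℝ} (hε : 0 < ε) :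
    (y ⬝ᵥ y) / 2 - ε * (z ⬝ᵥ z) ≤ (y + √ε • z) ⬝ᵥ (y + √ε • z) := by
  have h := quad1 (√ε • z) (-y) (s := 1) one_pos
  have e1 : (√ε • z) ⬝ᵥ (√ε • z) = ε * (z ⬝ᵥ z) := by
    simp only [smul_dotProduct, dotProduct_smul, smul_eq_mul]
    rw [← mul_assoc, Real.mul_self_sqrt hε.le]
  have e2 : √ε • z - -y = y + √ε • z := by rw [sub_neg_eq_add, add_comm]
  rw [e1, e2] at h
  simp only [neg_dotProduct, dotProduct_neg, neg_neg, div_one] at h
  have e3 : (1 : ℝ) + 1 = 2 := by norm_num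
  rw [e3] at h
  exact h

lemma FF_lim {r : (α → ℝ) → ℝ} (hr : IsG r) {k : ℕ} (hk : k < Fintype.card α) :
    Tendsto (fun j : ℕ => ∫ x, ff r x * FF r k (1 / ((j : ℝ) + 1)) x) atTop
      (𝓝 (∫ y, (r y ^ k)⁻¹ * ff r y)) := by
  obtain ⟨b, hb, hb4, hlow⟩ := low hr
  have hrc := hr.cont
  have hffc : Continuous (ff r) := by unfold ff; fun_prop
  set e : ℕ → ℝ := fun j => 1 / ((j : ℝ) + 1) with he
  have he0 : ∀ j, 0 < e j := fun j => by simp only [he]; positivity
  have he1 : ∀ j, e j ≤ 1 := fun j => by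
    simp only [he]
    rw [div_le_one (by positivity)]
    have : (0 : ℝ) ≤ j := by positivity
    linarith
  have helim : Tendsto e atTop (𝓝 0) := tendsto_one_div_add_atTop_nhds_zero_nat
  have hsw : ∀ j, ∫ x, ff r x * FF r k (e j) x =
      ∫ y, (r y ^ k)⁻¹ * ∫ z : α → ℝ, ff r (y + √(e j) • z) *
        Real.exp (-Real.pi * (z ⬝ᵥ z)) := fun j => FF_swap hr hk (he0 j)
  have hfun : (fun j : ℕ => ∫ x, ff r x * FF r k (1 / ((j : ℝ) + 1)) x) =
      fun j => ∫ y, (r y ^ k)⁻¹ * ∫ z : α → ℝ, ff r (y + √(e j) • z) *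
        Real.exp (-Real.pi * (z ⬝ᵥ z)) := funext hsw
  rw [hfun]
  obtain ⟨g1, g2⟩ := gauss_one (α := α)
  have g3 : Integrable (fun z : α → ℝ => Real.exp (-(Real.pi / 2) * (z ⬝ᵥ z))) :=
    gauss_intb (by positivity)
  set Cz := ∫ z : α → ℝ, Real.exp (-(Real.pi / 2) * (z ⬝ᵥ z)) with hCz
  have d2 := (B_int.b_int r hr k hk (Real.pi * b ^ 2 / 2) (by positivity)).mul_const Cz
  have hdc : Continuous (fun z : α → ℝ => z ⬝ᵥ z) := dot_cont
  refine tendsto_integral_of_dominated_convergence _ (fun j => ?_) d2 (fun j => ?_) ?_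
  · have m1 : Continuous (fun q : (α → ℝ) × (α → ℝ) => ff r (q.1 + √(e j) • q.2) *
        Real.exp (-Real.pi * (q.2 ⬝ᵥ q.2))) := by
      have : Continuous (fun q : (α → ℝ) × (α → ℝ) => q.2 ⬝ᵥ q.2) := hdc.comp continuous_snd
      fun_prop
    have m2 := m1.stronglyMeasurable.integral_prod_right' (ν := (volume : Measure (α → ℝ)))
    have m3 : Measurable (fun y => (r y ^ k)⁻¹) := (hrc.measurable.pow_const k).inv
    exact (m3.mul m2.measurable).aestronglyMeasurable
  · refine Eventually.of_forall fun y => ?_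
    have hq0 : 0 ≤ r y := g_nonneg hr y
    have hpt : ∀ z : α → ℝ, ff r (y + √(e j) • z) * Real.exp (-Real.pi * (z ⬝ᵥ z)) ≤
        Real.exp (-(Real.pi * b ^ 2 / 2) * (y ⬝ᵥ y)) *
          Real.exp (-(Real.pi / 2) * (z ⬝ᵥ z)) := by
      intro z
      have h1 := hlow (y + √(e j) • z)
      have h2 := quad2 y z (he0 j)
      have hz := dot_nonneg z
      calc ff r (y + √(e j) • z) * Real.exp (-Real.pi * (z ⬝ᵥ z))
          ≤ Real.exp (-(Real.pi * b ^ 2) * ((y + √(e j) • z) ⬝ᵥ (y + √(e j) • z))) *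
            Real.exp (-Real.pi * (z ⬝ᵥ z)) := by gcongr
        _ ≤ _ := by
          rw [← Real.exp_add, ← Real.exp_add]
          apply Real.exp_le_exp.2
          have h3 : e j * (z ⬝ᵥ z) ≤ z ⬝ᵥ z := by
            have := he1 j
            nlinarith
          have h4 : (y ⬝ᵥ y) / 2 - (z ⬝ᵥ z) ≤ (y + √(e j) • z) ⬝ᵥ (y + √(e j) • z) := by
            linarith
          have hpb : 0 ≤ Real.pi * b ^ 2 := by positivity
          have h5 := mul_le_mul_of_nonneg_left h4 hpb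
          have h6 : Real.pi * b ^ 2 * (z ⬝ᵥ z) ≤ Real.pi * (1 / 4) * (z ⬝ᵥ z) := by
            have := Real.pi_pos
            gcongr
          have h7 : 0 ≤ Real.pi * (z ⬝ᵥ z) := mul_nonneg Real.pi_pos.le hz
          nlinarith
    have hint : Integrable (fun z : α → ℝ => ff r (y + √(e j) • z) *
        Real.exp (-Real.pi * (z ⬝ᵥ z))) := by
      refine Integrable.mono' (g3.const_mul (Real.exp (-(Real.pi * b ^ 2 / 2) * (y ⬝ᵥ y)))) ?_
        (Eventually.of_forall fun z => ?_)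
      · have : Continuous (fun z : α → ℝ => ff r (y + √(e j) • z) *
          Real.exp (-Real.pi * (z ⬝ᵥ z))) := by fun_prop
        exact this.aestronglyMeasurable
      · rw [Real.norm_of_nonneg (mul_nonneg (ff_pos r _).le (Real.exp_pos _).le)]
        exact hpt z
    have hnn : 0 ≤ ∫ z : α → ℝ, ff r (y + √(e j) • z) * Real.exp (-Real.pi * (z ⬝ᵥ z)) :=
      integral_nonneg fun z => mul_nonneg (ff_pos r _).le (Real.exp_pos _).le
    rw [Real.norm_of_nonneg (by positivity), mul_assoc]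
    refine mul_le_mul_of_nonneg_left ?_ (by positivity)
    rw [hCz, ← integral_const_mul]
    exact integral_mono hint (g3.const_mul _) hpt
  · refine Eventually.of_forall fun y => ?_
    refine Tendsto.const_mul _ ?_
    have hlim : Tendsto (fun j => ∫ z : α → ℝ, ff r (y + √(e j) • z) *
        Real.exp (-Real.pi * (z ⬝ᵥ z))) atTop
        (𝓝 (∫ z : α → ℝ, ff r y * Real.exp (-Real.pi * (z ⬝ᵥ z)))) := by
      refine tendsto_integral_of_dominated_convergence _ (fun j => ?_) g1 (fun j => ?_) ?_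
      · have : Continuous (fun z : α → ℝ => ff r (y + √(e j) • z) *
          Real.exp (-Real.pi * (z ⬝ᵥ z))) := by fun_prop
        exact this.aestronglyMeasurable
      · refine Eventually.of_forall fun z => ?_
        rw [Real.norm_of_nonneg (mul_nonneg (ff_pos r _).le (Real.exp_pos _).le)]
        exact mul_le_of_le_one_left (Real.exp_pos _).le (ff_le r _)
      · refine Eventually.of_forall fun z => ?_
        refine Tendsto.mul_const _ ?_
        have h1 : Tendsto (fun j => y + √(e j) • z) atTop (𝓝 (y + √0 • z)) := by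
          refine tendsto_const_nhds.add (Tendsto.smul_const ?_ z)
          exact (Real.continuous_sqrt.tendsto 0).comp helim
        rw [Real.sqrt_zero, zero_smul, add_zero] at h1
        exact (hffc.tendsto y).comp h1
    rw [integral_const_mul, g2, mul_one] at hlim
    exact hlim

/-- **the pairing** -/
theorem pairing [DecidableEq α] {p r : (α → ℝ) → ℝ} (hp : IsG p) (hr : IsG r) {k m : ℕ}
    (hk : k < Fintype.card α) (hm : m < Fintype.card α) (h2m : Fintype.card α < 2 * m) {c : ℝ}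
    (hFF : ∀ ε : ℝ, 0 < ε → ∀ x : α → ℝ, FF r k ε x = c * ∫ y : α → ℝ, (p y ^ m)⁻¹ *
      Real.exp (-Real.pi * ε * (y ⬝ᵥ y)) * Real.cos (2 * Real.pi * (x ⬝ᵥ y))) :
    c * ∫ x, gp p x * (r x ^ m)⁻¹ = ∫ y, (r y ^ k)⁻¹ * ff r y := by
  have hα : 0 < Fintype.card α := by omega
  obtain ⟨b1, b2, b3⟩ := gp_facts hr hα
  rw [← pair_symm hp hr hm h2m]
  have hPi : ∀ ε : ℝ, 0 < ε → Integrable (fun y : α → ℝ => (p y ^ m)⁻¹ *
      Real.exp (-Real.pi * ε * (y ⬝ᵥ y))) := by
    intro ε hε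
    have := B_int.b_int p hp m hm (Real.pi * ε) (by positivity)
    refine this.congr (Eventually.of_forall fun y => ?_)
    simp only
    congr 2
    ring
  have h1 : ∀ ε : ℝ, 0 < ε → ∫ x, ff r x * FF r k ε x = c * ∫ y, gp r y * ((p y ^ m)⁻¹ *
      Real.exp (-Real.pi * ε * (y ⬝ᵥ y))) := by
    intro ε hε
    have h2 := ct_mult (ff_int' hr hα) (hPi ε hε)
    have h3 : ∀ x, FF r k ε x = c * ct (fun y : α → ℝ => (p y ^ m)⁻¹ *
      Real.exp (-Real.pi * ε * (y ⬝ᵥ y))) x := fun x => hFF ε hε x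
    simp only [h3]
    have e1 : ∫ x, ff r x * (c * ct (fun y : α → ℝ => (p y ^ m)⁻¹ *
      Real.exp (-Real.pi * ε * (y ⬝ᵥ y))) x) = c * ∫ x, ff r x * ct (fun y : α → ℝ =>
        (p y ^ m)⁻¹ * Real.exp (-Real.pi * ε * (y ⬝ᵥ y))) x := by
      rw [← integral_const_mul]
      refine integral_congr_ae (Eventually.of_forall fun x => ?_)
      simp only; ring
    rw [e1, h2]
    rfl
  have hl1 := FF_lim hr hk
  have hl2 : Tendsto (fun j : ℕ => c * ∫ y, gp r y * ((p y ^ m)⁻¹ *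
      Real.exp (-Real.pi * (1 / ((j : ℝ) + 1)) * (y ⬝ᵥ y)))) atTop
      (𝓝 (c * ∫ y, gp r y * (p y ^ m)⁻¹)) := by
    refine Tendsto.const_mul _ ?_
    have hpi := pair_int b1 b2 b3 hp hm h2m
    have hpc := hp.cont
    refine tendsto_integral_of_dominated_convergence _ (fun j => ?_) hpi.norm (fun j => ?_) ?_
    · exact (b1.aestronglyMeasurable).mul (hPi _ (by positivity)).1
    · refine Eventually.of_forall fun y => ?_
      rw [← mul_assoc, norm_mul (gp r y * (p y ^ m)⁻¹)]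
      refine mul_le_of_le_one_right (norm_nonneg _) ?_
      rw [Real.norm_of_nonneg (Real.exp_pos _).le, Real.exp_le_one_iff]
      have := dot_nonneg y
      have h5 : 0 ≤ Real.pi * (1 / ((j : ℝ) + 1)) * (y ⬝ᵥ y) := by positivity
      linarith
    · refine Eventually.of_forall fun y => ?_
      have h6 : Tendsto (fun j : ℕ => Real.exp (-Real.pi * (1 / ((j : ℝ) + 1)) * (y ⬝ᵥ y))) atTop
          (𝓝 (Real.exp (-Real.pi * 0 * (y ⬝ᵥ y)))) := by
        refine (Real.continuous_exp.tendsto _).comp ?_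
        exact (tendsto_one_div_add_atTop_nhds_zero_nat.const_mul _).mul_const _
      simp only [mul_zero, zero_mul, Real.exp_zero] at h6
      have h7 := (h6.const_mul (p y ^ m)⁻¹).const_mul (gp r y)
      simp only [mul_one] at h7
      exact h7
  have heq : (fun j : ℕ => ∫ x, ff r x * FF r k (1 / ((j : ℝ) + 1)) x) =
      fun j : ℕ => c * ∫ y, gp r y * ((p y ^ m)⁻¹ *
      Real.exp (-Real.pi * (1 / ((j : ℝ) + 1)) * (y ⬝ᵥ y))) :=
    funext fun j => h1 _ (by positivity)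
  rw [heq] at hl1
  exact tendsto_nhds_unique hl2 hl1

end Pool.Agent.N551.BK
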