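import Mathlib
import Pool.Agent.N551.BK.Pair2
import Pool.Agent.Helper142.Kib.Statement
import Pool.Agent.Helper142.Kib.G1
import Pool.Agent.Helper142.Kib.G2
import Pool.Agent.Helper142.Kib.Ball_sec
import Pool.Agent.Helper142.Kib.Scale
import Pool.Agent.Helper142.Kib.Vol_nn
import Pool.Agent.Helper142.Kib.Body_gauge
import Pool.Agent.Helper142.Kib.Body_sec
import Pool.Agent.Helper142.Kib.Body_vol

set_option autoImplicit false

/-! Final assembly. -/

namespace Pool.Agent.N551.BK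

open MeasureTheory Filter Topology Set Matrix
open scoped ENNReal
open Pool.Agent.Helper142.Kib

section
variable {α : Type} [Fintype α]

/-- integrals of functions of the gauge -/
lemma radial_ratio [Nonempty α] {r : (α → ℝ) → ℝ} (hr : IsG r) (φ : ℝ → ℝ) (hφ : Measurable φ)
    (h0 : ∀ u, 0 ≤ u → 0 ≤ φ u) :
    ∫ x, φ (r x) = (vg r).toReal / (vg (nn : (α → ℝ) → ℝ)).toReal * ∫ x : α → ℝ, φ (nn x) := by
  have key : ∀ q : (α → ℝ) → ℝ, IsG q → ∫ x, φ (q x) = (vg q).toReal *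
      (∫⁻ u in Set.Ioi (0 : ℝ), ENNReal.ofReal (φ u) *
      ENNReal.ofReal (Fintype.card α * u ^ (Fintype.card α - 1))).toReal := by
    intro q hq
    rw [integral_eq_lintegral_of_nonneg_ae
      (Eventually.of_forall fun x => h0 _ (g_nonneg hq x))
      (hφ.comp hq.cont.measurable).aestronglyMeasurable,
      B_radial.b_radial q hq (fun u => ENNReal.ofReal (φ u)) hφ.ennreal_ofReal,
      ENNReal.toReal_mul]
  have bv := B_fin.b_fin (nn : (α → ℝ) → ℝ) Nn_isG.nn_isG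
  have pv := ENNReal.toReal_pos bv.1.ne' bv.2.ne
  rw [key r hr, key nn Nn_isG.nn_isG]
  field_simp

end

theorem main_norm (ι κ : Type) [Fintype ι] [DecidableEq ι] [Fintype κ] [DecidableEq κ]
    (hι : 1 ≤ Fintype.card ι) (hικ : Fintype.card ι < Fintype.card κ)
    (p r : (ι ⊕ κ → ℝ) → ℝ) (hp : IsG p) (hr : IsG r) (hS : Sec p r)
    (hv : vg p = vg (nn : (ι ⊕ κ → ℝ) → ℝ)) :
    (vg r).toReal ^ Fintype.card ι *
        (vg (nn : (ι → ℝ) → ℝ)).toReal ^ (Fintype.card ι + Fintype.card κ) ≤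
      (vg (nn : (κ → ℝ) → ℝ)).toReal ^ (Fintype.card ι + Fintype.card κ) *
        (vg (nn : (ι ⊕ κ → ℝ) → ℝ)).toReal ^ Fintype.card ι := by
  have hni : Nonempty ι := Fintype.card_pos_iff.1 (by omega)
  have hnk : Nonempty κ := Fintype.card_pos_iff.1 (by omega)
  set k := Fintype.card ι with hk
  set m := Fintype.card κ with hm
  have hcard : Fintype.card (ι ⊕ κ) = k + m := by rw [Fintype.card_sum]
  have bi := B_fin.b_fin (nn : (ι → ℝ) → ℝ) Nn_isG.nn_isG
  have bk := B_fin.b_fin (nn : (κ → ℝ) → ℝ) Nn_isG.nn_isG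
  have bv := B_fin.b_fin (nn : (ι ⊕ κ → ℝ) → ℝ) Nn_isG.nn_isG
  have br := B_fin.b_fin r hr
  have pi := ENNReal.toReal_pos bi.1.ne' bi.2.ne
  have pk := ENNReal.toReal_pos bk.1.ne' bk.2.ne
  have pv := ENNReal.toReal_pos bv.1.ne' bv.2.ne
  have pr := ENNReal.toReal_pos br.1.ne' br.2.ne
  set Vi := (vg (nn : (ι → ℝ) → ℝ)).toReal with hVi
  set Vk := (vg (nn : (κ → ℝ) → ℝ)).toReal with hVk
  set V := (vg (nn : (ι ⊕ κ → ℝ) → ℝ)).toReal with hV
  set Vr := (vg r).toReal with hVr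
  obtain ⟨c, hc, hG1⟩ := G1.G1 ι κ
  -- the radius
  set R : ℝ := (Vk / Vi) ^ ((1 : ℝ) / (k : ℝ)) with hR
  have hR0 : 0 < R := Real.rpow_pos_of_pos (div_pos pk pi) _
  have hRk : R ^ k = Vk / Vi := by
    rw [hR, ← Real.rpow_natCast, ← Real.rpow_mul (div_pos pk pi).le, one_div,
      inv_mul_cancel₀ (by have : k ≠ 0 := by omega
                          exact_mod_cast this), Real.rpow_one]
  have hball : ENNReal.ofReal (R ^ Fintype.card ι) * vg (nn : (ι → ℝ) → ℝ) =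
      vg (nn : (κ → ℝ) → ℝ) := by
    rw [← hk, hRk, ← ENNReal.ofReal_toReal bi.2.ne, ← hVi, ← ENNReal.ofReal_mul
      (div_pos pk pi).le, div_mul_cancel₀ _ pi.ne', hVk, ENNReal.ofReal_toReal bk.2.ne]
  have hSb := Ball_sec.ball_sec (ι := ι) (κ := κ) R hR0 hball
  have hrb : IsG (fun x : ι ⊕ κ → ℝ => R⁻¹ * nn x) := by
    have hnn : IsG (nn : (ι ⊕ κ → ℝ) → ℝ) := Nn_isG.nn_isG
    refine ⟨hnn.cont.const_mul R⁻¹ , fun t x => ?_, fun x hx => ?_⟩
    · show R⁻¹ * nn (t • x) = |t| * (R⁻¹ * nn x)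
      rw [hnn.hom]; ring
    · exact mul_pos (inv_pos.2 hR0) (hnn.pos x hx)
  -- calibration
  set Ik := ∫ x : ι ⊕ κ → ℝ, (nn x ^ k)⁻¹ * Real.exp (-Real.pi * nn x ^ 2) with hIk
  set Im := ∫ x : ι ⊕ κ → ℝ, (nn x ^ m)⁻¹ * Real.exp (-Real.pi * nn x ^ 2) with hIm
  have hQ1 : ∀ x : ι ⊕ κ → ℝ, Q (1 : Matrix (ι ⊕ κ) (ι ⊕ κ) ℝ) x = nn x ^ 2 := by
    intro x
    rw [nn_sq, Q, Matrix.one_mulVec]
  have hcal : R ^ k * Ik = c * Im := by
    have h1 := hG1 nn _ Nn_isG.nn_isG hrb hSb 1 Matrix.PosDef.one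
    rw [inv_one, Matrix.det_one, Real.one_rpow, mul_one] at h1
    simp only [hQ1, ← hk, ← hm] at h1
    have e1 : R ^ k * Ik = (∫⁻ x : ι ⊕ κ → ℝ, ENNReal.ofReal (((R⁻¹ * nn x) ^ k)⁻¹ *
        Real.exp (-Real.pi * nn x ^ 2))).toReal := by
      rw [hIk, ← integral_const_mul, ← integral_eq_lintegral_of_nonneg_ae]
      · refine integral_congr_ae (Eventually.of_forall fun x => ?_)
        simp only
        rw [mul_pow, mul_inv, inv_pow, inv_inv]; ring
      · refine Eventually.of_forall fun x => ?_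
        have : 0 ≤ nn x := Real.sqrt_nonneg _
        simp only [Pi.zero_apply]
        positivity
      · have hnc : Continuous (nn : (ι ⊕ κ → ℝ) → ℝ) := Nn_isG.nn_isG.cont
        have : Measurable (fun x : ι ⊕ κ → ℝ => ((R⁻¹ * nn x) ^ k)⁻¹ *
          Real.exp (-Real.pi * nn x ^ 2)) :=
          (((hnc.measurable.const_mul _).pow_const k).inv).mul
            (((hnc.measurable.pow_const 2).const_mul _).exp)
        exact this.aestronglyMeasurable
    have e2 : c * Im = (ENNReal.ofReal c * ∫⁻ x : ι ⊕ κ → ℝ, ENNReal.ofReal ((nn x ^ m)⁻¹ *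
        Real.exp (-Real.pi * nn x ^ 2))).toReal := by
      rw [ENNReal.toReal_mul, ENNReal.toReal_ofReal hc.le, hIm,
        ← integral_eq_lintegral_of_nonneg_ae]
      · refine Eventually.of_forall fun x => ?_
        have : 0 ≤ nn x := Real.sqrt_nonneg _
        simp only [Pi.zero_apply]
        positivity
      · have hnc : Continuous (nn : (ι ⊕ κ → ℝ) → ℝ) := Nn_isG.nn_isG.cont
        have : Measurable (fun x : ι ⊕ κ → ℝ => (nn x ^ m)⁻¹ *
          Real.exp (-Real.pi * nn x ^ 2)) :=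
          ((hnc.measurable.pow_const m).inv).mul
            (((hnc.measurable.pow_const 2).const_mul _).exp)
        exact this.aestronglyMeasurable
    rw [e1, e2, h1]
  -- the pairing
  have hpair := pairing hp hr (k := k) (m := m) (by omega) (by omega) (by omega) (c := c)
    (fun ε hε x => G2.G2 p r hp hr k m (by omega) (by omega) c hc
      (fun A hA => hG1 p r hp hr hS A hA) ε hε x)
  set ρ := Vr / V with hρ
  have hρ0 : 0 < ρ := div_pos pr pv
  have e3 : ∫ y, (r y ^ k)⁻¹ * ff r y = ρ * Ik := by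
    have := radial_ratio hr (fun u => (u ^ k)⁻¹ * Real.exp (-Real.pi * u ^ 2))
      (by fun_prop) (fun u hu => by positivity)
    exact this
  rw [e3] at hpair
  -- the Gaussian
  have hnn : IsG (nn : (ι ⊕ κ → ℝ) → ℝ) := Nn_isG.nn_isG
  have e4 : ∫ x, Real.exp (-(Real.pi * R ^ 2) * r x ^ 2) * (r x ^ m)⁻¹ =
      ρ * ((R ^ k)⁻¹ * Im) := by
    have h5 := radial_ratio hr (fun u => Real.exp (-(Real.pi * R ^ 2) * u ^ 2) * (u ^ m)⁻¹)
      (by fun_prop) (fun u hu => by positivity)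
    refine h5.trans ?_
    congr 1
    have h6 := smul_intg (fun x : ι ⊕ κ → ℝ => (nn x ^ m)⁻¹ * Real.exp (-Real.pi * nn x ^ 2)) hR0
    rw [← hIm, hcard] at h6
    have h7 : ∫ x : ι ⊕ κ → ℝ, Real.exp (-(Real.pi * R ^ 2) * nn x ^ 2) * (nn x ^ m)⁻¹ =
        R ^ m * ∫ x : ι ⊕ κ → ℝ, (nn (R • x) ^ m)⁻¹ * Real.exp (-Real.pi * nn (R • x) ^ 2) := by
      rw [← integral_const_mul]
      refine integral_congr_ae (Eventually.of_forall fun x => ?_)
      simp only
      rw [hnn.hom, abs_of_pos hR0, mul_pow, mul_pow, mul_inv]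
      have : R ^ m * ((R ^ m)⁻¹ * (nn x ^ m)⁻¹ * Real.exp (-Real.pi * (R ^ 2 * nn x ^ 2))) =
          (R ^ m * (R ^ m)⁻¹) * ((nn x ^ m)⁻¹ * Real.exp (-Real.pi * (R ^ 2 * nn x ^ 2))) := by ring
      rw [this, mul_inv_cancel₀ (by positivity), one_mul, mul_comm]
      congr 2
      ring
    rw [h7, h6, Real.rpow_neg hR0.le, Real.rpow_natCast, pow_add, mul_inv, ← mul_assoc]
    have : R ^ m * ((R ^ k)⁻¹ * (R ^ m)⁻¹) = (R ^ k)⁻¹ * (R ^ m * (R ^ m)⁻¹) := by ring
    rw [this, mul_inv_cancel₀ (by positivity), mul_one]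
  have hcon : ∫ x, gp p x * (r x ^ m)⁻¹ =
      ∫ x, Real.exp (-(Real.pi * R ^ 2) * r x ^ 2) * (r x ^ m)⁻¹ := by
    rw [e4]
    apply mul_left_cancel₀ hc.ne'
    rw [hpair]
    have h8 : (R ^ k)⁻¹ * (R ^ k * Ik) = (R ^ k)⁻¹ * (c * Im) := by rw [hcal]
    rw [← mul_assoc, inv_mul_cancel₀ (by positivity), one_mul] at h8
    rw [h8]; ring
  have hα : 0 < Fintype.card (ι ⊕ κ) := by omega
  have hnm : Fintype.card (ι ⊕ κ) - k = m := by omega
  have hw1 : Integrable (fun x => Real.exp (-(Real.pi * R ^ 2) * r x ^ 2) * (r x ^ m)⁻¹) := by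
    have hrc := hr.cont
    refine pair_int (C := 1) (by fun_prop) (fun x => ?_) ?_ hr (by omega) (by omega)
    · rw [abs_of_pos (Real.exp_pos _), Real.exp_le_one_iff]
      have : 0 ≤ Real.pi * R ^ 2 * r x ^ 2 := by positivity
      linarith
    · rw [memLp_two_iff_integrable_sq (by
        have : Continuous (fun x => Real.exp (-(Real.pi * R ^ 2) * r x ^ 2)) := by fun_prop
        exact this.aestronglyMeasurable)]
      refine (wexp_int hr hα (b := 2 * (Real.pi * R ^ 2)) (by positivity)).congr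
        (Eventually.of_forall fun x => ?_)
      simp only
      rw [← Real.exp_nat_mul]; congr 1; push_cast; ring
  have hfin := main_ineq hp hr hv (k := k) (by omega) (by omega) (c := Real.pi * R ^ 2)
    (by positivity) (by
      rw [hnm]
      exact pair_int (gp_cont hp hv) (gp_le hp hv) (gp_memLp hp hv) hr (by omega) (by omega))
    (by rw [hnm]; exact hw1) (by rw [hnm]; exact hcon)
  -- conclusion
  have e5 : ∫ x, Real.exp (-(Real.pi * R ^ 2) * r x ^ 2) = ρ * (R ^ (k + m))⁻¹ := by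
    have h5 := radial_ratio hr (fun u => Real.exp (-(Real.pi * R ^ 2) * u ^ 2))
      (by fun_prop) (fun u hu => by positivity)
    refine h5.trans ?_
    congr 1
    have h6 := exp_int hnn rfl (b := R ^ 2) (by positivity)
    rw [h6.2, hcard, ← Real.rpow_natCast R 2, ← Real.rpow_mul hR0.le, ← Real.rpow_natCast R (k + m),
      ← Real.rpow_neg hR0.le]
    congr 1
    push_cast
    ring
  rw [e5, ← div_eq_mul_inv, div_le_one (by positivity)] at hfin
  have h9 : ρ ^ k ≤ (Vk / Vi) ^ (k + m) := by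
    calc ρ ^ k ≤ (R ^ (k + m)) ^ k := pow_le_pow_left₀ hρ0.le hfin k
      _ = (R ^ k) ^ (k + m) := by rw [← pow_mul, ← pow_mul, mul_comm]
      _ = _ := by rw [hRk]
  rw [hρ, div_pow, div_pow, div_le_div_iff₀ (by positivity) (by positivity)] at h9
  exact h9

theorem scale2 (ι κ : Type) [Fintype ι] [Fintype κ]
    (hι : 0 < Fintype.card ι)
    (hmain : ∀ p r : (ι ⊕ κ → ℝ) → ℝ, IsG p → IsG r → Sec p r →
      vg p = vg (nn : (ι ⊕ κ → ℝ) → ℝ) →
      (vg r).toReal ^ Fintype.card ι *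
        (vg (nn : (ι → ℝ) → ℝ)).toReal ^ (Fintype.card ι + Fintype.card κ) ≤
      (vg (nn : (κ → ℝ) → ℝ)).toReal ^ (Fintype.card ι + Fintype.card κ) *
        (vg (nn : (ι ⊕ κ → ℝ) → ℝ)).toReal ^ Fintype.card ι)
    (p r : (ι ⊕ κ → ℝ) → ℝ) (hp : IsG p) (hr : IsG r) (hS : Sec p r) :
    (vg r).toReal ^ Fintype.card ι *
        (vg (nn : (ι → ℝ) → ℝ)).toReal ^ (Fintype.card ι + Fintype.card κ) *
        (vg (nn : (ι ⊕ κ → ℝ) → ℝ)).toReal ^ Fintype.card κ ≤
      (vg (nn : (κ → ℝ) → ℝ)).toReal ^ (Fintype.card ι + Fintype.card κ) *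
        (vg (nn : (ι ⊕ κ → ℝ) → ℝ)).toReal ^ Fintype.card ι *
        (vg p).toReal ^ Fintype.card κ := by
  set k := Fintype.card ι with hk
  set m := Fintype.card κ with hm
  have bi := B_fin.b_fin (nn : (ι → ℝ) → ℝ) Nn_isG.nn_isG
  have bk := B_fin.b_fin (nn : (κ → ℝ) → ℝ) Nn_isG.nn_isG
  have bv := B_fin.b_fin (nn : (ι ⊕ κ → ℝ) → ℝ) Nn_isG.nn_isG
  have bp := B_fin.b_fin p hp
  have br := B_fin.b_fin r hr
  have pi := ENNReal.toReal_pos bi.1.ne' bi.2.ne
  have pk := ENNReal.toReal_pos bk.1.ne' bk.2.ne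
  have pv := ENNReal.toReal_pos bv.1.ne' bv.2.ne
  have pp := ENNReal.toReal_pos bp.1.ne' bp.2.ne
  have pr := ENNReal.toReal_pos br.1.ne' br.2.ne
  set Vi := (vg (nn : (ι → ℝ) → ℝ)).toReal with hVi
  set Vk := (vg (nn : (κ → ℝ) → ℝ)).toReal with hVk
  set V := (vg (nn : (ι ⊕ κ → ℝ) → ℝ)).toReal with hV
  set Vp := (vg p).toReal with hVp
  set Vr := (vg r).toReal with hVr
  have hn : Fintype.card (ι ⊕ κ) = k + m := by rw [Fintype.card_sum]
  have hn0 : k + m ≠ 0 := by omega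
  set lam : ℝ := (V / Vp) ^ ((1 : ℝ) / ((k + m : ℕ) : ℝ)) with hlam
  have hlam0 : 0 < lam := Real.rpow_pos_of_pos (div_pos pv pp) _
  have hlamn : lam ^ (k + m) = V / Vp := by
    rw [hlam, ← Real.rpow_natCast, ← Real.rpow_mul (div_pos pv pp).le, one_div,
      inv_mul_cancel₀ (by exact_mod_cast hn0), Real.rpow_one]
  set mu : ℝ := lam ^ ((m : ℝ) / (k : ℝ)) with hmu
  have hmu0 : 0 < mu := Real.rpow_pos_of_pos hlam0 _
  have hmuk : mu ^ k = lam ^ m := by
    have hk0 : (k : ℝ) ≠ 0 := by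
      have : k ≠ 0 := by omega
      exact_mod_cast this
    rw [hmu, ← Real.rpow_natCast, ← Real.rpow_mul hlam0.le, div_mul_cancel₀ _ hk0,
      Real.rpow_natCast]
  have h1 : vg (fun x => p x / lam) = vg (nn : (ι ⊕ κ → ℝ) → ℝ) := by
    have e1 : vg (fun x => p x / lam) = ENNReal.ofReal (lam ^ Fintype.card (ι ⊕ κ)) * vg p :=
      Scale.scale_vol p hp.hom lam hlam0
    rw [e1, hn, hlamn, ← ENNReal.ofReal_toReal bp.2.ne, ← hVp,
      ← ENNReal.ofReal_mul (div_pos pv pp).le, div_mul_cancel₀ _ pp.ne', hV,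
      ENNReal.ofReal_toReal bv.2.ne]
  have h2 : Sec (fun x => p x / lam) (fun x => r x / mu) := by
    intro Z
    have e1 : volume {u : ι → ℝ | r (Sum.elim u (Z *ᵥ u)) / mu ≤ 1} =
        ENNReal.ofReal (mu ^ Fintype.card ι) *
          volume {u : ι → ℝ | r (Sum.elim u (Z *ᵥ u)) ≤ 1} := by
      apply Scale.scale_vol (fun u : ι → ℝ => r (Sum.elim u (Z *ᵥ u))) _ _ hmu0
      intro t u
      show r (Sum.elim (t • u) (Z *ᵥ (t • u))) = |t| * r (Sum.elim u (Z *ᵥ u))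
      rw [← hr.hom]
      congr 1
      rw [Matrix.mulVec_smul]
      ext x
      rcases x with x | x <;> simp
    have e2 : volume {v : κ → ℝ | p (Sum.elim (-(Zᵀ *ᵥ v)) v) / lam ≤ 1} =
        ENNReal.ofReal (lam ^ Fintype.card κ) *
          volume {v : κ → ℝ | p (Sum.elim (-(Zᵀ *ᵥ v)) v) ≤ 1} := by
      apply Scale.scale_vol (fun v : κ → ℝ => p (Sum.elim (-(Zᵀ *ᵥ v)) v)) _ _ hlam0
      intro t v
      show p (Sum.elim (-(Zᵀ *ᵥ (t • v))) (t • v)) = |t| * p (Sum.elim (-(Zᵀ *ᵥ v)) v)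
      rw [← hp.hom]
      congr 1
      rw [Matrix.mulVec_smul]
      ext x
      rcases x with x | x <;> simp
    show volume {u : ι → ℝ | r (Sum.elim u (Z *ᵥ u)) / mu ≤ 1} =
      volume {v : κ → ℝ | p (Sum.elim (-(Zᵀ *ᵥ v)) v) / lam ≤ 1}
    rw [e1, e2, hS Z, ← hk, ← hm, hmuk]
  have h3 := hmain _ _ (Scale.scale_isG p hp lam hlam0) (Scale.scale_isG r hr mu hmu0) h2 h1
  have e3 : vg (fun x => r x / mu) =
      ENNReal.ofReal (mu ^ Fintype.card (ι ⊕ κ)) * vg r := Scale.scale_vol r hr.hom _ hmu0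
  rw [e3, hn, ENNReal.toReal_mul, ENNReal.toReal_ofReal (by positivity), ← hVr, mul_pow,
    ← pow_mul, mul_comm (k + m) k, pow_mul, hmuk, ← pow_mul, mul_comm m, pow_mul, hlamn,
    div_pow, div_mul_eq_mul_div, div_mul_eq_mul_div, div_le_iff₀ (by positivity)] at h3
  linarith

/-- Busemann type inequality for `k`-intersection bodies. -/
theorem RES (k n : ℕ) (hk : 1 ≤ k) (hkn : 2 * k < n)
    (K L : Set (EuclideanSpace ℝ (Fin n))) (hK : IsSymStarBody K) (hL : IsSymStarBody L)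
    (h : Helper142.Kib.HasIntersectionBody k K L) :
    (volume L).toReal ^ k ≤
      (kap (n - k) ^ n / kap k ^ n * kap n ^ k / kap n ^ (n - k)) *
        (volume K).toReal ^ (n - k) := by
  obtain ⟨m, hnk⟩ : ∃ m, n - k = m := ⟨_, rfl⟩
  have hn' : n = k + m := by omega
  have hn0 : 0 < n := by omega
  let e : Fin n ≃ Fin k ⊕ Fin m := (finCongr hn').trans finSumFinEquiv.symm
  obtain ⟨p, hp, hpK⟩ := Body_gauge.body_gauge hn0 K hK
  obtain ⟨r, hr, hrL⟩ := Body_gauge.body_gauge hn0 L hL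
  obtain ⟨hp', hvp⟩ := Body_vol.body_vol e K p hp hpK
  obtain ⟨hr', hvr⟩ := Body_vol.body_vol e L r hr hrL
  have hcι : Fintype.card (Fin k) = k := Fintype.card_fin k
  have hcκ : Fintype.card (Fin m) = m := Fintype.card_fin _
  have hS := Body_sec.body_sec (ι := Fin k) (κ := Fin m) e K L hK.isCompact hL.isCompact
    (by rw [hcι]; exact h) p r hpK hrL
  have h1 := scale2 (Fin k) (Fin m) (by rw [hcι]; omega)
    (fun p r hp hr hS hv => main_norm (Fin k) (Fin m) (by rw [hcι]; omega)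
      (by rw [hcι, hcκ]; omega) p r hp hr hS hv)
    _ _ hp' hr' hS
  rw [hvp, hvr, Vol_nn.vol_nn, Vol_nn.vol_nn, Vol_nn.vol_nn, Fintype.card_sum, hcι, hcκ,
    ← hn'] at h1
  rw [hnk]
  have kap_pos : ∀ p : ℕ, 0 < kap p := by
    intro p
    unfold kap
    have : 0 < Real.Gamma (1 + (p : ℝ) / 2) := Real.Gamma_pos_of_pos (by positivity)
    positivity
  have k1 := kap_pos k
  have k2 := kap_pos n
  have k3 : 0 < kap k ^ n * kap n ^ m := by positivity
  have e1 : (kap m ^ n / kap k ^ n * kap n ^ k / kap n ^ m) *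
      (volume K).toReal ^ m =
      (kap m ^ n * kap n ^ k * (volume K).toReal ^ m) / (kap k ^ n * kap n ^ m) := by
    field_simp
  rw [e1, le_div_iff₀ k3]
  calc (volume L).toReal ^ k * (kap k ^ n * kap n ^ m)
      = (volume L).toReal ^ k * kap k ^ n * kap n ^ m := by ring
    _ ≤ _ := h1

end Pool.Agent.N551.BK
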